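import Pool.Agent.Helper777.PP.Defs
set_option autoImplicit false

namespace Pool.PlanePD

open Complex Filter Topology

theorem ecoef_zero (k i : ℕ) (hik : k < i) : ecoef k i = 0 := by
  induction k generalizing i with
  | zero =>
    cases i with
    | zero => omega
    | succ i => rfl
  | succ k ih =>
    cases i with
    | zero => omega
    | succ i =>
      show Polynomial.X ^ 2 * (Polynomial.derivative (ecoef k (i + 1)) + ecoef k i) = 0
      rw [ih (i + 1) (by omega), ih i (by omega)]
      simp

theorem ecoef_diag (k : ℕ) : ecoef k k = Polynomial.X ^ (3 + 2 * k) := by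
  induction k with
  | zero => rfl
  | succ k ih =>
    show Polynomial.X ^ 2 * (Polynomial.derivative (ecoef k (k + 1)) + ecoef k k) = _
    rw [ecoef_zero k (k + 1) (by omega), ih]
    simp only [Polynomial.derivative_zero, zero_add]
    rw [← pow_add]
    congr 1
    ring

theorem tau_Lw_eval (w : ℂ) (c y : ℕ → ℂ) (P : MvPolynomial ℕ ℂ) :
    MvPolynomial.eval y (tau c (Lw w P)) = MvPolynomial.eval (aff w c y) P := by
  have h : ((MvPolynomial.aeval y).comp ((tau c).comp (Lw w)) : MvPolynomial ℕ ℂ →ₐ[ℂ] ℂ) =
      MvPolynomial.aeval (aff w c y) := by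
    apply MvPolynomial.algHom_ext
    intro k
    simp only [AlgHom.comp_apply, Lw, tau, MvPolynomial.bind₁_X_right, aff,
      MvPolynomial.aeval_X, map_sum, map_mul, map_sub, MvPolynomial.algHom_C]
    simp
  have := DFunLike.congr_fun h P
  simpa [MvPolynomial.aeval_eq_eval] using this

end Pool.PlanePD
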