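import Mathlib
set_option autoImplicit false

namespace Pool.PlanePD

open Complex Filter Topology

/-- `sg2 n = σ₂(n) = ∑_{d ∣ n} d²` (`0` for `n = 0`). -/
def sg2 (n : ℕ) : ℕ := ∑ d ∈ n.divisors, d ^ 2

/-- `G z = ∑_{p ≥ 1} ∑_{n ∈ ℤ} (p z + n)⁻³`. -/
noncomputable def G (z : ℂ) : ℂ :=
  ∑' q : ℕ × ℤ, ((((q.1 : ℂ) + 1) * z + (q.2 : ℂ))⁻¹) ^ 3

/-- `Sp z = ∑_{p, n ≥ 1} (p z + n)⁻³`. -/
noncomputable def Sp (z : ℂ) : ℂ :=
  ∑' q : ℕ × ℕ, ((((q.1 : ℂ) + 1) * z + ((q.2 : ℂ) + 1))⁻¹) ^ 3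

/-- `Z3 = ζ(3)`. -/
noncomputable def Z3 : ℂ := ∑' n : ℕ, (((n : ℂ) + 1)⁻¹) ^ 3

/-- the period function. -/
noncomputable def h (z : ℂ) : ℂ := 2 * Sp z + Z3 * (1 + (z⁻¹) ^ 3)

/-- the coefficients in `(d/du)^k` of `u ↦ w³ f(w)`, `w = -1/u`. -/
noncomputable def ecoef : ℕ → ℕ → Polynomial ℂ
  | 0, 0 => Polynomial.X ^ 3
  | 0, (_ + 1) => 0
  | (k + 1), 0 => Polynomial.X ^ 2 * Polynomial.derivative (ecoef k 0)
  | (k + 1), (i + 1) =>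
      Polynomial.X ^ 2 * (Polynomial.derivative (ecoef k (i + 1)) + ecoef k i)

/-- the jet of `G`. -/
noncomputable def jet (z : ℂ) (k : ℕ) : ℂ := iteratedDeriv k G z

/-- the jet of `h`. -/
noncomputable def hjet (w : ℂ) (k : ℕ) : ℂ := iteratedDeriv k h w

/-- the affine substitution `y ↦ E_w (y - c)`. -/
noncomputable def aff (w : ℂ) (c y : ℕ → ℂ) (k : ℕ) : ℂ :=
  ∑ i ∈ Finset.range (k + 1), (ecoef k i).eval w * (y i - c i)

/-- `F = ∑ σ₂(n) Xⁿ`. -/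
noncomputable def F : PowerSeries ℚ := PowerSeries.mk (fun n : ℕ => (sg2 n : ℚ))

/-- `θ = X d/dX` on power series. -/
noncomputable def th (f : PowerSeries ℚ) : PowerSeries ℚ :=
  PowerSeries.X * PowerSeries.derivative ℚ f

/-- interlacing of finitely supported sequences: `IL ν μ` iff `ν₀ ≥ μ₀ ≥ ν₁ ≥ μ₁ ≥ ...`. -/
def IL (ν μ : ℕ →₀ ℕ) : Prop := ∀ k, μ k ≤ ν k ∧ ν (k + 1) ≤ μ k

/-- the size of a finitely supported sequence. -/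
noncomputable def sz (ν : ℕ →₀ ℕ) : ℕ := ν.sum (fun _ a => a)

open Classical in
/-- Schur-type sums over interlacing chains `λ = μ⁰ ≻ μ¹ ≻ ... ≻ μⁿ = 0`. -/
noncomputable def S : ℕ → (ℕ → ENNReal) → (ℕ →₀ ℕ) → ENNReal
  | 0, _, l => if l = 0 then 1 else 0
  | (n + 1), y, l => ∑' m : ℕ →₀ ℕ,
      if IL l m then y 0 ^ (sz l - sz m) * S n (fun i => y (i + 1)) m else 0

/-- plane partitions in an `n × n` square, as a predicate on arrays. -/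
def IsPP (n : ℕ) (f : Fin n → Fin n → ℕ) : Prop :=
  (∀ i j k : Fin n, i ≤ k → f k j ≤ f i j) ∧ (∀ i j k : Fin n, j ≤ k → f i k ≤ f i j)

/-- number of plane partitions of `m` in an `n × n` square. -/
noncomputable def bb (n m : ℕ) : ℕ :=
  Set.ncard {f : Fin n → Fin n → ℕ |
                  (∀ i j k : Fin n, i ≤ k → f k j ≤ f i j) ∧
                  (∀ i j k : Fin n, j ≤ k → f i k ≤ f i j) ∧
                  (∑ i, ∑ j, f i j) = m}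

/-- linear substitution `X_k ↦ ∑_{i ≤ k} e_{k,i}(w) X_i`. -/
noncomputable def Lw (w : ℂ) : MvPolynomial ℕ ℂ →ₐ[ℂ] MvPolynomial ℕ ℂ :=
  MvPolynomial.bind₁ (fun k : ℕ => ∑ i ∈ Finset.range (k + 1),
    MvPolynomial.C ((ecoef k i).eval w) * (MvPolynomial.X i : MvPolynomial ℕ ℂ))

/-- translation `X_i ↦ X_i - c_i`. -/
noncomputable def tau (c : ℕ → ℂ) : MvPolynomial ℕ ℂ →ₐ[ℂ] MvPolynomial ℕ ℂ :=
  MvPolynomial.bind₁ (fun i : ℕ => (MvPolynomial.X i - MvPolynomial.C (c i) : MvPolynomial ℕ ℂ))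

end Pool.PlanePD
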