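import Pool.Agent.Helper777.PP.Defs
import Pool.Agent.Helper777.PP.P_summable_half

set_option autoImplicit false

namespace Pool.PlanePD

open Complex Filter Topology

theorem G_q_aux (z : ℂ) (hz : 0 < z.im) :
    G z = ((-2 * Real.pi * I) ^ 3 / 2) *
      ∑' n : ℕ, (sg2 n : ℂ) * (exp (2 * Real.pi * I * z)) ^ n := by
  set r : ℂ := exp (2 * Real.pi * I * z) with hr
  have hr1 : ‖r‖ < 1 := by
    have := UpperHalfPlane.norm_exp_two_pi_I_lt_one (⟨z, hz⟩ : UpperHalfPlane)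
    simpa [hr] using this
  have hsum : Summable (fun q : ℕ × ℤ => ((((q.1 : ℂ) + 1) * z + (q.2 : ℂ))⁻¹) ^ 3) :=
    (summable_half z hz).of_norm
  have h1 : G z = ∑' p : ℕ, ∑' n : ℤ, ((((p : ℂ) + 1) * z + (n : ℂ))⁻¹) ^ 3 := by
    unfold G
    exact hsum.tsum_prod
  have h2 : ∀ p : ℕ, ∑' n : ℤ, ((((p : ℂ) + 1) * z + (n : ℂ))⁻¹) ^ 3 =
      ((-2 * Real.pi * I) ^ 3 / 2) * ∑' n : ℕ+, (n : ℂ) ^ 2 * r ^ ((p + 1) * n : ℕ) := by
    intro p
    have him : 0 < (((p : ℂ) + 1) * z).im := by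
      have : (((p : ℂ) + 1) * z).im = ((p : ℝ) + 1) * z.im := by
        simp [Complex.add_im, Complex.mul_im]
      rw [this]
      positivity
    have h3 := EisensteinSeries.qExpansion_identity_pnat (k := 2) (by norm_num)
      (⟨((p : ℂ) + 1) * z, him⟩ : UpperHalfPlane)
    have h4 : ∑' n : ℤ, ((((p : ℂ) + 1) * z + (n : ℂ))⁻¹) ^ 3 =
        ∑' n : ℤ, 1 / ((((⟨((p : ℂ) + 1) * z, him⟩ : UpperHalfPlane) : ℂ)) + n) ^ (2 + 1) := by
      refine tsum_congr fun n => ?_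
      rw [inv_pow, one_div]
    rw [h4, h3]
    congr 1
    refine tsum_congr fun n => ?_
    congr 1
    rw [hr, ← Complex.exp_nat_mul, ← Complex.exp_nat_mul]
    congr 1
    have : (((⟨((p : ℂ) + 1) * z, him⟩ : UpperHalfPlane) : ℂ)) = ((p : ℂ) + 1) * z := rfl
    rw [this]
    push_cast
    ring
  rw [h1]
  simp only [h2]
  rw [tsum_mul_left]
  congr 1
  have h5 : ∑' p : ℕ, ∑' n : ℕ+, (n : ℂ) ^ 2 * r ^ ((p + 1) * n : ℕ) =
      ∑' d : ℕ+, ∑' n : ℕ+, (n : ℂ) ^ 2 * r ^ ((d : ℕ) * n : ℕ) := by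
    rw [tsum_pnat_eq_tsum_succ (f := fun d : ℕ => ∑' n : ℕ+, (n : ℂ) ^ 2 * r ^ (d * n : ℕ))]
  rw [h5, tsum_prod_pow_eq_tsum_sigma 2 hr1]
  have h6 : Summable fun n : ℕ => (sg2 n : ℂ) * r ^ n := by
    have := EisensteinSeries.summable_sigma_mul_cexp_pow (k := 3) (by norm_num)
      (⟨z, hz⟩ : UpperHalfPlane)
    refine this.congr fun n => ?_
    rw [ArithmeticFunction.sigma_apply]
    rfl
  rw [← tsum_zero_pnat_eq_tsum_nat h6]
  have h7 : (sg2 0 : ℂ) = 0 := by simp [sg2]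
  rw [h7, zero_mul, zero_add]
  refine tsum_congr fun n => ?_
  rw [ArithmeticFunction.sigma_apply]
  rfl

/-- Lipschitz formula: `G` is a nonzero multiple of `∑ σ₂(n) qⁿ`. -/
theorem G_q : ∃ c : ℂ, c ≠ 0 ∧ ∀ z : ℂ, 0 < z.im →
    G z = c * ∑' n : ℕ, (sg2 n : ℂ) * (exp (2 * Real.pi * I * z)) ^ n := by
  refine ⟨(-2 * Real.pi * I) ^ 3 / 2, ?_, fun z hz => G_q_aux z hz⟩
  have hpi : (Real.pi : ℂ) ≠ 0 := by exact_mod_cast Real.pi_ne_zero
  apply div_ne_zero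
  · apply pow_ne_zero
    exact mul_ne_zero (mul_ne_zero (by norm_num) hpi) I_ne_zero
  · norm_num

end Pool.PlanePD
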