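import Pool.Agent.Helper777.PP.Defs

set_option autoImplicit false

namespace Pool.PlanePD

open Complex Filter Topology

/-- coefficients of the iterated theta derivative -/
theorem eval_ps_coeff (k n : ℕ) :
    PowerSeries.coeff n (th^[k] F) = (n : ℚ) ^ k * (sg2 n : ℚ) := by
  induction k generalizing n with
  | zero => simp [F]
  | succ k ih =>
    rw [Function.iterate_succ_apply', th]
    cases n with
    | zero => simp
    | succ n =>
      rw [PowerSeries.coeff_succ_X_mul]
      have h := PowerSeries.coeff_derivative (th^[k] F) n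
      have h2 : PowerSeries.coeff n (PowerSeries.derivative ℚ (th^[k] F)) =
          PowerSeries.coeff (n + 1) (th^[k] F) * ((n : ℚ) + 1) := h
      rw [h2, ih]
      push_cast
      ring

/-- the value of a power series with absolute convergence -/
def eval_ps_Good (t : ℂ) (f : PowerSeries ℚ) (v : ℂ) : Prop :=
  Summable (fun n : ℕ => ‖((PowerSeries.coeff n f : ℚ) : ℂ) * t ^ n‖) ∧
    ∑' n : ℕ, ((PowerSeries.coeff n f : ℚ) : ℂ) * t ^ n = v

theorem eval_ps_good_add (t : ℂ) {f g : PowerSeries ℚ} {v w : ℂ}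
    (hf : eval_ps_Good t f v) (hg : eval_ps_Good t g w) : eval_ps_Good t (f + g) (v + w) := by
  have e : ∀ n : ℕ, ((PowerSeries.coeff n (f + g) : ℚ) : ℂ) * t ^ n =
      ((PowerSeries.coeff n f : ℚ) : ℂ) * t ^ n + ((PowerSeries.coeff n g : ℚ) : ℂ) * t ^ n := by
    intro n
    rw [map_add]
    push_cast
    ring
  constructor
  · refine Summable.of_nonneg_of_le (fun n => norm_nonneg _) (fun n => ?_) (hf.1.add hg.1)
    rw [e n]
    exact norm_add_le _ _
  · rw [← hf.2, ← hg.2, ← Summable.tsum_add hf.1.of_norm hg.1.of_norm]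
    exact tsum_congr e

theorem eval_ps_good_C (t : ℂ) (a : ℚ) : eval_ps_Good t (PowerSeries.C a) (a : ℂ) := by
  have e : ∀ n : ℕ, n ≠ 0 → ((PowerSeries.coeff n (PowerSeries.C a) : ℚ) : ℂ) * t ^ n = 0 := by
    intro n hn
    rw [PowerSeries.coeff_C, if_neg hn]
    simp
  constructor
  · refine summable_of_ne_finset_zero (s := {0}) ?_
    intro n hn
    rw [e n (by simpa using hn), norm_zero]
  · rw [tsum_eq_single 0 e]
    simp

theorem eval_ps_good_mul (t : ℂ) {f g : PowerSeries ℚ} {v w : ℂ}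
    (hf : eval_ps_Good t f v) (hg : eval_ps_Good t g w) : eval_ps_Good t (f * g) (v * w) := by
  have e : ∀ n : ℕ, ((PowerSeries.coeff n (f * g) : ℚ) : ℂ) * t ^ n =
      ∑ kl ∈ Finset.HasAntidiagonal.antidiagonal n, (((PowerSeries.coeff kl.1 f : ℚ) : ℂ) * t ^ kl.1) *
        (((PowerSeries.coeff kl.2 g : ℚ) : ℂ) * t ^ kl.2) := by
    intro n
    rw [PowerSeries.coeff_mul]
    push_cast
    rw [Finset.sum_mul]
    refine Finset.sum_congr rfl ?_
    intro kl hkl
    rw [Finset.HasAntidiagonal.mem_antidiagonal] at hkl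
    rw [← hkl, pow_add]
    ring
  constructor
  · have h := summable_norm_sum_mul_antidiagonal_of_summable_norm hf.1 hg.1
    refine h.congr ?_
    intro n
    rw [e n]
  · rw [← hf.2, ← hg.2, tsum_mul_tsum_eq_tsum_sum_antidiagonal_of_summable_norm hf.1 hg.1]
    exact tsum_congr e

theorem eval_ps_sg2_le (n : ℕ) : sg2 n ≤ n ^ 3 := by
  unfold sg2
  calc ∑ d ∈ n.divisors, d ^ 2 ≤ ∑ d ∈ n.divisors, n ^ 2 := by
        refine Finset.sum_le_sum ?_
        intro d hd
        exact Nat.pow_le_pow_left (Nat.divisor_le hd) 2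
    _ = n.divisors.card * n ^ 2 := by rw [Finset.sum_const, smul_eq_mul]
    _ ≤ n * n ^ 2 := Nat.mul_le_mul_right _ (Nat.card_divisors_le_self n)
    _ = n ^ 3 := by ring

theorem eval_ps_good_th (t : ℂ) (ht : ‖t‖ < 1) (k : ℕ) :
    eval_ps_Good t (th^[k] F) (∑' n : ℕ, (n : ℂ) ^ k * (sg2 n : ℂ) * t ^ n) := by
  have e : ∀ n : ℕ, ((PowerSeries.coeff n (th^[k] F) : ℚ) : ℂ) * t ^ n =
      (n : ℂ) ^ k * (sg2 n : ℂ) * t ^ n := by
    intro n
    rw [eval_ps_coeff]
    push_cast
    ring
  constructor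
  · have hs := summable_norm_pow_mul_geometric_of_norm_lt_one (k + 3) ht
    refine Summable.of_nonneg_of_le (fun n => norm_nonneg _) (fun n => ?_) hs
    rw [e n, norm_mul, norm_mul, norm_mul]
    refine mul_le_mul_of_nonneg_right ?_ (norm_nonneg _)
    rw [pow_add, norm_mul]
    refine mul_le_mul_of_nonneg_left ?_ (norm_nonneg _)
    rw [norm_pow, Complex.norm_natCast, Complex.norm_natCast]
    exact_mod_cast eval_ps_sg2_le n
  · exact tsum_congr e

/-- evaluation of a formal identity between the series `θ^k F` inside the unit disc. -/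
theorem eval_ps (R : MvPolynomial ℕ ℚ) (hR : MvPolynomial.aeval (fun k => th^[k] F) R = 0)
    (t : ℂ) (ht : ‖t‖ < 1) :
    MvPolynomial.aeval (fun k : ℕ => ∑' n : ℕ, (n : ℂ) ^ k * (sg2 n : ℂ) * t ^ n) R = 0 := by
  have key : ∀ P : MvPolynomial ℕ ℚ, eval_ps_Good t (MvPolynomial.aeval (fun k => th^[k] F) P)
      (MvPolynomial.aeval (fun k : ℕ => ∑' n : ℕ, (n : ℂ) ^ k * (sg2 n : ℂ) * t ^ n) P) := by
    intro P
    induction P using MvPolynomial.induction_on with
    | C a =>
      rw [MvPolynomial.aeval_C, MvPolynomial.aeval_C]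
      exact eval_ps_good_C t a
    | add p q hp hq =>
      rw [map_add, map_add]
      exact eval_ps_good_add t hp hq
    | mul_X p i hp =>
      rw [map_mul, map_mul, MvPolynomial.aeval_X, MvPolynomial.aeval_X]
      exact eval_ps_good_mul t hp (eval_ps_good_th t ht i)
  have h := (key R).2
  rw [hR] at h
  rw [← h]
  simp

end Pool.PlanePD
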