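import Pool.Agent.Helper777.PP.Defs
import Pool.Agent.Helper777.PP.P_summable_half

set_option autoImplicit false

namespace Pool.PlanePD

open Complex Filter Topology

theorem im_lin_11837 (q : ℕ × ℤ) (z : ℂ) :
    (((q.1 : ℂ) + 1) * z + (q.2 : ℂ)).im = ((q.1 : ℝ) + 1) * z.im := by
  have h1 : ((q.1 : ℂ) + 1) = (((q.1 : ℝ) + 1 : ℝ) : ℂ) := by push_cast; rfl
  have h2 : ((q.2 : ℂ)).im = 0 := Complex.intCast_im _
  rw [Complex.add_im, h2, h1, Complex.im_ofReal_mul, add_zero]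

/-- `G` is holomorphic on the upper half plane. -/
theorem G_diff : DifferentiableOn ℂ G {z : ℂ | 0 < z.im} := by
  intro z0 hz0
  have hB : 0 < z0.im := hz0
  set U : Set ℂ := Metric.ball z0 (z0.im / 2) with hU
  have himU : ∀ z ∈ U, 0 < z.im := by
    intro z hz
    rw [hU, Metric.mem_ball, dist_eq_norm] at hz
    have h1 := Complex.abs_im_le_norm (z - z0)
    rw [Complex.sub_im] at h1
    have h2 := neg_abs_le (z.im - z0.im)
    linarith
  have hne : ∀ (q : ℕ × ℤ) (z : ℂ), 0 < z.im → ((q.1 : ℂ) + 1) * z + (q.2 : ℂ) ≠ 0 := by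
    intro q z hz h0
    have h1 := im_lin_11837 q z
    rw [h0, Complex.zero_im] at h1
    have h2 : 0 < ((q.1 : ℝ) + 1) * z.im := by positivity
    linarith
  have hdiff : DifferentiableOn ℂ (fun z : ℂ => ∑' q : ℕ × ℤ,
      ((((q.1 : ℂ) + 1) * z + (q.2 : ℂ))⁻¹) ^ 3) U := by
    refine differentiableOn_tsum_of_summable_norm ((summable_half z0 hz0).mul_left 8) ?_
      Metric.isOpen_ball ?_
    · intro q
      refine DifferentiableOn.pow (DifferentiableOn.inv ?_ (fun z hz => hne q z (himU z hz))) 3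
      fun_prop
    · intro q z hz
      have h1 := im_lin_11837 q z0
      have h2 : ((q.1 : ℝ) + 1) * z0.im ≤ ‖((q.1 : ℂ) + 1) * z0 + (q.2 : ℂ)‖ := by
        rw [← h1]
        exact (le_abs_self _).trans (Complex.abs_im_le_norm _)
      rw [hU, Metric.mem_ball, dist_eq_norm] at hz
      have h3 : ‖((q.1 : ℂ) + 1) * z0 + (q.2 : ℂ)‖ ≤
          ‖((q.1 : ℂ) + 1) * z + (q.2 : ℂ)‖ + ((q.1 : ℝ) + 1) * ‖z - z0‖ := by
        have e1 : ((q.1 : ℂ) + 1) * z0 + (q.2 : ℂ) =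
            (((q.1 : ℂ) + 1) * z + (q.2 : ℂ)) - ((q.1 : ℂ) + 1) * (z - z0) := by ring
        have e2 : ‖((q.1 : ℂ) + 1)‖ = (q.1 : ℝ) + 1 := by
          have : ((q.1 : ℂ) + 1) = ((q.1 + 1 : ℕ) : ℂ) := by push_cast; rfl
          rw [this, Complex.norm_natCast]
          push_cast
          rfl
        rw [e1]
        refine (norm_sub_le _ _).trans ?_
        rw [norm_mul, e2]
      have h4 : ((q.1 : ℝ) + 1) * ‖z - z0‖ ≤ ((q.1 : ℝ) + 1) * (z0.im / 2) :=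
        mul_le_mul_of_nonneg_left hz.le (by positivity)
      have h5 : ‖((q.1 : ℂ) + 1) * z0 + (q.2 : ℂ)‖ ≤ 2 * ‖((q.1 : ℂ) + 1) * z + (q.2 : ℂ)‖ := by
        linarith
      have h6 : 0 < ‖((q.1 : ℂ) + 1) * z0 + (q.2 : ℂ)‖ := norm_pos_iff.2 (hne q z0 hz0)
      have h7 : ‖((q.1 : ℂ) + 1) * z + (q.2 : ℂ)‖⁻¹ ≤
          2 * ‖((q.1 : ℂ) + 1) * z0 + (q.2 : ℂ)‖⁻¹ := by
        have h8 : 0 < ‖((q.1 : ℂ) + 1) * z + (q.2 : ℂ)‖ := by linarith
        rw [inv_le_comm₀ h8 (by positivity), mul_inv, inv_inv]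
        linarith
      rw [norm_pow, norm_pow, norm_inv, norm_inv]
      calc ‖((q.1 : ℂ) + 1) * z + (q.2 : ℂ)‖⁻¹ ^ 3
          ≤ (2 * ‖((q.1 : ℂ) + 1) * z0 + (q.2 : ℂ)‖⁻¹) ^ 3 :=
            pow_le_pow_left₀ (by positivity) h7 3
        _ = 8 * ‖((q.1 : ℂ) + 1) * z0 + (q.2 : ℂ)‖⁻¹ ^ 3 := by ring
  have hmem : U ∈ nhds z0 := Metric.ball_mem_nhds z0 (by linarith)
  exact (hdiff.differentiableAt hmem).differentiableWithinAt

end Pool.PlanePD
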