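import Pool.Agent.Helper777.PP.Defs

set_option autoImplicit false

namespace Pool.PlanePD

open Complex Filter Topology

theorem carl_ne {a w : ℂ} (ha : 0 < a.re) (hw : 0 ≤ w.re) : w + starRingEnd ℂ a ≠ 0 := by
  intro h
  have := congrArg Complex.re h
  simp at this
  linarith

theorem carl_div {g : ℂ → ℂ} (hg : DiffContOnCl ℂ g {w : ℂ | 0 < w.re}) {M : ℝ}
    (hM : ∀ w : ℂ, 0 ≤ w.re → ‖g w‖ ≤ M) {a : ℂ} (ha : 0 < a.re) (hga : g a = 0) :
    ∃ g1 : ℂ → ℂ, DiffContOnCl ℂ g1 {w : ℂ | 0 < w.re} ∧ (∀ w : ℂ, 0 ≤ w.re → ‖g1 w‖ ≤ M) ∧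
      ∀ w : ℂ, 0 ≤ w.re → g w = (w - a) / (w + starRingEnd ℂ a) * g1 w := by
  have hM0 : 0 ≤ M := (norm_nonneg _).trans (hM 0 (by simp))
  have hH : IsOpen {w : ℂ | 0 < w.re} := isOpen_lt continuous_const Complex.continuous_re
  have hmem : {w : ℂ | 0 < w.re} ∈ 𝓝 a := hH.mem_nhds ha
  have hcl : closure {w : ℂ | 0 < w.re} ∈ 𝓝 a := Filter.mem_of_superset hmem subset_closure
  have hds : DiffContOnCl ℂ (dslope g a) {w : ℂ | 0 < w.re} := by
    refine ⟨(Complex.differentiableOn_dslope hmem).2 hg.differentiableOn, ?_⟩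
    exact (continuousOn_dslope hcl).2
      ⟨hg.continuousOn, hg.differentiableOn.differentiableAt hmem⟩
  have hd1 : DiffContOnCl ℂ (fun w => (w + starRingEnd ℂ a) * dslope g a w)
      {w : ℂ | 0 < w.re} := by
    have h1 : DiffContOnCl ℂ (fun w : ℂ => w + starRingEnd ℂ a) {w : ℂ | 0 < w.re} :=
      Differentiable.diffContOnCl (by fun_prop)
    exact h1.smul hds
  have hsl : ∀ w, w ≠ a → dslope g a w = g w / (w - a) := by
    intro w hw
    rw [dslope_of_ne _ hw, slope_def_field, hga, sub_zero]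
  have hrel : ∀ w : ℂ, 0 ≤ w.re →
      g w = (w - a) / (w + starRingEnd ℂ a) * ((w + starRingEnd ℂ a) * dslope g a w) := by
    intro w hw
    have h1 := carl_ne ha hw
    by_cases hwa : w = a
    · rw [hwa, hga]
      simp
    · have h2 : w - a ≠ 0 := sub_ne_zero.2 hwa
      rw [hsl w hwa]
      field_simp
  have hnorm : ∀ w, w ≠ a → ‖(w + starRingEnd ℂ a) * dslope g a w‖ =
      ‖w + starRingEnd ℂ a‖ / ‖w - a‖ * ‖g w‖ := by
    intro w hw
    rw [hsl w hw, norm_mul, norm_div]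
    ring
  have hfar : ∀ w : ℂ, 0 ≤ w.re → 1 ≤ ‖w - a‖ → ‖(w + starRingEnd ℂ a) * dslope g a w‖ ≤
      (1 + ‖a + starRingEnd ℂ a‖) * M := by
    intro w hw hwa
    have hne : w ≠ a := by
      rintro rfl
      simp at hwa
      linarith
    rw [hnorm w hne]
    have h1 : ‖w + starRingEnd ℂ a‖ ≤ ‖w - a‖ + ‖a + starRingEnd ℂ a‖ := by
      have e : w + starRingEnd ℂ a = (w - a) + (a + starRingEnd ℂ a) := by ring
      rw [e]
      exact norm_add_le _ _
    have h2 : ‖w + starRingEnd ℂ a‖ / ‖w - a‖ ≤ 1 + ‖a + starRingEnd ℂ a‖ := by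
      rw [div_le_iff₀ (by linarith)]
      nlinarith [norm_nonneg (a + starRingEnd ℂ a)]
    exact mul_le_mul h2 (hM w hw) (norm_nonneg _) (by positivity)
  refine ⟨fun w => (w + starRingEnd ℂ a) * dslope g a w, hd1, ?_, hrel⟩
  intro w hw
  have hfarz : ∀ z : ℂ, 1 + ‖a‖ ≤ ‖z‖ → 1 ≤ ‖z - a‖ := by
    intro z hz
    have := norm_sub_norm_le z a
    linarith
  apply PhragmenLindelof.right_half_plane_of_bounded_on_real hd1 _ _ _ hw
  · refine ⟨1, by norm_num, 0, Asymptotics.IsBigO.of_bound ((1 + ‖a + starRingEnd ℂ a‖) * M) ?_⟩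
    rw [eventually_inf_principal]
    filter_upwards [tendsto_norm_cobounded_atTop.eventually_ge_atTop (1 + ‖a‖)] with z hz hz'
    simp only [zero_mul, Real.exp_zero, norm_one, mul_one]
    exact hfar z (le_of_lt hz') (hfarz z hz)
  · apply isBoundedUnder_of_eventually_le (a := (1 + ‖a + starRingEnd ℂ a‖) * M)
    filter_upwards [eventually_ge_atTop (1 + ‖a‖)] with x hx
    have hx0 : 0 ≤ x := by linarith [norm_nonneg a]
    apply hfar (x : ℂ) (by simpa using hx0)
    apply hfarz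
    rw [Complex.norm_real, Real.norm_eq_abs, abs_of_nonneg hx0]
    exact hx
  · intro x
    have hre : ((x : ℂ) * I).re = 0 := by simp
    have hne : (x : ℂ) * I ≠ a := by
      intro h
      rw [h] at hre
      linarith
    rw [hnorm _ hne]
    have h1 : ‖(x : ℂ) * I + starRingEnd ℂ a‖ = ‖(x : ℂ) * I - a‖ := by
      rw [← Complex.norm_conj ((x : ℂ) * I + starRingEnd ℂ a), ← norm_neg]
      congr 1
      simp
      ring
    have h2 : 0 < ‖(x : ℂ) * I - a‖ := norm_pos_iff.2 (sub_ne_zero.2 hne)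
    rw [h1, div_self h2.ne', one_mul]
    exact hM _ hre.ge

theorem carl_prod {g : ℂ → ℂ} (hg : DiffContOnCl ℂ g {w : ℂ | 0 < w.re}) {M : ℝ}
    (hM : ∀ w : ℂ, 0 ≤ w.re → ‖g w‖ ≤ M) (S : Finset ℂ) (hS : ∀ a ∈ S, 0 < a.re ∧ g a = 0) :
    ∃ g1 : ℂ → ℂ, DiffContOnCl ℂ g1 {w : ℂ | 0 < w.re} ∧ (∀ w : ℂ, 0 ≤ w.re → ‖g1 w‖ ≤ M) ∧
      ∀ w : ℂ, 0 ≤ w.re → g w = (∏ a ∈ S, (w - a) / (w + starRingEnd ℂ a)) * g1 w := by
  classical
  induction S using Finset.induction_on with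
  | empty => exact ⟨g, hg, hM, fun w _ => by simp⟩
  | insert a S ha ih =>
    obtain ⟨g1, h1, h2, h3⟩ := ih (fun b hb => hS b (Finset.mem_insert_of_mem hb))
    obtain ⟨har, hga⟩ := hS a (Finset.mem_insert_self a S)
    have hg1a : g1 a = 0 := by
      have h4 := h3 a har.le
      rw [hga] at h4
      rcases mul_eq_zero.1 h4.symm with h | h
      · exfalso
        rw [Finset.prod_eq_zero_iff] at h
        obtain ⟨b, hb, hb0⟩ := h
        rw [div_eq_zero_iff] at hb0
        rcases hb0 with h | h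
        · exact ha (sub_eq_zero.1 h ▸ hb)
        · exact carl_ne (hS b (Finset.mem_insert_of_mem hb)).1 har.le h
      · exact h
    obtain ⟨g2, k1, k2, k3⟩ := carl_div h1 h2 har hg1a
    refine ⟨g2, k1, k2, fun w hw => ?_⟩
    rw [h3 w hw, k3 w hw, Finset.prod_insert ha]
    ring

theorem carl_factor (x : ℝ) (hx : 0 < x) (a : ℂ) (L : ℝ) (hL : 0 < L)
    (h1 : x + |a.im| ≤ a.re) (h2 : a.re ≤ L) :
    ‖((x : ℂ) - a) / ((x : ℂ) + starRingEnd ℂ a)‖ ≤ Real.exp (-(x / (2 * L))) := by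
  have hA : 0 < a.re := by linarith [abs_nonneg a.im]
  have e1 : ‖(x : ℂ) - a‖ ^ 2 = (x - a.re) ^ 2 + a.im ^ 2 := by
    rw [Complex.sq_norm, Complex.normSq_apply]
    simp
    ring
  have e2 : ‖(x : ℂ) + starRingEnd ℂ a‖ ^ 2 = (x + a.re) ^ 2 + a.im ^ 2 := by
    rw [Complex.sq_norm, Complex.normSq_apply]
    simp
    ring
  have h3 : (x + a.re) ^ 2 + a.im ^ 2 ≤ 4 * a.re ^ 2 := by
    have h4 : a.im ^ 2 = |a.im| ^ 2 := (sq_abs _).symm
    have h5 : x + a.re ≤ 2 * a.re - |a.im| := by linarith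
    have h6 : (x + a.re) ^ 2 ≤ (2 * a.re - |a.im|) ^ 2 :=
      pow_le_pow_left₀ (by linarith) h5 2
    rw [h4]
    nlinarith [abs_nonneg a.im]
  have h7 : (x - a.re) ^ 2 + a.im ^ 2 ≤
      Real.exp (-(x / L)) * ((x + a.re) ^ 2 + a.im ^ 2) := by
    have h8 : 1 - x / L ≤ Real.exp (-(x / L)) := by
      have := Real.add_one_le_exp (-(x / L))
      linarith
    have h9 : (x / L) * ((x + a.re) ^ 2 + a.im ^ 2) ≤ 4 * x * a.re := by
      calc (x / L) * ((x + a.re) ^ 2 + a.im ^ 2)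
          ≤ (x / a.re) * ((x + a.re) ^ 2 + a.im ^ 2) := by gcongr
        _ ≤ (x / a.re) * (4 * a.re ^ 2) := by gcongr
        _ = 4 * x * a.re := by field_simp
    calc (x - a.re) ^ 2 + a.im ^ 2 = ((x + a.re) ^ 2 + a.im ^ 2) - 4 * x * a.re := by ring
      _ ≤ (1 - x / L) * ((x + a.re) ^ 2 + a.im ^ 2) := by linarith
      _ ≤ _ := mul_le_mul_of_nonneg_right h8 (by positivity)
  have h10 : 0 < ‖(x : ℂ) + starRingEnd ℂ a‖ := norm_pos_iff.2 (carl_ne hA (by simpa using hx.le))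
  rw [norm_div, div_le_iff₀ h10]
  apply le_of_sq_le_sq _ (by positivity)
  rw [mul_pow, e1, e2, ← Real.exp_nat_mul]
  have e3 : ((2 : ℕ) : ℝ) * -(x / (2 * L)) = -(x / L) := by
    push_cast
    field_simp
  rw [e3]
  exact h7

theorem carl_real {g : ℂ → ℂ} (hg : DiffContOnCl ℂ g {w : ℂ | 0 < w.re}) {M : ℝ}
    (hM : ∀ w : ℂ, 0 ≤ w.re → ‖g w‖ ≤ M) (c : ℂ)
    (hz : ∀ᶠ n : ℕ in atTop, g (c + n) = 0) (x : ℝ) (hx : 0 < x) : g x = 0 := by
  have hM0 : 0 ≤ M := (norm_nonneg _).trans (hM 0 (by simp))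
  obtain ⟨n0, hn0⟩ := eventually_atTop.1 hz
  obtain ⟨n1, hn1⟩ := exists_nat_ge (max (n0 : ℝ) (x + |c.im| - c.re))
  have hn10 : n0 ≤ n1 := by exact_mod_cast (le_max_left _ _).trans hn1
  have hn11 : x + |c.im| ≤ c.re + n1 := by
    have := (le_max_right _ _).trans hn1
    linarith
  have hB : 0 < ‖c‖ + n1 + 1 := by positivity
  have hre : ∀ j : ℕ, (c + ((n1 + j : ℕ) : ℂ)).re = c.re + n1 + j := by
    intro j
    simp
    ring
  have him : ∀ j : ℕ, (c + ((n1 + j : ℕ) : ℂ)).im = c.im := by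
    intro j
    simp
  have hinj : ∀ N : ℕ, Set.InjOn (fun j : ℕ => c + ((n1 + j : ℕ) : ℂ)) (Finset.range N) := by
    intro N i _ j _ hij
    have h1 : ((n1 + i : ℕ) : ℂ) = ((n1 + j : ℕ) : ℂ) := add_left_cancel hij
    have h2 : n1 + i = n1 + j := by exact_mod_cast h1
    omega
  have key : ∀ N : ℕ, ‖g x‖ ≤ Real.exp (-(x / (2 * (‖c‖ + n1 + 1))) *
      ∑ j ∈ Finset.range N, 1 / ((j : ℝ) + 1)) * M := by
    intro N
    obtain ⟨g1, -, h2, h3⟩ := carl_prod hg hM
      ((Finset.range N).image (fun j : ℕ => c + ((n1 + j : ℕ) : ℂ))) (by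
        intro a ha
        obtain ⟨j, -, rfl⟩ := Finset.mem_image.1 ha
        refine ⟨?_, hn0 _ (by omega)⟩
        rw [hre]
        have := abs_nonneg c.im
        have : (0 : ℝ) ≤ j := by positivity
        linarith)
    have hx0 : 0 ≤ (x : ℂ).re := by simpa using hx.le
    rw [h3 x hx0, norm_mul]
    apply mul_le_mul _ (h2 x hx0) (norm_nonneg _) (Real.exp_pos _).le
    rw [Finset.prod_image (hinj N), norm_prod, Finset.mul_sum, Real.exp_sum]
    apply Finset.prod_le_prod (fun _ _ => norm_nonneg _)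
    intro j _
    have h4 := carl_factor x hx (c + ((n1 + j : ℕ) : ℂ)) ((‖c‖ + n1 + 1) * ((j : ℝ) + 1))
      (by positivity) (by
        rw [hre, him]
        have : (0 : ℝ) ≤ j := by positivity
        linarith) (by
        rw [hre]
        have h5 := Complex.re_le_norm c
        have h6 : (0 : ℝ) ≤ j := by positivity
        have h7 : (0 : ℝ) ≤ n1 := by positivity
        have h8 : 0 ≤ ‖c‖ := norm_nonneg c
        nlinarith [mul_nonneg h8 h6, mul_nonneg h7 h6])
    refine h4.trans (le_of_eq ?_)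
    congr 1
    field_simp
  have hlim : Tendsto (fun N : ℕ => Real.exp (-(x / (2 * (‖c‖ + n1 + 1))) *
      ∑ j ∈ Finset.range N, 1 / ((j : ℝ) + 1)) * M) atTop (𝓝 (0 * M)) := by
    apply Tendsto.mul_const
    apply Real.tendsto_exp_atBot.comp
    have h1 : 0 < x / (2 * (‖c‖ + n1 + 1)) := by positivity
    exact Real.tendsto_sum_range_one_div_nat_succ_atTop.const_mul_atTop_of_neg
      (neg_neg_of_pos h1)
  rw [zero_mul] at hlim
  have h5 : ‖g x‖ ≤ 0 := ge_of_tendsto' hlim key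
  exact norm_le_zero_iff.1 h5

/-- Carlson / Blaschke type uniqueness in the right half plane. -/
theorem carlson (f : ℂ → ℂ) (hf : DifferentiableOn ℂ f {w : ℂ | 0 < w.re}) (C : ℝ) (K : ℕ)
    (hb : ∀ w : ℂ, 1 ≤ w.re → ‖f w‖ ≤ C * (1 + ‖w‖) ^ K) (z : ℂ)
    (hz : ∀ᶠ a : ℕ in atTop, f (z + a) = 0) : ∀ w : ℂ, 0 < w.re → f w = 0 := by
  have hH : IsOpen {w : ℂ | 0 < w.re} := isOpen_lt continuous_const Complex.continuous_re
  set g : ℂ → ℂ := fun w => f (w + 1) / (w + 2) ^ K with hg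
  have hne2 : ∀ w : ℂ, -1 < w.re → w + 2 ≠ 0 := by
    intro w hw h
    have := congrArg Complex.re h
    simp at this
    linarith
  have hdg : DifferentiableOn ℂ g {w : ℂ | -1 < w.re} := by
    apply DifferentiableOn.div
    · apply hf.comp (by fun_prop : DifferentiableOn ℂ (fun w : ℂ => w + 1) {w : ℂ | -1 < w.re})
      intro w hw
      have hw' : -1 < w.re := hw
      show 0 < (w + 1).re
      simp
      linarith
    · fun_prop
    · intro w hw
      exact pow_ne_zero _ (hne2 w hw)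
  have hclos : closure {w : ℂ | 0 < w.re} ⊆ {w : ℂ | -1 < w.re} := by
    rw [Complex.closure_setOfPred_lt_re]
    intro w hw
    have hw' : 0 ≤ w.re := hw
    show -1 < w.re
    linarith
  have hgd : DiffContOnCl ℂ g {w : ℂ | 0 < w.re} :=
    DifferentiableOn.diffContOnCl (hdg.mono hclos)
  have hgM : ∀ w : ℂ, 0 ≤ w.re → ‖g w‖ ≤ C * 2 ^ K := by
    intro w hw
    have hw1 : 1 ≤ (w + 1).re := by
      simp
      linarith
    have h1 := hb (w + 1) hw1
    have h2 : (1 + ‖w + 1‖) ≤ 2 * ‖w + 2‖ := by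
      have h3 : 1 + (w + 1).re ≤ ‖w + 2‖ := by
        have := Complex.re_le_norm (w + 2)
        have e : (w + 2).re = 1 + (w + 1).re := by
          simp
          ring
        linarith
      have h4 : ‖w + 1‖ ≤ ‖w + 2‖ := by
        apply le_of_sq_le_sq _ (norm_nonneg _)
        rw [Complex.sq_norm, Complex.sq_norm, Complex.normSq_apply, Complex.normSq_apply]
        simp
        nlinarith
      linarith
    have h5 : 0 < ‖w + 2‖ := norm_pos_iff.2 (hne2 w (by linarith))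
    have h6 : (1 + ‖w + 1‖) ^ K ≤ 2 ^ K * ‖w + 2‖ ^ K := by
      rw [← mul_pow]
      exact pow_le_pow_left₀ (by positivity) h2 K
    have hC : 0 ≤ C := by
      by_contra hc
      push Not at hc
      have h7 : 0 < (1 + ‖w + 1‖) ^ K := by positivity
      have h8 := (norm_nonneg _).trans h1
      nlinarith
    simp only [hg]
    rw [norm_div, norm_pow, div_le_iff₀ (by positivity)]
    calc ‖f (w + 1)‖ ≤ C * (1 + ‖w + 1‖) ^ K := h1
      _ ≤ C * (2 ^ K * ‖w + 2‖ ^ K) := mul_le_mul_of_nonneg_left h6 hC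
      _ = _ := by ring
  have hgz : ∀ᶠ n : ℕ in atTop, g ((z - 1) + n) = 0 := by
    filter_upwards [hz] with n hn
    simp only [hg]
    have e : z - 1 + (n : ℂ) + 1 = z + n := by ring
    rw [e, hn, zero_div]
  have hreal : ∀ x : ℝ, 0 < x → f ((x : ℂ) + 1) = 0 := by
    intro x hx
    have h1 := carl_real hgd hgM (z - 1) hgz x hx
    simp only [hg] at h1
    rcases div_eq_zero_iff.1 h1 with h | h
    · exact h
    · exact absurd h (pow_ne_zero _ (hne2 _ (by simpa using (by linarith : -1 < x))))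
  have han : AnalyticOnNhd ℂ f {w : ℂ | 0 < w.re} := hf.analyticOnNhd hH
  have hconv : Convex ℝ {w : ℂ | 0 < w.re} := convex_halfSpace_re_gt 0
  have h2mem : (2 : ℂ) ∈ {w : ℂ | 0 < w.re} := by
    show 0 < (2 : ℂ).re
    norm_num
  have hfreq : ∃ᶠ w in 𝓝[≠] (2 : ℂ), f w = 0 := by
    have ht : Tendsto (fun n : ℕ => ((1 + 1 / ((n : ℝ) + 1) : ℝ) : ℂ) + 1) atTop (𝓝[≠] 2) := by
      apply tendsto_nhdsWithin_iff.2
      constructor
      · have h1 : Tendsto (fun n : ℕ => (1 + 1 / ((n : ℝ) + 1) : ℝ)) atTop (𝓝 (1 + 0)) :=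
          tendsto_const_nhds.add tendsto_one_div_add_atTop_nhds_zero_nat
        have h2 : Tendsto (fun n : ℕ => ((1 + 1 / ((n : ℝ) + 1) : ℝ) : ℂ) + 1) atTop
            (𝓝 (((1 + 0 : ℝ) : ℂ) + 1)) :=
          ((Complex.continuous_ofReal.tendsto _).comp h1).add_const 1
        have e : (((1 + 0 : ℝ) : ℂ) + 1) = 2 := by
          push_cast
          norm_num
        rwa [e] at h2
      · filter_upwards with n h
        have h1 : (((1 + 1 / ((n : ℝ) + 1) : ℝ) : ℂ) + 1) = 2 := h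
        have h2 := congrArg Complex.re h1
        rw [Complex.add_re, Complex.ofReal_re] at h2
        have h3 : 0 < 1 / ((n : ℝ) + 1) := by positivity
        simp only [Complex.one_re, Complex.re_ofNat] at h2
        linarith
    apply ht.frequently
    apply Eventually.frequently
    filter_upwards with n
    exact hreal _ (by positivity)
  have hfin := han.eqOn_zero_of_preconnected_of_frequently_eq_zero hconv.isPreconnected h2mem
    hfreq
  intro w hw
  exact hfin hw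

end Pool.PlanePD
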