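import Pool.Agent.Helper777.PP.Defs

set_option autoImplicit false

namespace Pool.PlanePD

open Complex Filter Topology

theorem Sp_bdd_sum : Summable (fun q : ℕ × ℕ =>
    (((q.1 : ℝ) + 1) ^ (3 / 2 : ℝ))⁻¹ * (((q.2 : ℝ) + 1) ^ (3 / 2 : ℝ))⁻¹) := by
  have h : Summable (fun n : ℕ => (((n : ℝ) + 1) ^ (3 / 2 : ℝ))⁻¹) := by
    have h1 : Summable (fun n : ℕ => ((n : ℝ) ^ (3 / 2 : ℝ))⁻¹) :=
      Real.summable_nat_rpow_inv.2 (by norm_num)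
    have h2 := (summable_nat_add_iff 1).2 h1
    refine h2.congr (fun n => ?_)
    push_cast; rfl
  exact Summable.mul_of_nonneg h h (fun n => by positivity) (fun n => by positivity)

theorem Sp_bdd : ∃ C : ℝ, ∀ z : ℂ, 1 / 2 ≤ z.re → ‖Sp z‖ ≤ C := by
  refine ⟨∑' q : ℕ × ℕ, (((q.1 : ℝ) + 1) ^ (3 / 2 : ℝ))⁻¹ * (((q.2 : ℝ) + 1) ^ (3 / 2 : ℝ))⁻¹, ?_⟩
  intro z hz
  refine tsum_of_norm_bounded Sp_bdd_sum.hasSum ?_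
  rintro ⟨p, n⟩
  simp only
  rw [norm_pow, norm_inv, inv_pow, ← mul_inv]
  have hp : (0 : ℝ) < (p : ℝ) + 1 := by positivity
  have hn : (0 : ℝ) < (n : ℝ) + 1 := by positivity
  have h1 : ((p : ℝ) + 1) / 2 + ((n : ℝ) + 1) ≤ ‖((p : ℂ) + 1) * z + ((n : ℂ) + 1)‖ := by
    refine le_trans ?_ (Complex.re_le_norm _)
    have : (((p : ℂ) + 1) * z + ((n : ℂ) + 1)).re = ((p : ℝ) + 1) * z.re + ((n : ℝ) + 1) := by
      simp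
    rw [this]
    nlinarith
  have h2 : (((p : ℝ) + 1) * ((n : ℝ) + 1)) ≤ ‖((p : ℂ) + 1) * z + ((n : ℂ) + 1)‖ ^ 2 := by
    have h3 : (((p : ℝ) + 1) / 2 + ((n : ℝ) + 1)) ^ 2 ≤
        ‖((p : ℂ) + 1) * z + ((n : ℂ) + 1)‖ ^ 2 := by gcongr
    nlinarith [sq_nonneg (((p : ℝ) + 1) / 2 - ((n : ℝ) + 1))]
  have h4 : ((p : ℝ) + 1) ^ (3 / 2 : ℝ) * ((n : ℝ) + 1) ^ (3 / 2 : ℝ) ≤
      ‖((p : ℂ) + 1) * z + ((n : ℂ) + 1)‖ ^ 3 := by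
    rw [← Real.mul_rpow hp.le hn.le]
    calc (((p : ℝ) + 1) * ((n : ℝ) + 1)) ^ (3 / 2 : ℝ)
        ≤ (‖((p : ℂ) + 1) * z + ((n : ℂ) + 1)‖ ^ 2) ^ (3 / 2 : ℝ) :=
          Real.rpow_le_rpow (by positivity) h2 (by norm_num)
      _ = ‖((p : ℂ) + 1) * z + ((n : ℂ) + 1)‖ ^ 3 := by
          rw [← Real.rpow_natCast _ 2, ← Real.rpow_mul (norm_nonneg _),
            ← Real.rpow_natCast _ 3]
          norm_num
  exact inv_anti₀ (by positivity) h4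

end Pool.PlanePD
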