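import Pool.Agent.Helper777.PP.Defs
import Pool.Agent.Helper777.PP.P_Sp_diff
import Pool.Agent.Helper777.PP.P_Sp_bdd

set_option autoImplicit false

namespace Pool.PlanePD

open Complex Filter Topology

theorem h_deriv_bdd (k : ℕ) : ∃ C : ℝ, ∀ w : ℂ, 1 ≤ w.re → ‖hjet w k‖ ≤ C := by
  obtain ⟨C, hC⟩ := Sp_bdd
  have hdiff : DifferentiableOn ℂ h slitPlane := by
    have h1 : DifferentiableOn ℂ (fun z : ℂ => Z3 * (1 + (z⁻¹) ^ 3)) slitPlane := by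
      intro z hz
      have hz0 : z ≠ 0 := slitPlane_ne_zero hz
      exact (((differentiableAt_inv hz0).pow 3).const_add 1 |>.const_mul Z3).differentiableWithinAt
    exact (Sp_diff.1.const_mul 2).add h1
  have hbd : ∀ z : ℂ, 1 / 2 ≤ z.re → ‖h z‖ ≤ 2 * C + ‖Z3‖ * 9 := by
    intro z hz
    have h1 := hC z hz
    have hn : 1 / 2 ≤ ‖z‖ := hz.trans ((le_abs_self _).trans (abs_re_le_norm z))
    have h2 : ‖z⁻¹‖ ≤ 2 := by
      rw [norm_inv]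
      have := inv_anti₀ (by norm_num : (0:ℝ) < 1 / 2) hn
      simpa using this
    have h3 : ‖(z⁻¹) ^ 3‖ ≤ 8 := by
      rw [norm_pow]
      calc ‖z⁻¹‖ ^ 3 ≤ 2 ^ 3 := by gcongr
        _ = 8 := by norm_num
    have h4 : ‖1 + (z⁻¹) ^ 3‖ ≤ 9 := by
      calc ‖1 + (z⁻¹) ^ 3‖ ≤ ‖(1:ℂ)‖ + ‖(z⁻¹) ^ 3‖ := norm_add_le _ _
        _ ≤ 1 + 8 := by rw [norm_one]; linarith
        _ = 9 := by norm_num
    calc ‖h z‖ ≤ ‖2 * Sp z‖ + ‖Z3 * (1 + (z⁻¹) ^ 3)‖ := norm_add_le _ _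
      _ = 2 * ‖Sp z‖ + ‖Z3‖ * ‖1 + (z⁻¹) ^ 3‖ := by rw [norm_mul, norm_mul]; norm_num
      _ ≤ 2 * C + ‖Z3‖ * 9 := by gcongr
  refine ⟨k.factorial * (2 * C + ‖Z3‖ * 9) / (1 / 2) ^ k, fun w hw => ?_⟩
  have hcb : ∀ z ∈ Metric.closedBall w (1 / 2), 1 / 2 ≤ z.re := by
    intro z hz
    rw [Metric.mem_closedBall, dist_eq_norm] at hz
    have h1 : |(z - w).re| ≤ 1 / 2 := (abs_re_le_norm _).trans hz
    rw [sub_re] at h1
    have := (abs_le.mp h1).1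
    linarith
  have hsub : Metric.closedBall w (1 / 2) ⊆ slitPlane := by
    intro z hz
    exact Or.inl (by linarith [hcb z hz])
  exact norm_iteratedDeriv_le_of_forall_mem_sphere_norm_le k (by norm_num)
    (hdiff.diffContOnCl_ball hsub) fun z hz => hbd z (hcb z (Metric.sphere_subset_closedBall hz))

end Pool.PlanePD
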