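import Pool.Agent.Helper777.PP.Defs
import Pool.Agent.Helper777.PP.A0

set_option autoImplicit false

namespace Pool.PlanePD

open Complex Filter Topology

theorem jets_transform_diff {f : ℂ → ℂ} (hf : DifferentiableOn ℂ f {z : ℂ | 0 < z.im}) (k : ℕ)
    {w : ℂ} (hw : 0 < w.im) : DifferentiableAt ℂ (iteratedDeriv k f) w := by
  have hopen : IsOpen {z : ℂ | 0 < z.im} := isOpen_lt continuous_const Complex.continuous_im
  have h1 : AnalyticAt ℂ f w := hf.analyticAt (hopen.mem_nhds hw)
  have h2 := h1.iterated_deriv k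
  rw [iteratedDeriv_eq_iterate]
  exact h2.differentiableAt

/-- transformation of jets under `f ↦ w³ f(w)`, `w = -1/u`. -/
theorem jets_transform (f g : ℂ → ℂ) (hf : DifferentiableOn ℂ f {z : ℂ | 0 < z.im})
    (hg : DifferentiableOn ℂ g {z : ℂ | 0 < z.im})
    (hfg : ∀ w : ℂ, 0 < w.im → g (-w⁻¹) = w ^ 3 * f w) (k : ℕ) (w : ℂ) (hw : 0 < w.im) :
    iteratedDeriv k g (-w⁻¹) =
      ∑ i ∈ Finset.range (k + 1), (ecoef k i).eval w * iteratedDeriv i f w := by
  induction k generalizing w with
  | zero =>
    rw [Finset.sum_range_one, iteratedDeriv_zero, iteratedDeriv_zero, hfg w hw]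
    simp [ecoef]
  | succ k ih =>
    have hw0 : w ≠ 0 := by
      rintro rfl
      simp at hw
    have hopen : IsOpen {z : ℂ | 0 < z.im} := isOpen_lt continuous_const Complex.continuous_im
    have hu : 0 < (-w⁻¹).im := by
      rw [Complex.neg_im, Complex.inv_im, neg_div, neg_neg]
      exact div_pos hw (Complex.normSq_pos.2 hw0)
    have hev : (fun z : ℂ => iteratedDeriv k g (-z⁻¹)) =ᶠ[𝓝 w]
        fun z => ∑ i ∈ Finset.range (k + 1), (ecoef k i).eval z * iteratedDeriv i f z := by
      filter_upwards [hopen.mem_nhds hw] with z hz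
      exact ih z hz
    have hinv : HasDerivAt (fun z : ℂ => -z⁻¹) ((w ^ 2)⁻¹) w := by
      have := (hasDerivAt_inv hw0).neg
      rwa [neg_neg] at this
    have h1 : HasDerivAt (fun z : ℂ => iteratedDeriv k g (-z⁻¹))
        (deriv (iteratedDeriv k g) (-w⁻¹) * (w ^ 2)⁻¹) w :=
      HasDerivAt.comp (h₂ := iteratedDeriv k g) w (jets_transform_diff hg k hu).hasDerivAt hinv
    have h2 : HasDerivAt
        (fun z => ∑ i ∈ Finset.range (k + 1), (ecoef k i).eval z * iteratedDeriv i f z)
        (∑ i ∈ Finset.range (k + 1), ((ecoef k i).derivative.eval w * iteratedDeriv i f w +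
          (ecoef k i).eval w * iteratedDeriv (i + 1) f w)) w := by
      refine HasDerivAt.fun_sum fun i _ => ?_
      have h3 := ((ecoef k i).hasDerivAt w).mul (jets_transform_diff hf i hw).hasDerivAt
      rw [iteratedDeriv_succ]
      exact h3
    have h4 := (h1.congr_of_eventuallyEq hev.symm).unique h2
    have h5 : iteratedDeriv (k + 1) g (-w⁻¹) =
        w ^ 2 * ∑ i ∈ Finset.range (k + 1), ((ecoef k i).derivative.eval w * iteratedDeriv i f w +
          (ecoef k i).eval w * iteratedDeriv (i + 1) f w) := by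
      rw [← h4, iteratedDeriv_succ]
      field_simp
    rw [h5, Finset.sum_add_distrib]
    have h6 : ∑ i ∈ Finset.range (k + 1), (ecoef k i).derivative.eval w * iteratedDeriv i f w =
        ∑ i ∈ Finset.range (k + 1 + 1), (ecoef k i).derivative.eval w * iteratedDeriv i f w := by
      rw [Finset.sum_range_succ _ (k + 1), ecoef_zero k (k + 1) (Nat.lt_succ_self k)]
      simp
    rw [h6, Finset.sum_range_succ' _ (k + 1), Finset.sum_range_succ' _ (k + 1)]
    have h7 : ∀ i, (ecoef (k + 1) (i + 1)).eval w =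
        w ^ 2 * ((ecoef k (i + 1)).derivative.eval w + (ecoef k i).eval w) := by
      intro i
      simp [ecoef]
    have h8 : (ecoef (k + 1) 0).eval w = w ^ 2 * (ecoef k 0).derivative.eval w := by
      simp [ecoef]
    rw [h8, Finset.sum_congr rfl (fun i _ => by rw [h7 i] :
      ∀ i ∈ Finset.range (k + 1), (ecoef (k + 1) (i + 1)).eval w * iteratedDeriv (i + 1) f w =
        w ^ 2 * ((ecoef k (i + 1)).derivative.eval w + (ecoef k i).eval w) *
          iteratedDeriv (i + 1) f w)]
    simp only [mul_add, add_mul, Finset.sum_add_distrib, Finset.mul_sum]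
    simp only [mul_assoc]
    ring

end Pool.PlanePD
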