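import Pool.Agent.Helper777.PP.Defs
import Pool.Agent.Helper777.PP.P_G_diff
import Pool.Agent.Helper777.PP.P_G_period
import Pool.Agent.Helper777.PP.P_Sp_diff
import Pool.Agent.Helper777.PP.P_G_func
import Pool.Agent.Helper777.PP.P_h_deriv_bdd
import Pool.Agent.Helper777.PP.P_carlson
import Pool.Agent.Helper777.PP.P_jets_transform

set_option autoImplicit false

namespace Pool.PlanePD

open Complex Filter Topology

theorem T_closed_h_diff : DifferentiableOn ℂ h slitPlane := by
  have h1 : DifferentiableOn ℂ (fun z : ℂ => 2 * Sp z + Z3 * (1 + (z⁻¹) ^ 3)) slitPlane := by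
    refine (Sp_diff.1.const_mul 2).add (DifferentiableOn.const_mul ?_ Z3)
    refine (differentiableOn_const 1).add (DifferentiableOn.pow ?_ 3)
    exact differentiableOn_inv.mono (fun z hz => slitPlane_ne_zero hz)
  exact h1

theorem T_closed_hjet_diff (k : ℕ) : DifferentiableOn ℂ (fun w => hjet w k) slitPlane := by
  induction k with
  | zero =>
    have : (fun w => hjet w 0) = h := by funext w; simp [hjet]
    rw [this]
    exact T_closed_h_diff
  | succ k ih =>
    have : (fun w => hjet w (k + 1)) = deriv (fun w => hjet w k) := by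
      funext w
      show iteratedDeriv (k + 1) h w = _
      rw [iteratedDeriv_succ]
      rfl
    rw [this]
    exact ih.deriv isOpen_slitPlane

/-- holomorphic on the slit plane and of polynomial growth on `Re w ≥ 1`. -/
def Good (f : ℂ → ℂ) : Prop := DifferentiableOn ℂ f slitPlane ∧
  ∃ C : ℝ, ∃ K : ℕ, 0 ≤ C ∧ ∀ w : ℂ, 1 ≤ w.re → ‖f w‖ ≤ C * (1 + ‖w‖) ^ K

theorem Good_const (a : ℂ) : Good (fun _ => a) :=
  ⟨differentiableOn_const a, ‖a‖, 0, norm_nonneg a, fun w _ => by simp⟩

theorem Good_add {f g : ℂ → ℂ} (hf : Good f) (hg : Good g) : Good (fun w => f w + g w) := by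
  obtain ⟨df, C, K, hC, hfb⟩ := hf
  obtain ⟨dg, D, L, hD, hgb⟩ := hg
  refine ⟨df.add dg, C + D, max K L, add_nonneg hC hD, fun w hw => ?_⟩
  have h1 : (1 : ℝ) ≤ 1 + ‖w‖ := by linarith [norm_nonneg w]
  have h2 : (1 + ‖w‖) ^ K ≤ (1 + ‖w‖) ^ max K L := pow_le_pow_right₀ h1 (le_max_left _ _)
  have h3 : (1 + ‖w‖) ^ L ≤ (1 + ‖w‖) ^ max K L := pow_le_pow_right₀ h1 (le_max_right _ _)
  calc ‖f w + g w‖ ≤ ‖f w‖ + ‖g w‖ := norm_add_le _ _
    _ ≤ C * (1 + ‖w‖) ^ K + D * (1 + ‖w‖) ^ L := add_le_add (hfb w hw) (hgb w hw)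
    _ ≤ C * (1 + ‖w‖) ^ max K L + D * (1 + ‖w‖) ^ max K L := by gcongr
    _ = _ := by ring

theorem Good_mul {f g : ℂ → ℂ} (hf : Good f) (hg : Good g) : Good (fun w => f w * g w) := by
  obtain ⟨df, C, K, hC, hfb⟩ := hf
  obtain ⟨dg, D, L, hD, hgb⟩ := hg
  refine ⟨df.mul dg, C * D, K + L, mul_nonneg hC hD, fun w hw => ?_⟩
  rw [norm_mul]
  calc ‖f w‖ * ‖g w‖ ≤ (C * (1 + ‖w‖) ^ K) * (D * (1 + ‖w‖) ^ L) :=
        mul_le_mul (hfb w hw) (hgb w hw) (norm_nonneg _) (by positivity)
    _ = _ := by ring

theorem Good_id : Good (fun w => w) :=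
  ⟨differentiableOn_id, 1, 1, zero_le_one, fun w _ => by simp⟩

theorem Good_poly (p : Polynomial ℂ) : Good (fun w => p.eval w) := by
  induction p using Polynomial.induction_on' with
  | add p q hp hq =>
    have := Good_add hp hq
    simpa using this
  | monomial n a =>
    induction n with
    | zero => simpa using Good_const a
    | succ n ih =>
      have := Good_mul ih Good_id
      have e : (fun w : ℂ => (Polynomial.monomial (n + 1) a).eval w) =
          fun w => (Polynomial.monomial n a).eval w * w := by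
        funext w
        simp only [Polynomial.eval_monomial]
        ring
      rw [e]
      exact this

theorem Good_hjet (k : ℕ) : Good (fun w => hjet w k) := by
  obtain ⟨C, hC⟩ := h_deriv_bdd k
  refine ⟨T_closed_hjet_diff k, max C 0, 0, le_max_right _ _, fun w hw => ?_⟩
  rw [pow_zero, mul_one]
  exact (hC w hw).trans (le_max_left _ _)

theorem Good_sum {s : Finset ℕ} {f : ℕ → ℂ → ℂ} (hf : ∀ i, Good (f i)) :
    Good (fun w => ∑ i ∈ s, f i w) := by
  classical
  induction s using Finset.induction_on with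
  | empty => simpa using Good_const 0
  | insert a s ha ih =>
    have := Good_add (hf a) ih
    simpa [Finset.sum_insert ha] using this

theorem Good_aff (y : ℕ → ℂ) (k : ℕ) : Good (fun w => aff w (hjet w) y k) := by
  unfold aff
  refine Good_sum (f := fun i w => (ecoef k i).eval w * (y i - hjet w i)) fun i => ?_
  refine Good_mul (Good_poly _) ?_
  have := Good_add (Good_const (y i)) (Good_mul (Good_const (-1)) (Good_hjet i))
  simpa [sub_eq_add_neg] using this

theorem Good_eval (y : ℕ → ℂ) (P : MvPolynomial ℕ ℂ) :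
    Good (fun w => MvPolynomial.eval (aff w (hjet w) y) P) := by
  induction P using MvPolynomial.induction_on with
  | C a => simpa using Good_const a
  | add p q hp hq =>
    have := Good_add hp hq
    simpa using this
  | mul_X p i hp =>
    have := Good_mul hp (Good_aff y i)
    simpa using this

theorem T_closed_upper (w : ℂ) (hw : 0 < w.im) (k : ℕ) :
    jet (-w⁻¹) k = aff w (hjet w) (jet w) k := by
  have hsub : {z : ℂ | 0 < z.im} ⊆ slitPlane := fun z hz => Or.inr (ne_of_gt hz)
  have hopen : IsOpen {z : ℂ | 0 < z.im} := isOpen_lt continuous_const continuous_im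
  have hhd : DifferentiableOn ℂ h {z : ℂ | 0 < z.im} := T_closed_h_diff.mono hsub
  have h1 := jets_transform (G - h) G (G_diff.sub hhd) G_diff (by
    intro w hw
    have hw0 : w ≠ 0 := by
      rintro rfl
      simp at hw
    rw [Pi.sub_apply, G_func w hw]
    field_simp
    ring) k w hw
  show iteratedDeriv k G (-w⁻¹) = _
  rw [h1]
  unfold aff
  refine Finset.sum_congr rfl fun i _ => ?_
  have hG : ContDiffAt ℂ i G w :=
    ((G_diff.analyticAt (hopen.mem_nhds hw)).contDiffAt).of_le le_top
  have hh : ContDiffAt ℂ i h w :=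
    ((hhd.analyticAt (hopen.mem_nhds hw)).contDiffAt).of_le le_top
  rw [iteratedDeriv_sub hG hh]
  rfl

theorem T_closed_per (z : ℂ) (a k : ℕ) : jet (z + a) k = jet z k := by
  have hper : (fun u => G (u + a)) = G := by
    funext u
    induction a with
    | zero => simp
    | succ a ih =>
      push_cast
      rw [← add_assoc, G_period, ih]
  have := congrFun (iteratedDeriv_comp_add_const k G (a : ℂ)) z
  rw [hper] at this
  exact this.symm

/-- relations between jets of `G` are stable under the affine maps. -/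
theorem T_closed (P : MvPolynomial ℕ ℂ)
    (hP : ∀ z : ℂ, 0 < z.im → MvPolynomial.eval (jet z) P = 0) (w : ℂ) (hw : w ∈ slitPlane)
    (z : ℂ) (hz : 0 < z.im) : MvPolynomial.eval (aff w (hjet w) (jet z)) P = 0 := by
  have hgood := Good_eval (jet z) P
  obtain ⟨hd, C, K, hC, hb⟩ := hgood
  obtain ⟨f, hf⟩ : ∃ f : ℂ → ℂ, f = fun w => MvPolynomial.eval (aff w (hjet w) (jet z)) P := ⟨_, rfl⟩
  rw [← hf] at hd
  have hb' : ∀ w : ℂ, 1 ≤ w.re → ‖f w‖ ≤ C * (1 + ‖w‖) ^ K := by rw [hf]; exact hb
  have hzero : ∀ a : ℕ, f (z + a) = 0 := by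
    intro a
    have him : 0 < (z + a).im := by simpa using hz
    have e1 : jet z = jet (z + a) := by
      funext k
      exact (T_closed_per z a k).symm
    rw [hf]
    show MvPolynomial.eval (aff (z + a) (hjet (z + a)) (jet z)) P = 0
    rw [e1]
    have e2 : aff (z + a) (hjet (z + a)) (jet (z + a)) = jet (-(z + a)⁻¹) := by
      funext k
      exact (T_closed_upper (z + a) him k).symm
    rw [e2]
    refine hP _ ?_
    rw [neg_im, inv_im]
    have h0 : z + a ≠ 0 := by
      intro h
      rw [h] at him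
      simp at him
    have h1 : 0 < normSq (z + a) := normSq_pos.2 h0
    rw [neg_div, neg_neg]
    exact div_pos him h1
  have hright : ∀ w : ℂ, 0 < w.re → f w = 0 :=
    carlson f (hd.mono fun w hw => Or.inl hw) C K hb' z (Eventually.of_forall hzero)
  have hpre : IsPreconnected slitPlane :=
    (starConvex_one_slitPlane.isPathConnected (by simp)).isConnected.isPreconnected
  have hnhd : f =ᶠ[𝓝 (1 : ℂ)] 0 := by
    have hopen : IsOpen {w : ℂ | 0 < w.re} := isOpen_lt continuous_const continuous_re
    filter_upwards [hopen.mem_nhds (show (1 : ℂ) ∈ {w : ℂ | 0 < w.re} by simp)] with w hw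
    exact hright w hw
  have := (hd.analyticOnNhd isOpen_slitPlane).eqOn_zero_of_preconnected_of_eventuallyEq_zero hpre
    (show (1 : ℂ) ∈ slitPlane by simp) hnhd hw
  rw [hf] at this
  exact this

end Pool.PlanePD
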