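import Pool.Agent.Helper777.PP.Defs
import Pool.Agent.Helper777.PP.P_Sp_diff

set_option autoImplicit false

namespace Pool.PlanePD

open Complex Filter Topology

/-- auxiliary: the summable majorant -/
noncomputable def auxB (q : ℕ × ℕ) : ℝ :=
  ((q.1 : ℝ) + 1) ^ (-(3 / 2) : ℝ) * |(((q.2 : ℤ) - (q.1 : ℤ) : ℤ) : ℝ)| ^ (-(3 / 2) : ℝ)

theorem auxB_summable : Summable auxB := by
  have h1 : Summable (fun n : ℤ => |(n : ℝ)| ^ (-(3 / 2) : ℝ)) :=
    Real.summable_abs_int_rpow (by norm_num)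
  have h2 : Summable (fun n : ℕ => ((n : ℝ) + 1) ^ (-(3 / 2) : ℝ)) := by
    have h3 : Summable (fun n : ℕ => (n : ℝ) ^ (-(3 / 2) : ℝ)) :=
      Real.summable_nat_rpow.2 (by norm_num)
    have h4 := (summable_nat_add_iff 1).2 h3
    refine h4.congr ?_
    intro n
    push_cast
    rfl
  have h3 : Summable (fun x : ℕ × ℤ => ((x.1 : ℝ) + 1) ^ (-(3 / 2) : ℝ) *
      |(x.2 : ℝ)| ^ (-(3 / 2) : ℝ)) :=
    h2.mul_of_nonneg h1 (fun n => by positivity) (fun n => by positivity)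
  have hinj : Function.Injective (fun q : ℕ × ℕ => ((q.1, (q.2 : ℤ) - (q.1 : ℤ)) : ℕ × ℤ)) := by
    rintro ⟨a, b⟩ ⟨c, d⟩ h
    simp only [Prod.mk.injEq] at h
    obtain ⟨h5, h6⟩ := h
    subst h5
    have : b = d := by omega
    rw [this]
  have h4 := h3.comp_injective hinj
  refine h4.congr ?_
  intro q
  simp only [Function.comp_apply, auxB]

theorem aux_term (w : ℂ) (hw : 0 < w.im) (hx : |w.re + 1| ≤ w.im) (p n : ℕ) (hpn : p ≠ n) :
    ‖((((p : ℂ) + 1) * w + ((n : ℂ) + 1))⁻¹) ^ 3‖ ≤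
      ((1 / 2 : ℝ) ^ (-(3 / 2) : ℝ) * w.im ^ (-(3 / 2) : ℝ)) * auxB (p, n) := by
  set z : ℂ := ((p : ℂ) + 1) * w + ((n : ℂ) + 1) with hz
  have hre : z.re = ((n : ℝ) - p) + ((p : ℝ) + 1) * (w.re + 1) := by
    rw [hz]
    simp
    ring
  have him : z.im = ((p : ℝ) + 1) * w.im := by
    rw [hz]
    simp
  have hP : (0 : ℝ) < (p : ℝ) + 1 := by positivity
  have hB : ((p : ℝ) + 1) * w.im ≤ ‖z‖ := by
    rw [← him]
    exact (le_abs_self _).trans (Complex.abs_im_le_norm z)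
  have hd0 : (0 : ℝ) < |(n : ℝ) - p| := by
    rw [abs_pos, sub_ne_zero]
    exact_mod_cast (Ne.symm hpn)
  have hA : |(n : ℝ) - p| / 2 ≤ ‖z‖ := by
    rcases le_or_gt (((p : ℝ) + 1) * |w.re + 1|) (|(n : ℝ) - p| / 2) with h | h
    · refine le_trans ?_ (Complex.abs_re_le_norm z)
      rw [hre]
      have h1 : |(n : ℝ) - p| - |((p : ℝ) + 1) * (w.re + 1)| ≤
          |((n : ℝ) - p) + ((p : ℝ) + 1) * (w.re + 1)| := by
        have := abs_sub_abs_le_abs_sub ((n : ℝ) - p) (-(((p : ℝ) + 1) * (w.re + 1)))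
        rw [abs_neg, sub_neg_eq_add] at this
        exact this
      rw [abs_mul, abs_of_pos hP] at h1
      linarith
    · refine le_trans ?_ hB
      have : ((p : ℝ) + 1) * |w.re + 1| ≤ ((p : ℝ) + 1) * w.im := by gcongr
      linarith
  have hA0 : 0 < |(n : ℝ) - p| / 2 := by positivity
  have hB0 : 0 < ((p : ℝ) + 1) * w.im := by positivity
  have hz0 : 0 < ‖z‖ := hA0.trans_le hA
  have e1 : ‖(z⁻¹) ^ 3‖ = ‖z‖ ^ (-(3 / 2) : ℝ) * ‖z‖ ^ (-(3 / 2) : ℝ) := by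
    rw [norm_pow, norm_inv, ← Real.rpow_add hz0, ← Real.rpow_neg_one, ← Real.rpow_natCast,
      ← Real.rpow_mul hz0.le]
    norm_num
  have e2 : ‖z‖ ^ (-(3 / 2) : ℝ) ≤ (|(n : ℝ) - p| / 2) ^ (-(3 / 2) : ℝ) :=
    Real.rpow_le_rpow_of_nonpos hA0 hA (by norm_num)
  have e3 : ‖z‖ ^ (-(3 / 2) : ℝ) ≤ (((p : ℝ) + 1) * w.im) ^ (-(3 / 2) : ℝ) :=
    Real.rpow_le_rpow_of_nonpos hB0 hB (by norm_num)
  rw [e1]
  calc ‖z‖ ^ (-(3 / 2) : ℝ) * ‖z‖ ^ (-(3 / 2) : ℝ)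
      ≤ (|(n : ℝ) - p| / 2) ^ (-(3 / 2) : ℝ) * (((p : ℝ) + 1) * w.im) ^ (-(3 / 2) : ℝ) := by
        gcongr
    _ = ((1 / 2 : ℝ) ^ (-(3 / 2) : ℝ) * w.im ^ (-(3 / 2) : ℝ)) * auxB (p, n) := by
        unfold auxB
        rw [div_eq_mul_one_div, Real.mul_rpow (abs_nonneg _) (by norm_num),
          Real.mul_rpow hP.le hw.le]
        push_cast
        ring

/-- the singularity of `Sp` at `-1`. -/
theorem Sp_sing : ∃ C : ℝ, ∀ w : ℂ, 0 < w.im → w.im ≤ 1 → |w.re + 1| ≤ w.im →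
    ‖Sp w - Z3 * ((w + 1)⁻¹) ^ 3‖ ≤ C * (w.im) ^ (-(3 / 2) : ℝ) := by
  classical
  refine ⟨(1 / 2 : ℝ) ^ (-(3 / 2) : ℝ) * ∑' q, auxB q, ?_⟩
  intro w hw _ hx
  set Fq : ℕ × ℕ → ℂ := fun q => ((((q.1 : ℂ) + 1) * w + ((q.2 : ℂ) + 1))⁻¹) ^ 3 with hF
  have hwm : w ∈ slitPlane := by
    rw [Complex.mem_slitPlane_iff]
    right
    exact hw.ne'
  have hsum : Summable (fun q => ‖Fq q‖) := Sp_diff.2 w hwm
  set D : ℕ × ℕ → ℂ := fun q => if q.1 = q.2 then Fq q else 0 with hD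
  set O : ℕ × ℕ → ℂ := fun q => if q.1 = q.2 then 0 else Fq q with hO
  have hDs : Summable D := by
    apply Summable.of_norm_bounded hsum
    intro q
    simp only [hD]
    split_ifs
    · exact le_rfl
    · rw [norm_zero]; exact norm_nonneg _
  have hOs : Summable O := by
    apply Summable.of_norm_bounded hsum
    intro q
    simp only [hO]
    split_ifs
    · rw [norm_zero]; exact norm_nonneg _
    · exact le_rfl
  have hFDO : Sp w = ∑' q, D q + ∑' q, O q := by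
    rw [← hDs.tsum_add hOs]
    unfold Sp
    apply tsum_congr
    intro q
    simp only [hD, hO]
    split_ifs
    · rw [add_zero]
    · rw [zero_add]
  have hDt : ∑' q, D q = Z3 * ((w + 1)⁻¹) ^ 3 := by
    have hinj : Function.Injective (fun p : ℕ => ((p, p) : ℕ × ℕ)) := by
      intro a b h
      exact (Prod.mk.inj h).1
    have hsupp : Function.support D ⊆ Set.range (fun p : ℕ => ((p, p) : ℕ × ℕ)) := by
      rintro ⟨a, b⟩ h
      have hab : a = b := by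
        by_contra hne
        apply h
        simp [hD, hne]
      exact ⟨a, by rw [hab]⟩
    rw [← hinj.tsum_eq hsupp]
    unfold Z3
    rw [← tsum_mul_right]
    apply tsum_congr
    intro p
    simp only [hD, hF, if_true]
    rw [← mul_pow, ← mul_inv]
    congr 2
    ring
  rw [hFDO, hDt, add_sub_cancel_left]
  have hg : HasSum (fun q => ((1 / 2 : ℝ) ^ (-(3 / 2) : ℝ) * w.im ^ (-(3 / 2) : ℝ)) * auxB q)
      (((1 / 2 : ℝ) ^ (-(3 / 2) : ℝ) * w.im ^ (-(3 / 2) : ℝ)) * ∑' q, auxB q) :=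
    auxB_summable.hasSum.mul_left _
  have hle : ‖∑' q, O q‖ ≤ ((1 / 2 : ℝ) ^ (-(3 / 2) : ℝ) * w.im ^ (-(3 / 2) : ℝ)) *
      ∑' q, auxB q := by
    apply tsum_of_norm_bounded hg
    rintro ⟨p, n⟩
    simp only [hO]
    split_ifs with h
    · rw [norm_zero]
      unfold auxB
      positivity
    · exact aux_term w hw hx p n h
  calc ‖∑' q, O q‖ ≤ _ := hle
    _ = _ := by ring

end Pool.PlanePD
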