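import Pool.Agent.Helper777.PP.Defs

set_option autoImplicit false

namespace Pool.PlanePD

open Complex Filter Topology

theorem Z3_ne : Z3 ≠ 0 := by
  have h : Z3 = riemannZeta 3 := by
    rw [zeta_eq_tsum_one_div_nat_add_one_cpow (by norm_num)]
    unfold Z3
    apply tsum_congr
    intro n
    rw [show (3 : ℂ) = ((3 : ℕ) : ℂ) by norm_num, Complex.cpow_natCast, inv_pow, one_div]
  rw [h]
  exact riemannZeta_ne_zero_of_one_lt_re (by norm_num)

end Pool.PlanePD
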