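import Pool.Agent.Helper777.PP.Defs

set_option autoImplicit false

namespace Pool.PlanePD

open Complex Filter Topology

theorem jets_q_sg2_le (n : ℕ) : sg2 n ≤ n ^ 3 := by
  unfold sg2
  have h1 : n.divisors ⊆ Finset.Icc 1 n := by
    intro d hd
    rw [Finset.mem_Icc]
    exact ⟨Nat.pos_of_mem_divisors hd, Nat.divisor_le hd⟩
  calc ∑ d ∈ n.divisors, d ^ 2 ≤ ∑ d ∈ Finset.Icc 1 n, d ^ 2 :=
        Finset.sum_le_sum_of_subset h1
    _ ≤ ∑ d ∈ Finset.Icc 1 n, n ^ 2 := by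
        refine Finset.sum_le_sum fun d hd => ?_
        exact Nat.pow_le_pow_left (Finset.mem_Icc.1 hd).2 2
    _ = n ^ 3 := by
        rw [Finset.sum_const, Nat.card_Icc, smul_eq_mul]
        simp only [Nat.add_sub_cancel]
        ring

theorem jets_q_norm_exp (w : ℂ) : ‖exp (2 * Real.pi * I * w)‖ = Real.exp (-(2 * Real.pi * w.im)) := by
  rw [Complex.norm_exp]
  congr 1
  simp [Complex.mul_re, Complex.mul_im]

theorem jets_q_deriv (k : ℕ) (z : ℂ) (hz : 0 < z.im) :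
    HasDerivAt (fun w : ℂ => ∑' n : ℕ, (n : ℂ) ^ k * (sg2 n : ℂ) * (exp (2 * Real.pi * I * w)) ^ n)
      (∑' n : ℕ, (n : ℂ) ^ k * (sg2 n : ℂ) *
        ((n : ℂ) * (2 * Real.pi * I) * (exp (2 * Real.pi * I * z)) ^ n)) z := by
  set δ : ℝ := z.im / 2 with hδ
  have hδ0 : 0 < δ := by positivity
  set r : ℝ := Real.exp (-(2 * Real.pi * δ)) with hr
  have hr0 : 0 < r := Real.exp_pos _
  have hr1 : r < 1 := by
    rw [hr, Real.exp_lt_one_iff]
    have := Real.pi_pos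
    have : 0 < 2 * Real.pi * δ := by positivity
    linarith
  let t : Set ℂ := {w : ℂ | δ < w.im}
  have ht : IsOpen t := isOpen_lt continuous_const Complex.continuous_im
  have htc : IsPreconnected t := (convex_halfSpace_im_gt δ).isPreconnected
  have hzt : z ∈ t := by
    change δ < z.im
    rw [hδ]; linarith
  have hsum : ∀ j : ℕ, Summable (fun n : ℕ => (n : ℝ) ^ j * r ^ n) := fun j =>
    summable_pow_mul_geometric_of_norm_lt_one j (by rwa [Real.norm_of_nonneg hr0.le])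
  have hq : ∀ w ∈ t, ‖exp (2 * Real.pi * I * w)‖ ≤ r := by
    intro w hw
    rw [jets_q_norm_exp, hr]
    apply Real.exp_le_exp.2
    have hw' : δ < w.im := hw
    have hp := Real.pi_pos
    have : 2 * Real.pi * δ ≤ 2 * Real.pi * w.im :=
      mul_le_mul_of_nonneg_left hw'.le (by positivity)
    linarith
  have hsg : ∀ n : ℕ, ‖(sg2 n : ℂ)‖ ≤ (n : ℝ) ^ 3 := by
    intro n
    rw [Complex.norm_natCast]
    exact_mod_cast jets_q_sg2_le n
  have hbase : ∀ (n : ℕ) (w : ℂ), w ∈ t → ‖(n : ℂ) ^ k * (sg2 n : ℂ)‖ *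
      ‖(exp (2 * Real.pi * I * w)) ^ n‖ ≤ (n : ℝ) ^ (k + 3) * r ^ n := by
    intro n w hw
    rw [norm_mul, norm_pow, norm_pow, Complex.norm_natCast, pow_add]
    exact mul_le_mul (mul_le_mul_of_nonneg_left (hsg n) (by positivity))
      (pow_le_pow_left₀ (norm_nonneg _) (hq w hw) n) (by positivity) (by positivity)
  refine hasDerivAt_tsum_of_isPreconnected
    (u := fun n : ℕ => 2 * Real.pi * ((n : ℝ) ^ (k + 4) * r ^ n))
    (g := fun (n : ℕ) (w : ℂ) => (n : ℂ) ^ k * (sg2 n : ℂ) * (exp (2 * Real.pi * I * w)) ^ n)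
    (g' := fun (n : ℕ) (w : ℂ) => (n : ℂ) ^ k * (sg2 n : ℂ) *
        ((n : ℂ) * (2 * Real.pi * I) * (exp (2 * Real.pi * I * w)) ^ n))
    ((hsum (k + 4)).mul_left _) ht htc ?_ ?_ hzt ?_ hzt
  · intro n w _
    have h1 : HasDerivAt (fun w : ℂ => 2 * Real.pi * I * w) (2 * Real.pi * I) w := by
      simpa using (hasDerivAt_id w).const_mul (2 * Real.pi * I)
    have h2 := (h1.cexp.pow n).const_mul ((n : ℂ) ^ k * (sg2 n : ℂ))
    refine h2.congr_deriv ?_
    rcases Nat.eq_zero_or_pos n with rfl | hn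
    · simp
    · obtain ⟨m, rfl⟩ : ∃ m, n = m + 1 := ⟨n - 1, by omega⟩
      simp only [Nat.add_sub_cancel]
      ring
  · intro n w hw
    have h3 := hbase n w hw
    have h4 : ‖(n : ℂ) ^ k * (sg2 n : ℂ) *
        ((n : ℂ) * (2 * Real.pi * I) * (exp (2 * Real.pi * I * w)) ^ n)‖
        = 2 * Real.pi * ((n : ℝ) * (‖(n : ℂ) ^ k * (sg2 n : ℂ)‖ *
          ‖(exp (2 * Real.pi * I * w)) ^ n‖)) := by
      rw [norm_mul, norm_mul ((n : ℂ) * (2 * Real.pi * I)), norm_mul (n : ℂ), Complex.norm_natCast]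
      have : ‖(2 * Real.pi * I : ℂ)‖ = 2 * Real.pi := by
        rw [norm_mul, norm_mul, Complex.norm_I, mul_one, Complex.norm_real,
          Real.norm_of_nonneg Real.pi_pos.le]
        simp
      rw [this]
      ring
    rw [h4]
    refine mul_le_mul_of_nonneg_left ?_ (by have := Real.pi_pos; positivity)
    calc (n : ℝ) * (‖(n : ℂ) ^ k * (sg2 n : ℂ)‖ * ‖(exp (2 * Real.pi * I * w)) ^ n‖)
        ≤ (n : ℝ) * ((n : ℝ) ^ (k + 3) * r ^ n) := mul_le_mul_of_nonneg_left h3 (by positivity)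
      _ = (n : ℝ) ^ (k + 4) * r ^ n := by ring
  · refine Summable.of_norm_bounded (hsum (k + 3)) fun n => ?_
    rw [norm_mul]
    exact hbase n z hzt

/-- the jets of a `q`-series. -/
theorem jets_q (c : ℂ) (hc : ∀ z : ℂ, 0 < z.im →
    G z = c * ∑' n : ℕ, (sg2 n : ℂ) * (exp (2 * Real.pi * I * z)) ^ n) (k : ℕ) (z : ℂ)
    (hz : 0 < z.im) :
    jet z k = c * (2 * Real.pi * I) ^ k *
      ∑' n : ℕ, (n : ℂ) ^ k * (sg2 n : ℂ) * (exp (2 * Real.pi * I * z)) ^ n := by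
  unfold jet
  induction k generalizing z with
  | zero =>
    rw [iteratedDeriv_zero, hc z hz]
    simp
  | succ k ih =>
    rw [iteratedDeriv_succ]
    have hev : iteratedDeriv k G =ᶠ[𝓝 z] fun w => c * (2 * Real.pi * I) ^ k *
      ∑' n : ℕ, (n : ℂ) ^ k * (sg2 n : ℂ) * (exp (2 * Real.pi * I * w)) ^ n := by
      have : {w : ℂ | 0 < w.im} ∈ 𝓝 z :=
        (isOpen_lt continuous_const Complex.continuous_im).mem_nhds hz
      filter_upwards [this] with w hw
      exact ih w hw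
    have h1 : (∑' n : ℕ, (n : ℂ) ^ k * (sg2 n : ℂ) *
        ((n : ℂ) * (2 * Real.pi * I) * (exp (2 * Real.pi * I * z)) ^ n))
        = (2 * Real.pi * I) *
          ∑' n : ℕ, (n : ℂ) ^ (k + 1) * (sg2 n : ℂ) * (exp (2 * Real.pi * I * z)) ^ n := by
      rw [← tsum_mul_left]
      refine tsum_congr fun n => ?_
      ring
    rw [hev.deriv_eq, ((jets_q_deriv k z hz).const_mul _).deriv, h1]
    ring

end Pool.PlanePD
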