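import Pool.Agent.Helper777.PP.Defs

set_option autoImplicit false

namespace Pool.PlanePD

open Complex Filter Topology

/-- extension by zero -/
def bb_stable_ext (n : ℕ) (f : Fin n → Fin n → ℕ) (i j : ℕ) : ℕ :=
  if h : i < n ∧ j < n then f ⟨i, h.1⟩ ⟨j, h.2⟩ else 0

theorem bb_stable_ext_apply (n : ℕ) (f : Fin n → Fin n → ℕ) (i j : Fin n) :
    bb_stable_ext n f i j = f i j := by
  unfold bb_stable_ext
  rw [dif_pos ⟨i.2, j.2⟩]

theorem bb_stable_ext_inj (n : ℕ) : Function.Injective (bb_stable_ext n) := by
  intro f f' h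
  funext i j
  rw [← bb_stable_ext_apply n f i j, h, bb_stable_ext_apply]

theorem bb_stable_sum (n : ℕ) (g : ℕ → ℕ → ℕ) :
    ∑ i : Fin n, ∑ j : Fin n, g i j = ∑ i ∈ Finset.range n, ∑ j ∈ Finset.range n, g i j := by
  rw [← Fin.sum_univ_eq_sum_range (fun i => ∑ j ∈ Finset.range n, g i j)]
  apply Finset.sum_congr rfl
  intro i _
  exact Fin.sum_univ_eq_sum_range (fun j => g i j) n

theorem bb_stable_sum' {n m : ℕ} (hmn : m ≤ n) (g : ℕ → ℕ → ℕ)
    (hg : ∀ i j, m ≤ i ∨ m ≤ j → g i j = 0) :
    ∑ i ∈ Finset.range n, ∑ j ∈ Finset.range n, g i j =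
      ∑ i ∈ Finset.range m, ∑ j ∈ Finset.range m, g i j := by
  have hsub : Finset.range m ⊆ Finset.range n := Finset.range_subset_range.2 hmn
  rw [← Finset.sum_subset hsub]
  · apply Finset.sum_congr rfl
    intro i _
    rw [← Finset.sum_subset hsub]
    intro j _ hj
    rw [Finset.mem_range, not_lt] at hj
    exact hg i j (Or.inr hj)
  · intro i _ hi
    rw [Finset.mem_range, not_lt] at hi
    apply Finset.sum_eq_zero
    intro j _
    exact hg i j (Or.inl hi)

/-- plane partitions of `m` as functions on all pairs of natural numbers -/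
def bb_stable_B (m : ℕ) : Set (ℕ → ℕ → ℕ) :=
  {g | (∀ i j k, i ≤ k → g k j ≤ g i j) ∧ (∀ i j k, j ≤ k → g i k ≤ g i j) ∧
    (∀ i j, m ≤ i ∨ m ≤ j → g i j = 0) ∧
    ∑ i ∈ Finset.range m, ∑ j ∈ Finset.range m, g i j = m}

theorem bb_stable_image {n m : ℕ} (hmn : m ≤ n) :
    bb_stable_ext n '' {f : Fin n → Fin n → ℕ |
                  (∀ i j k : Fin n, i ≤ k → f k j ≤ f i j) ∧
                  (∀ i j k : Fin n, j ≤ k → f i k ≤ f i j) ∧
                  (∑ i, ∑ j, f i j) = m} = bb_stable_B m := by
  ext g
  constructor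
  · rintro ⟨f, ⟨h1, h2, h3⟩, rfl⟩
    have a1 : ∀ i j k, i ≤ k → bb_stable_ext n f k j ≤ bb_stable_ext n f i j := by
      intro i j k hik
      by_cases h : k < n ∧ j < n
      · have h' : i < n ∧ j < n := ⟨lt_of_le_of_lt hik h.1, h.2⟩
        unfold bb_stable_ext
        rw [dif_pos h, dif_pos h']
        exact h1 _ _ _ (by rw [Fin.mk_le_mk]; exact hik)
      · unfold bb_stable_ext
        rw [dif_neg h]
        exact Nat.zero_le _
    have a2 : ∀ i j k, j ≤ k → bb_stable_ext n f i k ≤ bb_stable_ext n f i j := by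
      intro i j k hjk
      by_cases h : i < n ∧ k < n
      · have h' : i < n ∧ j < n := ⟨h.1, lt_of_le_of_lt hjk h.2⟩
        unfold bb_stable_ext
        rw [dif_pos h, dif_pos h']
        exact h2 _ _ _ (by rw [Fin.mk_le_mk]; exact hjk)
      · unfold bb_stable_ext
        rw [dif_neg h]
        exact Nat.zero_le _
    have a3 : ∑ i ∈ Finset.range n, ∑ j ∈ Finset.range n, bb_stable_ext n f i j = m := by
      rw [← bb_stable_sum, ← h3]
      apply Finset.sum_congr rfl
      intro i _
      apply Finset.sum_congr rfl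
      intro j _
      exact bb_stable_ext_apply n f i j
    have a4 : ∀ i j, m ≤ i ∨ m ≤ j → bb_stable_ext n f i j = 0 := by
      intro i j hij
      by_contra hne
      have hpos : 1 ≤ bb_stable_ext n f i j := Nat.one_le_iff_ne_zero.2 hne
      have hin : i < n ∧ j < n := by
        by_contra hc
        exact hne (dif_neg hc)
      rcases hij with hi | hj
      · have s1 : ∑ i' ∈ Finset.range (i + 1), 1 ≤
            ∑ i' ∈ Finset.range (i + 1), bb_stable_ext n f i' j := by
          apply Finset.sum_le_sum
          intro i' hi'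
          rw [Finset.mem_range] at hi'
          exact hpos.trans (a1 i' j i (by omega))
        have s2 : ∑ i' ∈ Finset.range (i + 1), bb_stable_ext n f i' j ≤
            ∑ i' ∈ Finset.range n, bb_stable_ext n f i' j :=
          Finset.sum_le_sum_of_subset (Finset.range_subset_range.2 (by omega))
        have s3 : ∑ i' ∈ Finset.range n, bb_stable_ext n f i' j ≤
            ∑ i' ∈ Finset.range n, ∑ j' ∈ Finset.range n, bb_stable_ext n f i' j' := by
          apply Finset.sum_le_sum
          intro i' _
          exact Finset.single_le_sum (f := fun j' => bb_stable_ext n f i' j')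
            (fun _ _ => Nat.zero_le _) (Finset.mem_range.2 hin.2)
        rw [a3] at s3
        have s4 := s1.trans (s2.trans s3)
        rw [Finset.sum_const, Finset.card_range, smul_eq_mul, mul_one] at s4
        omega
      · have s1 : ∑ j' ∈ Finset.range (j + 1), 1 ≤
            ∑ j' ∈ Finset.range (j + 1), bb_stable_ext n f i j' := by
          apply Finset.sum_le_sum
          intro j' hj'
          rw [Finset.mem_range] at hj'
          exact hpos.trans (a2 i j' j (by omega))
        have s2 : ∑ j' ∈ Finset.range (j + 1), bb_stable_ext n f i j' ≤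
            ∑ j' ∈ Finset.range n, bb_stable_ext n f i j' :=
          Finset.sum_le_sum_of_subset (Finset.range_subset_range.2 (by omega))
        have s3 : ∑ j' ∈ Finset.range n, bb_stable_ext n f i j' ≤
            ∑ i' ∈ Finset.range n, ∑ j' ∈ Finset.range n, bb_stable_ext n f i' j' :=
          Finset.single_le_sum (f := fun i' => ∑ j' ∈ Finset.range n, bb_stable_ext n f i' j')
            (fun _ _ => Nat.zero_le _) (Finset.mem_range.2 hin.1)
        rw [a3] at s3
        have s4 := s1.trans (s2.trans s3)
        rw [Finset.sum_const, Finset.card_range, smul_eq_mul, mul_one] at s4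
        omega
    exact ⟨a1, a2, a4, by rw [← bb_stable_sum' hmn _ a4]; exact a3⟩
  · rintro ⟨h1, h2, h3, h4⟩
    refine ⟨fun i j => g i j, ⟨?_, ?_, ?_⟩, ?_⟩
    · intro i j k hik
      exact h1 _ _ _ hik
    · intro i j k hjk
      exact h2 _ _ _ hjk
    · rw [bb_stable_sum, bb_stable_sum' hmn g h3, h4]
    · funext i j
      unfold bb_stable_ext
      by_cases h : i < n ∧ j < n
      · rw [dif_pos h]
      · rw [dif_neg h]
        symm
        apply h3
        by_contra hc
        apply h
        omega

theorem bb_stable_eq {n m : ℕ} (hmn : m ≤ n) : bb n m = (bb_stable_B m).ncard := by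
  unfold bb
  rw [← bb_stable_image hmn, Set.ncard_image_of_injective _ (bb_stable_ext_inj n)]

theorem bb_stable (n m : ℕ) (hmn : m ≤ n) : bb n m = bb m m := by
  rw [bb_stable_eq hmn, bb_stable_eq le_rfl]

end Pool.PlanePD
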