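import Pool.Agent.Helper777.PP.Defs

set_option autoImplicit false

namespace Pool.PlanePD

open Complex Filter Topology

theorem local_id_bound (ν : ℕ →₀ ℕ) : ∃ N, ∀ i, N ≤ i → ν i = 0 := by
  obtain ⟨N, hN⟩ := Finset.exists_nat_subset_range ν.support
  refine ⟨N, fun i hi => ?_⟩
  by_contra h
  have := hN (Finsupp.mem_support_iff.2 h)
  rw [Finset.mem_range] at this
  omega

theorem local_id_sz (ν : ℕ →₀ ℕ) (N : ℕ) (h : ∀ i, N ≤ i → ν i = 0) :
    sz ν = ∑ i ∈ Finset.range N, ν i := by
  unfold sz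
  apply Finsupp.sum_of_support_subset
  · intro i hi
    rw [Finset.mem_range]
    by_contra hc
    exact (Finsupp.mem_support_iff.1 hi) (h i (not_lt.1 hc))
  · intro i _
    rfl

/-- finitely supported function from a function vanishing from some place on -/
noncomputable def local_id_mk (f : ℕ → ℕ) (h : ∃ N, ∀ i, N ≤ i → f i = 0) : ℕ →₀ ℕ :=
  Finsupp.ofSupportFinite f (by
    obtain ⟨N, hN⟩ := h
    apply (Finset.range N).finite_toSet.subset
    intro i hi
    rw [Finset.mem_coe, Finset.mem_range]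
    by_contra hc
    exact hi (hN i (not_lt.1 hc)))

theorem local_id_mk_apply (f : ℕ → ℕ) (h : ∃ N, ∀ i, N ≤ i → f i = 0) (i : ℕ) :
    local_id_mk f h i = f i := rfl

def local_id_kf (l m n : ℕ →₀ ℕ) : ℕ → ℕ :=
  fun i => min (l i) (m i) + max (l (i + 1)) (m (i + 1)) - n (i + 1)

def local_id_nf (l m k : ℕ →₀ ℕ) (a : ℕ) : ℕ → ℕ
  | 0 => max (l 0) (m 0) + a
  | (i + 1) => min (l i) (m i) + max (l (i + 1)) (m (i + 1)) - k i

theorem local_id_kf_bd (l m n : ℕ →₀ ℕ) : ∃ N, ∀ i, N ≤ i → local_id_kf l m n i = 0 := by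
  obtain ⟨N1, h1⟩ := local_id_bound l
  obtain ⟨N2, h2⟩ := local_id_bound m
  refine ⟨max N1 N2, fun i hi => ?_⟩
  unfold local_id_kf
  rw [h1 i (by omega), h1 (i + 1) (by omega), h2 i (by omega), h2 (i + 1) (by omega)]
  simp

theorem local_id_nf_bd (l m k : ℕ →₀ ℕ) (a : ℕ) : ∃ N, ∀ i, N ≤ i → local_id_nf l m k a i = 0 := by
  obtain ⟨N1, h1⟩ := local_id_bound l
  obtain ⟨N2, h2⟩ := local_id_bound m
  refine ⟨max N1 N2 + 1, fun i hi => ?_⟩
  cases i with
  | zero => omega
  | succ i =>
    show min (l i) (m i) + max (l (i + 1)) (m (i + 1)) - k i = 0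
    rw [h1 i (by omega), h1 (i + 1) (by omega), h2 i (by omega), h2 (i + 1) (by omega)]
    simp

noncomputable def local_id_K (l m n : ℕ →₀ ℕ) : ℕ →₀ ℕ :=
  local_id_mk (local_id_kf l m n) (local_id_kf_bd l m n)

noncomputable def local_id_N (l m k : ℕ →₀ ℕ) (a : ℕ) : ℕ →₀ ℕ :=
  local_id_mk (local_id_nf l m k a) (local_id_nf_bd l m k a)

theorem local_id_K_apply (l m n : ℕ →₀ ℕ) (i : ℕ) :
    local_id_K l m n i = min (l i) (m i) + max (l (i + 1)) (m (i + 1)) - n (i + 1) := rfl

theorem local_id_N_zero (l m k : ℕ →₀ ℕ) (a : ℕ) :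
    local_id_N l m k a 0 = max (l 0) (m 0) + a := rfl

theorem local_id_N_succ (l m k : ℕ →₀ ℕ) (a i : ℕ) :
    local_id_N l m k a (i + 1) = min (l i) (m i) + max (l (i + 1)) (m (i + 1)) - k i := rfl

noncomputable def local_id_equiv (l m : ℕ →₀ ℕ) :
    {k : ℕ →₀ ℕ // IL l k ∧ IL m k} × ℕ ≃ {n : ℕ →₀ ℕ // IL n l ∧ IL n m} where
  toFun p := ⟨local_id_N l m p.1.1 p.2, by
    obtain ⟨⟨k, h1, h2⟩, a⟩ := p
    constructor
    · intro i
      refine ⟨?_, ?_⟩
      · cases i with
        | zero =>
          show l 0 ≤ local_id_N l m k a 0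
          rw [local_id_N_zero]
          omega
        | succ i =>
          show l (i + 1) ≤ local_id_N l m k a (i + 1)
          rw [local_id_N_succ]
          have a1 := h1 i
          have a2 := h2 i
          omega
      · show local_id_N l m k a (i + 1) ≤ l i
        rw [local_id_N_succ]
        have a1 := h1 i
        have a2 := h2 i
        omega
    · intro i
      refine ⟨?_, ?_⟩
      · cases i with
        | zero =>
          show m 0 ≤ local_id_N l m k a 0
          rw [local_id_N_zero]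
          omega
        | succ i =>
          show m (i + 1) ≤ local_id_N l m k a (i + 1)
          rw [local_id_N_succ]
          have a1 := h1 i
          have a2 := h2 i
          omega
      · show local_id_N l m k a (i + 1) ≤ m i
        rw [local_id_N_succ]
        have a1 := h1 i
        have a2 := h2 i
        omega⟩
  invFun n := (⟨local_id_K l m n.1, by
    obtain ⟨n, h1, h2⟩ := n
    constructor
    · intro i
      show local_id_K l m n i ≤ l i ∧ l (i + 1) ≤ local_id_K l m n i
      rw [local_id_K_apply]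
      have a1 := h1 i
      have a2 := h2 i
      have a3 := h1 (i + 1)
      have a4 := h2 (i + 1)
      omega
    · intro i
      show local_id_K l m n i ≤ m i ∧ m (i + 1) ≤ local_id_K l m n i
      rw [local_id_K_apply]
      have a1 := h1 i
      have a2 := h2 i
      have a3 := h1 (i + 1)
      have a4 := h2 (i + 1)
      omega⟩, n.1 0 - max (l 0) (m 0))
  left_inv := by
    rintro ⟨⟨k, h1, h2⟩, a⟩
    refine Prod.ext (Subtype.ext (Finsupp.ext fun i => ?_)) ?_
    · show local_id_K l m (local_id_N l m k a) i = k i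
      rw [local_id_K_apply, local_id_N_succ]
      have a1 := h1 i
      have a2 := h2 i
      omega
    · show local_id_N l m k a 0 - max (l 0) (m 0) = a
      rw [local_id_N_zero]
      omega
  right_inv := by
    rintro ⟨n, h1, h2⟩
    refine Subtype.ext (Finsupp.ext fun i => ?_)
    cases i with
    | zero =>
      show local_id_N l m (local_id_K l m n) (n 0 - max (l 0) (m 0)) 0 = n 0
      rw [local_id_N_zero]
      have a1 := h1 0
      have a2 := h2 0
      omega
    | succ i =>
      show local_id_N l m (local_id_K l m n) (n 0 - max (l 0) (m 0)) (i + 1) = n (i + 1)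
      rw [local_id_N_succ, local_id_K_apply]
      have a1 := h1 i
      have a2 := h2 i
      have a3 := h1 (i + 1)
      have a4 := h2 (i + 1)
      omega

theorem local_id_size (l m k : ℕ →₀ ℕ) (a : ℕ) (h1 : IL l k) (h2 : IL m k) :
    sz (local_id_N l m k a) + sz k = sz l + sz m + a := by
  obtain ⟨N1, b1⟩ := local_id_bound l
  obtain ⟨N2, b2⟩ := local_id_bound m
  obtain ⟨N3, b3⟩ := local_id_bound k
  obtain ⟨N4, b4⟩ := local_id_bound (local_id_N l m k a)
  set N := max (max N1 N2) (max N3 N4) with hN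
  rw [local_id_sz (local_id_N l m k a) (N + 1) (fun i hi => b4 i (by omega)),
    local_id_sz k N (fun i hi => b3 i (by omega)),
    local_id_sz l (N + 1) (fun i hi => b1 i (by omega)),
    local_id_sz m (N + 1) (fun i hi => b2 i (by omega))]
  rw [Finset.sum_range_succ']
  rw [local_id_N_zero]
  have e1 : ∑ i ∈ Finset.range N, local_id_N l m k a (i + 1) + ∑ i ∈ Finset.range N, k i =
      ∑ i ∈ Finset.range N, min (l i) (m i) + ∑ i ∈ Finset.range N, max (l (i + 1)) (m (i + 1)) := by
    rw [← Finset.sum_add_distrib, ← Finset.sum_add_distrib]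
    apply Finset.sum_congr rfl
    intro i _
    rw [local_id_N_succ]
    have a1 := h1 i
    have a2 := h2 i
    omega
  have e2 : ∑ i ∈ Finset.range (N + 1), l i + ∑ i ∈ Finset.range (N + 1), m i =
      ∑ i ∈ Finset.range (N + 1), min (l i) (m i) + ∑ i ∈ Finset.range (N + 1), max (l i) (m i) := by
    rw [← Finset.sum_add_distrib, ← Finset.sum_add_distrib]
    apply Finset.sum_congr rfl
    intro i _
    omega
  have e3 : ∑ i ∈ Finset.range (N + 1), min (l i) (m i) = ∑ i ∈ Finset.range N, min (l i) (m i) := by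
    rw [Finset.sum_range_succ, b1 N (by omega)]
    simp
  have e4 : ∑ i ∈ Finset.range (N + 1), max (l i) (m i) =
      ∑ i ∈ Finset.range N, max (l (i + 1)) (m (i + 1)) + max (l 0) (m 0) := by
    rw [Finset.sum_range_succ']
  omega

theorem local_id_sz_le {l k : ℕ →₀ ℕ} (h : ∀ i, k i ≤ l i) : sz k ≤ sz l := by
  obtain ⟨N1, b1⟩ := local_id_bound l
  rw [local_id_sz l N1 b1, local_id_sz k N1 (fun i hi => by
    have := h i
    rw [b1 i hi] at this
    omega)]
  exact Finset.sum_le_sum fun i _ => h i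

open Classical in
/-- the local identity (one step of the Cauchy identity). -/
theorem local_id (x y : ENNReal) (l m : ℕ →₀ ℕ) :
    (∑' n : ℕ →₀ ℕ, if IL n l ∧ IL n m then x ^ (sz n - sz m) * y ^ (sz n - sz l) else 0) =
      (1 - x * y)⁻¹ *
        ∑' k : ℕ →₀ ℕ, if IL l k ∧ IL m k then x ^ (sz l - sz k) * y ^ (sz m - sz k) else 0 := by
  have hsub : ∀ (p : (ℕ →₀ ℕ) → Prop) [DecidablePred p] (f : (ℕ →₀ ℕ) → ENNReal),
      (∑' n, if p n then f n else 0) = ∑' n : {n // p n}, f n.1 := by
    intro p _ f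
    have h1 := tsum_subtype {n | p n} f
    have h2 : (∑' n : {n // p n}, f n.1) = ∑' n : ({n | p n} : Set (ℕ →₀ ℕ)), f n := rfl
    rw [h2, h1]
    apply tsum_congr
    intro n
    by_cases hp : p n
    · rw [if_pos hp, Set.indicator_of_mem (show n ∈ {n | p n} from hp)]
    · rw [if_neg hp, Set.indicator_of_notMem (show n ∉ {n | p n} from hp)]
  rw [hsub (fun n => IL n l ∧ IL n m) (fun n => x ^ (sz n - sz m) * y ^ (sz n - sz l)),
    hsub (fun k => IL l k ∧ IL m k) (fun k => x ^ (sz l - sz k) * y ^ (sz m - sz k)), ← (local_id_equiv l m).tsum_eq]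
  rw [ENNReal.summable.tsum_prod' (fun _ => ENNReal.summable)]
  rw [← ENNReal.tsum_mul_left]
  apply tsum_congr
  rintro ⟨k, h1, h2⟩
  rw [← ENNReal.tsum_geometric, mul_comm, ← ENNReal.tsum_mul_left]
  apply tsum_congr
  intro a
  show x ^ (sz (local_id_N l m k a) - sz m) * y ^ (sz (local_id_N l m k a) - sz l) =
    x ^ (sz l - sz k) * y ^ (sz m - sz k) * (x * y) ^ a
  have e := local_id_size l m k a h1 h2
  have l1 := local_id_sz_le (fun i => (h1 i).1)
  have l2 := local_id_sz_le (fun i => (h2 i).1)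
  have e1 : sz (local_id_N l m k a) - sz m = (sz l - sz k) + a := by omega
  have e2 : sz (local_id_N l m k a) - sz l = (sz m - sz k) + a := by omega
  rw [e1, e2, pow_add, pow_add, mul_pow]
  ring

end Pool.PlanePD
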