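import Pool.Agent.Helper777.PP.Defs
import Pool.Agent.Helper777.PP.P_local_id

set_option autoImplicit false

namespace Pool.PlanePD

open Complex Filter Topology

open Classical in
theorem cauchy1 (r : ℕ) (x : ℕ → ENNReal) (y : ENNReal) (l : ℕ →₀ ℕ) :
    (∑' n : ℕ →₀ ℕ, if IL n l then y ^ (sz n - sz l) * S r x n else 0) =
      (∏ i ∈ Finset.range r, (1 - x i * y)⁻¹) * S r x l := by
  induction r generalizing x l with
  | zero =>
    rw [tsum_eq_single (0 : ℕ →₀ ℕ)]
    · simp only [Finset.range_zero, Finset.prod_empty, one_mul, S]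
      by_cases hl : l = 0
      · subst hl
        have h1 : IL (0 : ℕ →₀ ℕ) 0 := fun k => ⟨le_rfl, le_rfl⟩
        simp [h1]
      · have h1 : ¬ IL (0 : ℕ →₀ ℕ) l := by
          intro h
          apply hl
          ext k
          have := (h k).1
          simpa using this
        simp [h1, hl]
    · intro n hn
      simp [S, hn]
  | succ r ih =>
    have e1 : ∀ n : ℕ →₀ ℕ, (if IL n l then y ^ (sz n - sz l) * S (r + 1) x n else 0) =
        ∑' m : ℕ →₀ ℕ, (if IL n l ∧ IL n m then x 0 ^ (sz n - sz m) * y ^ (sz n - sz l) else 0) *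
          S r (fun i => x (i + 1)) m := by
      intro n
      by_cases h : IL n l
      · simp only [h, if_true, true_and, S]
        rw [← ENNReal.tsum_mul_left]
        congr 1
        funext m
        by_cases h2 : IL n m
        · simp only [h2, if_true]; ring
        · simp [h2]
      · simp [h]
    simp only [e1]
    rw [ENNReal.tsum_comm]
    simp only [ENNReal.tsum_mul_right]
    simp only [local_id]
    simp only [mul_assoc]
    rw [ENNReal.tsum_mul_left]
    have e2 : ∀ m : ℕ →₀ ℕ,
        (∑' k : ℕ →₀ ℕ, if IL l k ∧ IL m k then x 0 ^ (sz l - sz k) * y ^ (sz m - sz k) else 0) *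
          S r (fun i => x (i + 1)) m =
        ∑' k : ℕ →₀ ℕ, (if IL l k then x 0 ^ (sz l - sz k) else 0) *
          (if IL m k then y ^ (sz m - sz k) * S r (fun i => x (i + 1)) m else 0) := by
      intro m
      rw [← ENNReal.tsum_mul_right]
      congr 1
      funext k
      by_cases h1 : IL l k <;> by_cases h2 : IL m k <;> simp [h1, h2, mul_assoc]
    simp only [e2]
    rw [ENNReal.tsum_comm]
    simp only [ENNReal.tsum_mul_left]
    simp only [ih]
    rw [Finset.prod_range_succ']
    have e3 : S (r + 1) x l = ∑' m : ℕ →₀ ℕ,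
      if IL l m then x 0 ^ (sz l - sz m) * S r (fun i => x (i + 1)) m else 0 := rfl
    rw [e3]
    have e4 : ∀ k : ℕ →₀ ℕ, (if IL l k then x 0 ^ (sz l - sz k) else 0) *
        ((∏ i ∈ Finset.range r, (1 - x (i + 1) * y)⁻¹) * S r (fun i => x (i + 1)) k) =
        (∏ i ∈ Finset.range r, (1 - x (i + 1) * y)⁻¹) *
          (if IL l k then x 0 ^ (sz l - sz k) * S r (fun i => x (i + 1)) k else 0) := by
      intro k
      by_cases h : IL l k
      · simp only [h, if_true]; ring
      · simp [h]
    simp only [e4]
    rw [ENNReal.tsum_mul_left]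
    ring

end Pool.PlanePD
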