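import Pool.Agent.Helper777.PP.Defs
import Pool.Agent.Helper777.PP.P_cauchy1

set_option autoImplicit false

namespace Pool.PlanePD

open Complex Filter Topology

theorem S_zero_eq_one (r : ℕ) (x : ℕ → ENNReal) : S r x 0 = 1 := by
  induction r generalizing x with
  | zero => simp [S]
  | succ r ih =>
    have h0 : ∀ m : ℕ →₀ ℕ, IL 0 m ↔ m = 0 := by
      intro m
      constructor
      · intro h
        ext k
        have := (h k).1
        simpa using this
      · rintro rfl
        intro k
        simp
    rw [S]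
    rw [tsum_eq_single 0]
    · rw [if_pos ((h0 0).mpr rfl), ih]
      simp
    · intro m hm
      rw [if_neg (fun h => hm ((h0 m).mp h))]

theorem cauchy2 (r c : ℕ) (x y : ℕ → ENNReal) :
    (∑' l : ℕ →₀ ℕ, S r x l * S c y l) =
      ∏ i ∈ Finset.range r, ∏ j ∈ Finset.range c, (1 - x i * y j)⁻¹ := by
  classical
  induction c generalizing y with
  | zero =>
    rw [tsum_eq_single 0]
    · simp [S_zero_eq_one, S]
    · intro l hl
      simp [S, hl]
  | succ c ih =>
    have h1 : ∀ l : ℕ →₀ ℕ, S r x l * S (c + 1) y l = ∑' m : ℕ →₀ ℕ,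
        S c (fun i => y (i + 1)) m *
          (if IL l m then y 0 ^ (sz l - sz m) * S r x l else 0) := by
      intro l
      rw [S, ← ENNReal.tsum_mul_left]
      congr 1
      funext m
      by_cases h : IL l m
      · rw [if_pos h, if_pos h]; ring
      · rw [if_neg h, if_neg h]; simp
    have h2 : (∑' l : ℕ →₀ ℕ, S r x l * S (c + 1) y l) =
        ∑' m : ℕ →₀ ℕ, S c (fun i => y (i + 1)) m *
          ((∏ i ∈ Finset.range r, (1 - x i * y 0)⁻¹) * S r x m) := by
      simp_rw [h1]
      rw [ENNReal.tsum_comm]
      congr 1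
      funext m
      rw [ENNReal.tsum_mul_left]
      congr 1
      rw [← cauchy1 r x (y 0) m]
    rw [h2]
    have h3 : ∀ m : ℕ →₀ ℕ, S c (fun i => y (i + 1)) m *
          ((∏ i ∈ Finset.range r, (1 - x i * y 0)⁻¹) * S r x m) =
          (∏ i ∈ Finset.range r, (1 - x i * y 0)⁻¹) *
            (S r x m * S c (fun i => y (i + 1)) m) := by
      intro m; ring
    simp_rw [h3]
    rw [ENNReal.tsum_mul_left, ih]
    rw [← Finset.prod_mul_distrib]
    apply Finset.prod_congr rfl
    intro i _
    rw [Finset.prod_range_succ']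
    ring

end Pool.PlanePD
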