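import Pool.Agent.Helper777.PP.Defs

set_option autoImplicit false

namespace Pool.PlanePD

open Complex Filter Topology

theorem coeff_extract_ident (a : ℕ → ℝ)
    (h : ∀ t : ℝ, 0 < t → t < 1 → HasSum (fun m => a m * t ^ m) 0) : ∀ k, a k = 0 := by
  intro k
  induction k using Nat.strong_induction_on with
  | _ k ih =>
    have h1 : ∀ t : ℝ, 0 < t → t < 1 → HasSum (fun m => a (m + k) * t ^ m) 0 := by
      intro t ht ht1
      have h2 := (hasSum_nat_add_iff' k).2 (h t ht ht1)
      have h3 : ∑ i ∈ Finset.range k, a i * t ^ i = 0 :=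
        Finset.sum_eq_zero fun i hi => by rw [ih i (Finset.mem_range.1 hi), zero_mul]
      rw [h3, sub_zero] at h2
      have h4 := h2.mul_right ((t ^ k)⁻¹)
      rw [zero_mul] at h4
      refine h4.congr_fun fun m => ?_
      have : t ^ k ≠ 0 := (pow_pos ht k).ne'
      rw [pow_add]
      field_simp
    have h5 : ∀ t : ℝ, 0 < t → t < 1 →
        HasSum (fun m => a (m + 1 + k) * t ^ m) (- a k * t⁻¹) := by
      intro t ht ht1
      have h2 := (hasSum_nat_add_iff' 1).2 (h1 t ht ht1)
      simp only [Finset.range_one, Finset.sum_singleton, zero_add, pow_zero, mul_one,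
        zero_sub] at h2
      have h4 := h2.mul_right (t⁻¹)
      refine h4.congr_fun fun m => ?_
      rw [pow_succ]
      field_simp
    have hs := (h5 (1 / 2) (by norm_num) (by norm_num)).summable.abs
    set C := ∑' m, |a (m + 1 + k) * (1 / 2) ^ m| with hC
    have hb : ∀ t : ℝ, 0 < t → t ≤ 1 / 2 → |a k| ≤ t * C := by
      intro t ht ht1
      have h6 := h5 t ht (by linarith)
      have h7 : |(- a k * t⁻¹)| ≤ C := by
        rw [← h6.tsum_eq]
        have h8 : Summable fun m => |a (m + 1 + k) * t ^ m| := h6.summable.abs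
        calc |∑' m, a (m + 1 + k) * t ^ m| ≤ ∑' m, |a (m + 1 + k) * t ^ m| := by
              have h12 : Summable fun m => ‖a (m + 1 + k) * t ^ m‖ := h8
              exact norm_tsum_le_tsum_norm h12
          _ ≤ C := by
              refine h8.tsum_le_tsum (fun m => ?_) hs
              rw [abs_mul, abs_mul]
              refine mul_le_mul_of_nonneg_left ?_ (abs_nonneg _)
              rw [abs_of_pos (pow_pos ht m), abs_of_pos (by positivity)]
              exact pow_le_pow_left₀ ht.le ht1 m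
      rw [abs_mul, abs_neg, abs_of_pos (inv_pos.2 ht)] at h7
      rw [← div_eq_mul_inv, div_le_iff₀ ht] at h7
      linarith
    by_contra hne
    have hpos : 0 < |a k| := abs_pos.2 hne
    have hC0 : 0 ≤ C := tsum_nonneg fun _ => abs_nonneg _
    have h9 := hb (min (1 / 2) (|a k| / (2 * (C + 1)))) (lt_min (by norm_num) (by positivity))
      (min_le_left _ _)
    have h10 : min (1 / 2) (|a k| / (2 * (C + 1))) * C ≤ |a k| / (2 * (C + 1)) * C :=
      mul_le_mul_of_nonneg_right (min_le_right _ _) hC0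
    have h11 : |a k| / (2 * (C + 1)) * C < |a k| := by
      rw [div_mul_eq_mul_div, div_lt_iff₀ (by positivity)]
      nlinarith
    linarith

def coeff_extract_Ev (f : PowerSeries ℚ) (t v : ℝ) : Prop :=
  HasSum (fun m => ((PowerSeries.coeff m f : ℚ) : ℝ) * t ^ m) v

theorem coeff_extract_Ev_mul {f g : PowerSeries ℚ} {t v w : ℝ} (hf : coeff_extract_Ev f t v) (hg : coeff_extract_Ev g t w) :
    coeff_extract_Ev (f * g) t (v * w) := by
  unfold coeff_extract_Ev at *
  have h1 : Summable fun m => ‖((PowerSeries.coeff m f : ℚ) : ℝ) * t ^ m‖ := hf.summable.norm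
  have h2 : Summable fun m => ‖((PowerSeries.coeff m g : ℚ) : ℝ) * t ^ m‖ := hg.summable.norm
  have h3 := tsum_mul_tsum_eq_tsum_sum_antidiagonal_of_summable_norm h1 h2
  have h4 := summable_norm_sum_mul_antidiagonal_of_summable_norm h1 h2
  rw [hf.tsum_eq, hg.tsum_eq] at h3
  rw [h3]
  refine h4.of_norm.hasSum.congr_fun fun m => ?_
  rw [PowerSeries.coeff_mul, Rat.cast_sum, Finset.sum_mul]
  refine Finset.sum_congr rfl fun p hp => ?_
  rw [← Finset.HasAntidiagonal.mem_antidiagonal.1 hp, pow_add]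
  push_cast
  ring

theorem coeff_extract_Ev_sub {f g : PowerSeries ℚ} {t v w : ℝ} (hf : coeff_extract_Ev f t v) (hg : coeff_extract_Ev g t w) :
    coeff_extract_Ev (f - g) t (v - w) := by
  unfold coeff_extract_Ev at *
  refine (hf.sub hg).congr_fun fun m => ?_
  rw [map_sub]
  push_cast
  ring

theorem coeff_extract_Ev_X_pow (t : ℝ) (e : ℕ) : coeff_extract_Ev (PowerSeries.X ^ e) t (t ^ e) := by
  unfold coeff_extract_Ev
  have h := hasSum_single (f := fun m => (((PowerSeries.coeff m) (PowerSeries.X ^ e : PowerSeries ℚ) : ℚ) : ℝ) * t ^ m) e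
    (fun m hm => by
      simp only [PowerSeries.coeff_X_pow]
      rw [if_neg hm]
      simp)
  simpa [PowerSeries.coeff_X_pow] using h

theorem coeff_extract_Ev_one (t : ℝ) : coeff_extract_Ev 1 t 1 := by
  simpa using coeff_extract_Ev_X_pow t 0

theorem coeff_extract_Ev_prod {ι : Type*} (s : Finset ι) (f : ι → PowerSeries ℚ) (t : ℝ) (v : ι → ℝ)
    (h : ∀ i ∈ s, coeff_extract_Ev (f i) t (v i)) : coeff_extract_Ev (∏ i ∈ s, f i) t (∏ i ∈ s, v i) := by
  classical
  induction s using Finset.induction_on with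
  | empty => simpa using coeff_extract_Ev_one t
  | insert a s ha ih =>
    rw [Finset.prod_insert ha, Finset.prod_insert ha]
    exact coeff_extract_Ev_mul (h a (Finset.mem_insert_self _ _))
      (ih fun i hi => h i (Finset.mem_insert_of_mem hi))

/-- from an identity of functions on `[0,1)` to an identity of formal power series. -/
theorem coeff_extract (n : ℕ) (b : ℕ → ℕ)
    (hb : ∀ t : ENNReal, t < 1 → (∑' m : ℕ, (b m : ENNReal) * t ^ m) =
      ∏ i ∈ Finset.range n, ∏ j ∈ Finset.range n, (1 - t ^ (i + j + 1))⁻¹) :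
    (PowerSeries.mk (fun m => (b m : ℚ))) *
      ∏ i ∈ Finset.range n, ∏ j ∈ Finset.range n, (1 - (PowerSeries.X : PowerSeries ℚ) ^ (i + j + 1))
      = 1 := by
  have hpos : ∀ t : ℝ, 0 < t → t < 1 → ∀ e : ℕ, 0 < 1 - t ^ (e + 1) := by
    intro t ht ht1 e
    have : t ^ (e + 1) < 1 := pow_lt_one₀ ht.le ht1 (Nat.succ_ne_zero e)
    linarith
  have h1 : ∀ t : ℝ, 0 < t → t < 1 → coeff_extract_Ev (PowerSeries.mk (fun m => (b m : ℚ))) t
      (∏ i ∈ Finset.range n, ∏ j ∈ Finset.range n, (1 - t ^ (i + j + 1))⁻¹) := by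
    intro t ht ht1
    have hlt : ENNReal.ofReal t < 1 := by
      rw [← ENNReal.ofReal_one]
      exact (ENNReal.ofReal_lt_ofReal_iff one_pos).2 ht1
    have h2 := hb _ hlt
    have h3 : ∀ e : ℕ, (1 - ENNReal.ofReal t ^ (e + 1))⁻¹ =
        ENNReal.ofReal ((1 - t ^ (e + 1))⁻¹) := by
      intro e
      rw [ENNReal.ofReal_inv_of_pos (hpos t ht ht1 e), ENNReal.ofReal_sub _ (by positivity),
        ENNReal.ofReal_one, ENNReal.ofReal_pow ht.le]
    have h4 : ∏ i ∈ Finset.range n, ∏ j ∈ Finset.range n,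
        (1 - ENNReal.ofReal t ^ (i + j + 1))⁻¹ =
        ENNReal.ofReal (∏ i ∈ Finset.range n, ∏ j ∈ Finset.range n, (1 - t ^ (i + j + 1))⁻¹) := by
      rw [ENNReal.ofReal_prod_of_nonneg]
      · refine Finset.prod_congr rfl fun i _ => ?_
        rw [ENNReal.ofReal_prod_of_nonneg]
        · exact Finset.prod_congr rfl fun j _ => h3 _
        · intro j _
          exact (inv_pos.2 (hpos t ht ht1 _)).le
      · intro i _
        exact Finset.prod_nonneg fun j _ => (inv_pos.2 (hpos t ht ht1 _)).le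
    rw [h4] at h2
    have h5 : ∀ m, ((b m : ENNReal) * ENNReal.ofReal t ^ m) = ENNReal.ofReal (b m * t ^ m) := by
      intro m
      rw [ENNReal.ofReal_mul (by positivity), ENNReal.ofReal_natCast, ENNReal.ofReal_pow ht.le]
    have h6 := ENNReal.hasSum_toReal (f := fun m => (b m : ENNReal) * ENNReal.ofReal t ^ m)
      (by rw [h2]; exact ENNReal.ofReal_ne_top)
    rw [← ENNReal.tsum_toReal_eq (fun m => by rw [h5]; exact ENNReal.ofReal_ne_top), h2,
      ENNReal.toReal_ofReal (Finset.prod_nonneg fun i _ => Finset.prod_nonneg fun j _ =>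
        (inv_pos.2 (hpos t ht ht1 _)).le)] at h6
    refine h6.congr_fun fun m => ?_
    rw [h5, ENNReal.toReal_ofReal (by positivity)]
    simp
  set A := (PowerSeries.mk (fun m => (b m : ℚ))) *
      ∏ i ∈ Finset.range n, ∏ j ∈ Finset.range n,
        (1 - (PowerSeries.X : PowerSeries ℚ) ^ (i + j + 1)) with hA
  have h2 : ∀ t : ℝ, 0 < t → t < 1 → coeff_extract_Ev (A - 1) t 0 := by
    intro t ht ht1
    have h3 := coeff_extract_Ev_mul (h1 t ht ht1) (coeff_extract_Ev_prod (Finset.range n) _ t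
      (fun i => ∏ j ∈ Finset.range n, (1 - t ^ (i + j + 1)))
      (fun i _ => coeff_extract_Ev_prod (Finset.range n)
        (fun j => (1 - (PowerSeries.X : PowerSeries ℚ) ^ (i + j + 1))) t
        (fun j => 1 - t ^ (i + j + 1)) fun j _ => coeff_extract_Ev_sub (coeff_extract_Ev_one t) (coeff_extract_Ev_X_pow t _)))
    have h4 : (∏ i ∈ Finset.range n, ∏ j ∈ Finset.range n, (1 - t ^ (i + j + 1))⁻¹) *
        ∏ i ∈ Finset.range n, ∏ j ∈ Finset.range n, (1 - t ^ (i + j + 1)) = 1 := by
      rw [← Finset.prod_mul_distrib]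
      refine Finset.prod_eq_one fun i _ => ?_
      rw [← Finset.prod_mul_distrib]
      refine Finset.prod_eq_one fun j _ => ?_
      exact inv_mul_cancel₀ (hpos t ht ht1 _).ne'
    rw [h4] at h3
    have h5 := coeff_extract_Ev_sub h3 (coeff_extract_Ev_one t)
    rw [sub_self] at h5
    exact h5
  have h3 := coeff_extract_ident (fun m => ((PowerSeries.coeff m (A - 1) : ℚ) : ℝ)) h2
  rw [← sub_eq_zero]
  refine PowerSeries.ext fun m => ?_
  have h4 : ((PowerSeries.coeff m (A - 1) : ℚ) : ℝ) = 0 := h3 m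
  rw [map_zero]
  exact_mod_cast h4

end Pool.PlanePD
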