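import Pool.Agent.Helper777.PP.Defs

set_option autoImplicit false

namespace Pool.PlanePD

open Complex Filter Topology

/-! ### auxiliary -/

/-- extended chain -/
noncomputable def ex {n : ℕ} (l : ℕ →₀ ℕ) (c : Fin n → ℕ →₀ ℕ) : ℕ → (ℕ →₀ ℕ)
  | 0 => l
  | (d + 1) => if h : d < n then c ⟨d, h⟩ else 0

/-- chains -/
def CH {n : ℕ} (l : ℕ →₀ ℕ) (c : Fin n → ℕ →₀ ℕ) : Prop :=
  (∀ d, IL (ex l c d) (ex l c (d + 1))) ∧ ex l c n = 0

theorem ex_cons {n : ℕ} (l m : ℕ →₀ ℕ) (c : Fin n → ℕ →₀ ℕ) (d : ℕ) :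
    ex l (Fin.cons (α := fun _ => ℕ →₀ ℕ) m c) (d + 1) = ex m c d := by
  cases d with
  | zero => simp [ex]
  | succ d =>
    simp only [ex]
    by_cases h : d < n
    · rw [dif_pos h, dif_pos (by omega)]
      exact Fin.cons_succ (α := fun _ => ℕ →₀ ℕ) m c ⟨d, h⟩
    · rw [dif_neg h, dif_neg (by omega)]

theorem CH_cons {n : ℕ} (l m : ℕ →₀ ℕ) (c : Fin n → ℕ →₀ ℕ) :
    CH l (Fin.cons (α := fun _ => ℕ →₀ ℕ) m c) ↔ IL l m ∧ CH m c := by
  unfold CH
  rw [ex_cons]
  constructor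
  · rintro ⟨h1, h2⟩
    refine ⟨?_, ?_, h2⟩
    · have := h1 0
      rwa [ex_cons] at this
    · intro d
      have := h1 (d + 1)
      rwa [ex_cons, ex_cons] at this
  · rintro ⟨h1, h2, h3⟩
    refine ⟨?_, h3⟩
    intro d
    cases d with
    | zero => rw [ex_cons]; exact h1
    | succ d => rw [ex_cons, ex_cons]; exact h2 d

theorem IL_zero : IL 0 0 := fun k => ⟨le_rfl, le_rfl⟩

theorem CH_zero (l : ℕ →₀ ℕ) (c : Fin 0 → ℕ →₀ ℕ) : CH l c ↔ l = 0 := by
  unfold CH
  constructor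
  · rintro ⟨-, h⟩; exact h
  · rintro rfl
    refine ⟨?_, rfl⟩
    intro d
    cases d with
    | zero => simp [ex, IL_zero]
    | succ d => simp [ex, IL_zero]

theorem sz_eq {n : ℕ} {l : ℕ →₀ ℕ} (h : ∀ k, n ≤ k → l k = 0) :
    sz l = ∑ k ∈ Finset.range n, l k := by
  unfold sz
  apply Finsupp.sum_of_support_subset _ _ _ (fun _ _ => rfl)
  intro k hk
  rw [Finset.mem_range]
  by_contra hcon
  exact (Finsupp.mem_support_iff.1 hk) (h k (not_lt.1 hcon))

theorem sz_mono {l m : ℕ →₀ ℕ} (h : IL l m) : sz m ≤ sz l := by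
  obtain ⟨N, hN⟩ : ∃ N, ∀ k, N ≤ k → l k = 0 := by
    refine ⟨l.support.sup id + 1, fun k hk => ?_⟩
    by_contra h0
    have h1 : k ≤ l.support.sup id := Finset.le_sup (f := id) (Finsupp.mem_support_iff.2 h0)
    omega
  have hM : ∀ k, N ≤ k → m k = 0 := fun k hk => by
    have := (h k).1
    rw [hN k hk] at this
    omega
  rw [sz_eq hN, sz_eq hM]
  exact Finset.sum_le_sum fun k _ => (h k).1

open Classical in
theorem S_eq (t : ENNReal) : ∀ (n a : ℕ) (l : ℕ →₀ ℕ), S n (fun i => t ^ (a + i)) l =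
    ∑' c : Fin n → ℕ →₀ ℕ, if CH l c then t ^ (a * sz l + ∑ i, sz (c i)) else 0 := by
  intro n
  induction n with
  | zero =>
    intro a l
    rw [tsum_eq_single default (by intro b hb; exact absurd (Subsingleton.elim _ _) hb)]
    simp only [S, CH_zero, Finset.univ_eq_empty, Finset.sum_empty]
    by_cases h : l = 0
    · rw [if_pos h, if_pos h, h]
      simp [sz]
    · rw [if_neg h, if_neg h]
  | succ n ih =>
    intro a l
    rw [← (Fin.consEquiv (fun _ => ℕ →₀ ℕ)).tsum_eq, ENNReal.tsum_prod']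
    rw [S]
    apply tsum_congr
    intro m
    have e1 : (fun i => t ^ (a + (i + 1))) = fun i => t ^ ((a + 1) + i) := by
      funext i; congr 1; ring
    simp only [Nat.add_zero]
    rw [e1, ih (a + 1) m]
    by_cases h : IL l m
    · rw [if_pos h, ← ENNReal.tsum_mul_left]
      apply tsum_congr
      intro c
      show _ = if CH l (Fin.cons (α := fun _ => ℕ →₀ ℕ) m c) then
        t ^ (a * sz l + ∑ i, sz ((Fin.cons (α := fun _ => ℕ →₀ ℕ) m c : Fin (n + 1) → ℕ →₀ ℕ) i))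
        else 0
      rw [Fin.sum_univ_succ]
      simp only [Fin.cons_zero, Fin.cons_succ]
      by_cases h2 : CH m c
      · rw [if_pos h2, if_pos ((CH_cons l m c).2 ⟨h, h2⟩), ← pow_mul, ← pow_add]
        congr 1
        have h3 := sz_mono h
        obtain ⟨k, hk⟩ := Nat.exists_eq_add_of_le h3
        rw [hk, Nat.add_sub_cancel_left]
        ring
      · rw [if_neg h2, if_neg (fun h4 => h2 ((CH_cons l m c).1 h4).2), mul_zero]
    · rw [if_neg h]
      symm
      rw [ENNReal.tsum_eq_zero]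
      intro c
      apply if_neg
      exact fun h4 => h ((CH_cons l m c).1 h4).1

/-- arrays on `ℕ × ℕ` -/
structure PPn (n : ℕ) where
  F : ℕ → ℕ → ℕ
  h1 : ∀ i j, F (i + 1) j ≤ F i j
  h2 : ∀ i j, F i (j + 1) ≤ F i j
  h0 : ∀ i j, n ≤ i ∨ n ≤ j → F i j = 0

theorem PPn.ext' {n : ℕ} {A B : PPn n} (h : A.F = B.F) : A = B := by
  cases A; cases B; cases h; rfl

/-- transposition -/
def PPn.tr {n : ℕ} (A : PPn n) : PPn n where
  F i j := A.F j i
  h1 i j := A.h2 j i
  h2 i j := A.h1 j i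
  h0 i j h := A.h0 j i h.symm

/-- diagonal -/
noncomputable def PPn.D {n : ℕ} (A : PPn n) (d : ℕ) : ℕ →₀ ℕ :=
  Finsupp.onFinset (Finset.range n) (fun k => A.F k (k + d)) (by
    intro k hk
    rw [Finset.mem_range]
    by_contra hcon
    exact hk (A.h0 _ _ (Or.inl (not_lt.1 hcon))))

theorem PPn.D_apply {n : ℕ} (A : PPn n) (d k : ℕ) : A.D d k = A.F k (k + d) := rfl

theorem PPn.ex_D {n : ℕ} (A : PPn n) (d : ℕ) :
    ex (A.D 0) (fun i : Fin n => A.D (i + 1)) d = A.D d := by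
  cases d with
  | zero => rfl
  | succ d =>
    simp only [ex]
    by_cases h : d < n
    · rw [dif_pos h]
    · rw [dif_neg h]
      ext k
      rw [PPn.D_apply, A.h0 _ _ (Or.inr (by omega))]
      rfl

theorem PPn.CH_D {n : ℕ} (A : PPn n) : CH (A.D 0) (fun i : Fin n => A.D (i + 1)) := by
  refine ⟨?_, ?_⟩
  · intro d
    rw [PPn.ex_D, PPn.ex_D]
    intro k
    rw [PPn.D_apply, PPn.D_apply, PPn.D_apply]
    refine ⟨A.h2 _ _, ?_⟩
    have := A.h1 k (k + 1 + d)
    rwa [show k + 1 + d = k + (d + 1) by ring] at this ⊢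
  · rw [PPn.ex_D]
    ext k
    rw [PPn.D_apply, A.h0 _ _ (Or.inr (by omega))]
    rfl

theorem CH.zero_of {n : ℕ} {l : ℕ →₀ ℕ} {c : Fin n → ℕ →₀ ℕ} (h : CH l c) :
    ∀ (k d : ℕ), n ≤ d + k → ex l c d k = 0 := by
  have h1 : ∀ e, ex l c (n + e) = 0 := by
    intro e
    induction e with
    | zero => exact h.2
    | succ e ih =>
      ext k
      have := (h.1 (n + e) k).1
      rw [ih] at this
      exact Nat.le_zero.1 this
  intro k
  induction k with
  | zero =>
    intro d hd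
    obtain ⟨e, rfl⟩ := Nat.exists_eq_add_of_le (show n ≤ d by omega)
    rw [h1]
    rfl
  | succ k ih =>
    intro d hd
    have h2 := (h.1 d k).2
    rw [ih (d + 1) (by omega)] at h2
    exact Nat.le_zero.1 h2

/-- the array of two chains -/
noncomputable def mkF {n : ℕ} (l : ℕ →₀ ℕ) (c c' : Fin n → ℕ →₀ ℕ) (i j : ℕ) : ℕ :=
  if i ≤ j then ex l c (j - i) i else ex l c' (i - j) j

theorem mkF_tr {n : ℕ} (l : ℕ →₀ ℕ) (c c' : Fin n → ℕ →₀ ℕ) (i j : ℕ) :
    mkF l c c' i j = mkF l c' c j i := by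
  unfold mkF
  rcases lt_trichotomy i j with h | h | h
  · rw [if_pos h.le, if_neg (by omega)]
  · subst h
    simp only [le_refl, if_true, Nat.sub_self]
    rfl
  · rw [if_neg (by omega), if_pos h.le]

theorem mkF_h2 {n : ℕ} {l : ℕ →₀ ℕ} {c c' : Fin n → ℕ →₀ ℕ} (h : CH l c) (h' : CH l c')
    (i j : ℕ) : mkF l c c' i (j + 1) ≤ mkF l c c' i j := by
  unfold mkF
  rcases lt_trichotomy i (j + 1) with h1 | h1 | h1
  · rw [if_pos h1.le, if_pos (by omega), show j + 1 - i = (j - i) + 1 by omega]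
    exact (h.1 (j - i) i).1
  · subst h1
    rw [if_pos le_rfl, if_neg (by omega), Nat.sub_self, show j + 1 - j = 0 + 1 by omega]
    have := (h'.1 0 j).2
    exact this
  · rw [if_neg (by omega), if_neg (by omega), show i - j = (i - (j + 1)) + 1 by omega]
    exact (h'.1 _ j).2

theorem mkF_h0 {n : ℕ} {l : ℕ →₀ ℕ} {c c' : Fin n → ℕ →₀ ℕ} (h : CH l c) (h' : CH l c')
    (i j : ℕ) (hij : n ≤ i ∨ n ≤ j) : mkF l c c' i j = 0 := by
  unfold mkF
  split_ifs with h1
  · exact h.zero_of _ _ (by omega)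
  · exact h'.zero_of _ _ (by omega)

/-- plane partition of two chains -/
noncomputable def mkPP {n : ℕ} {l : ℕ →₀ ℕ} {c c' : Fin n → ℕ →₀ ℕ} (h : CH l c) (h' : CH l c') :
    PPn n where
  F := mkF l c c'
  h1 i j := by
    rw [mkF_tr l c c' (i + 1) j, mkF_tr l c c' i j]
    exact mkF_h2 h' h j i
  h2 := mkF_h2 h h'
  h0 := mkF_h0 h h'

theorem mkPP_tr {n : ℕ} {l : ℕ →₀ ℕ} {c c' : Fin n → ℕ →₀ ℕ} (h : CH l c) (h' : CH l c') :
    (mkPP h h').tr = mkPP h' h := by
  apply PPn.ext'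
  funext i j
  exact mkF_tr l c c' j i

theorem mkPP_D {n : ℕ} {l : ℕ →₀ ℕ} {c c' : Fin n → ℕ →₀ ℕ} (h : CH l c) (h' : CH l c') (d : ℕ) :
    (mkPP h h').D d = ex l c d := by
  ext k
  rw [PPn.D_apply]
  show mkF l c c' k (k + d) = _
  unfold mkF
  rw [if_pos (by omega), Nat.add_sub_cancel_left]

theorem ex_val {n : ℕ} (l : ℕ →₀ ℕ) (c : Fin n → ℕ →₀ ℕ) (i : Fin n) :
    ex l c ((i : ℕ) + 1) = c i := by
  simp only [ex]
  rw [dif_pos i.2]

/-- the type of pairs of chains -/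
abbrev Tr (n : ℕ) : Type := (ℕ →₀ ℕ) × (Fin n → ℕ →₀ ℕ) × (Fin n → ℕ →₀ ℕ)

/-- the bijection -/
noncomputable def eqv (n : ℕ) : PPn n ≃ {p : Tr n // CH p.1 p.2.1 ∧ CH p.1 p.2.2} where
  toFun A := ⟨(A.D 0, (fun i => A.D (i + 1)), (fun i => A.tr.D (i + 1))), A.CH_D, by
    have h := A.tr.CH_D
    exact h⟩
  invFun p := mkPP p.2.1 p.2.2
  left_inv A := by
    apply PPn.ext'
    funext i j
    show mkF (A.D 0) (fun i : Fin n => A.D (i + 1)) (fun i : Fin n => A.tr.D (i + 1)) i j = A.F i j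
    unfold mkF
    split_ifs with h
    · rw [PPn.ex_D, PPn.D_apply, Nat.add_sub_cancel' h]
    · have h1 : ex (A.tr.D 0) (fun i : Fin n => A.tr.D (i + 1)) (i - j) = A.tr.D (i - j) :=
        PPn.ex_D _ _
      have h2 : A.tr.D 0 = A.D 0 := rfl
      rw [h2] at h1
      rw [h1, PPn.D_apply, Nat.add_sub_cancel' (by omega)]
      rfl
  right_inv := by
    rintro ⟨⟨l, c, c'⟩, h, h'⟩
    apply Subtype.ext
    refine Prod.ext ?_ (Prod.ext ?_ ?_)
    · exact mkPP_D h h' 0
    · funext i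
      show (mkPP h h').D (i + 1) = c i
      rw [mkPP_D h h', ex_val]
    · funext i
      show (mkPP h h').tr.D (i + 1) = c' i
      rw [mkPP_tr h h', mkPP_D h' h, ex_val]

/-- restriction to the square -/
def eqv1 (n : ℕ) : {f : Fin n → Fin n → ℕ // IsPP n f} ≃ PPn n where
  toFun f :=
    { F := fun i j => if h : i < n ∧ j < n then f.1 ⟨i, h.1⟩ ⟨j, h.2⟩ else 0
      h1 := by
        intro i j
        by_cases h : i + 1 < n ∧ j < n
        · rw [dif_pos h, dif_pos ⟨by omega, h.2⟩]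
          exact f.2.1 _ _ _ (by simp [Fin.le_def])
        · rw [dif_neg h]
          exact Nat.zero_le _
      h2 := by
        intro i j
        by_cases h : i < n ∧ j + 1 < n
        · rw [dif_pos h, dif_pos ⟨h.1, by omega⟩]
          exact f.2.2 _ _ _ (by simp [Fin.le_def])
        · rw [dif_neg h]
          exact Nat.zero_le _
      h0 := by
        intro i j h
        rw [dif_neg (by omega)] }
  invFun A := ⟨fun i j => A.F i j, by
    constructor
    · intro i j k hik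
      exact antitone_nat_of_succ_le (f := fun i : ℕ => A.F i j) (fun i => A.h1 i j) hik
    · intro i j k hjk
      exact antitone_nat_of_succ_le (f := fun j : ℕ => A.F i j) (fun j => A.h2 i j) hjk⟩
  left_inv f := by
    apply Subtype.ext
    funext i j
    simp
  right_inv A := by
    apply PPn.ext'
    funext i j
    by_cases h : i < n ∧ j < n
    · simp only [dif_pos h]
    · simp only [dif_neg h]
      exact (A.h0 i j (by omega)).symm

theorem sum_upper {n : ℕ} {F : ℕ → ℕ → ℕ} (h : ∀ i j, n ≤ j → F i j = 0) :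
    ∑ d ∈ Finset.range n, ∑ k ∈ Finset.range n, F k (k + (d + 1)) =
      ∑ k ∈ Finset.range n, ∑ j ∈ Finset.range n, if k < j then F k j else 0 := by
  rw [Finset.sum_comm]
  apply Finset.sum_congr rfl
  intro k _
  have h1 : ∑ j ∈ Finset.range n, (if k < j then F k j else 0) =
      ∑ j ∈ Finset.range (k + 1 + n), if k < j then F k j else 0 := by
    apply Finset.sum_subset
    · intro j hj
      rw [Finset.mem_range] at hj ⊢
      omega
    · intro j _ hj
      rw [Finset.mem_range, not_lt] at hj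
      rw [h k j hj]
      simp
  rw [h1, Finset.sum_range_add]
  have h2 : ∑ j ∈ Finset.range (k + 1), (if k < j then F k j else 0) = 0 := by
    apply Finset.sum_eq_zero
    intro j hj
    rw [Finset.mem_range] at hj
    exact if_neg (by omega)
  rw [h2, zero_add]
  apply Finset.sum_congr rfl
  intro d _
  rw [if_pos (by omega), show k + (d + 1) = k + 1 + d by ring]

theorem PPn.sum_eq {n : ℕ} (A : PPn n) :
    ∑ i ∈ Finset.range n, ∑ j ∈ Finset.range n, A.F i j =
      sz (A.D 0) + ∑ i : Fin n, sz (A.D (i + 1)) + ∑ i : Fin n, sz (A.tr.D (i + 1)) := by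
  have hsz : ∀ (B : PPn n) (d : ℕ), sz (B.D d) = ∑ k ∈ Finset.range n, B.F k (k + d) := by
    intro B d
    rw [sz_eq (n := n)]
    · rfl
    · intro k hk
      rw [PPn.D_apply]
      exact B.h0 _ _ (Or.inl hk)
  have h2 : ∀ B : PPn n, ∑ i : Fin n, sz (B.D (i + 1)) =
      ∑ k ∈ Finset.range n, ∑ j ∈ Finset.range n, if k < j then B.F k j else 0 := by
    intro B
    rw [← sum_upper (F := B.F) (fun i j h => B.h0 i j (Or.inr h)), Finset.sum_range]
    exact Finset.sum_congr rfl fun i _ => hsz B (i + 1)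
  rw [h2 A, h2 A.tr, hsz A 0]
  have h3 : ∑ k ∈ Finset.range n, ∑ j ∈ Finset.range n, (if k < j then A.tr.F k j else 0) =
      ∑ k ∈ Finset.range n, ∑ j ∈ Finset.range n, if j < k then A.F k j else 0 := by
    rw [Finset.sum_comm]
    rfl
  have h4 : ∑ k ∈ Finset.range n, A.F k (k + 0) =
      ∑ k ∈ Finset.range n, ∑ j ∈ Finset.range n, if k = j then A.F k j else 0 := by
    apply Finset.sum_congr rfl
    intro k hk
    rw [Finset.sum_ite_eq, if_pos hk]
    rfl
  rw [h3, h4, ← Finset.sum_add_distrib, ← Finset.sum_add_distrib]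
  apply Finset.sum_congr rfl
  intro i _
  rw [← Finset.sum_add_distrib, ← Finset.sum_add_distrib]
  apply Finset.sum_congr rfl
  intro j _
  rcases lt_trichotomy i j with h | h | h
  · rw [if_neg h.ne, if_pos h, if_neg (by omega)]; omega
  · rw [if_pos h, if_neg (by omega), if_neg (by omega)]; omega
  · rw [if_neg (by omega), if_neg (by omega), if_pos h]; omega

open Classical in
/-- plane partitions in an `n × n` square are pairs of chains of diagonals. -/
theorem diag_bij (n : ℕ) (t : ENNReal) :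
    (∑' f : Fin n → Fin n → ℕ, if IsPP n f then t ^ (∑ i, ∑ j, f i j) else 0) =
      ∑' l : ℕ →₀ ℕ, S n (fun i => t ^ i) l * S n (fun i => t ^ (i + 1)) l := by
  have hL : (∑' f : Fin n → Fin n → ℕ, if IsPP n f then t ^ (∑ i, ∑ j, f i j) else 0) =
      ∑' f : {f : Fin n → Fin n → ℕ // IsPP n f}, t ^ (∑ i, ∑ j, f.1 i j) := by
    have := tsum_subtype {f : Fin n → Fin n → ℕ | IsPP n f} (fun f => t ^ (∑ i, ∑ j, f i j))
    refine (Eq.trans ?_ this.symm)
    apply tsum_congr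
    intro f
    rw [Set.indicator_apply]
    rfl
  have hR : (∑' l : ℕ →₀ ℕ, S n (fun i => t ^ i) l * S n (fun i => t ^ (i + 1)) l) =
      ∑' p : {p : Tr n // CH p.1 p.2.1 ∧ CH p.1 p.2.2},
        t ^ (sz p.1.1 + ∑ i, sz (p.1.2.1 i) + ∑ i, sz (p.1.2.2 i)) := by
    have h1 := tsum_subtype {p : Tr n | CH p.1 p.2.1 ∧ CH p.1 p.2.2}
      (fun p => t ^ (sz p.1 + ∑ i, sz (p.2.1 i) + ∑ i, sz (p.2.2 i)))
    refine (Eq.trans ?_ h1.symm)
    rw [ENNReal.tsum_prod']
    apply tsum_congr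
    intro l
    rw [ENNReal.tsum_prod']
    have e0 : (fun i => t ^ i) = fun i => t ^ (0 + i) := by funext i; rw [zero_add]
    have e1 : (fun i => t ^ (i + 1)) = fun i => t ^ (1 + i) := by funext i; rw [add_comm]
    rw [e0, e1, S_eq, S_eq, ← ENNReal.tsum_mul_right]
    apply tsum_congr
    intro c
    rw [← ENNReal.tsum_mul_left]
    apply tsum_congr
    intro c'
    rw [Set.indicator_apply]
    by_cases h2 : CH l c
    · by_cases h3 : CH l c'
      · rw [if_pos h2, if_pos h3, if_pos (show (l, c, c') ∈ {p : Tr n | CH p.1 p.2.1 ∧ CH p.1 p.2.2}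
          from ⟨h2, h3⟩), ← pow_add]
        congr 1
        ring
      · rw [if_neg h3, mul_zero, if_neg (fun h4 => h3 h4.2)]
    · rw [if_neg h2, zero_mul, if_neg (fun h4 => h2 h4.1)]
  rw [hL, hR, ← ((eqv1 n).trans (eqv n)).tsum_eq]
  apply tsum_congr
  intro f
  congr 1
  have h1 := ((eqv1 n) f).sum_eq
  have h2 : ∑ i ∈ Finset.range n, ∑ j ∈ Finset.range n, ((eqv1 n) f).F i j =
      ∑ i, ∑ j, f.1 i j := by
    rw [Finset.sum_range]
    apply Finset.sum_congr rfl
    intro i _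
    rw [Finset.sum_range]
    apply Finset.sum_congr rfl
    intro j _
    show (if h : (i : ℕ) < n ∧ (j : ℕ) < n then f.1 ⟨i, h.1⟩ ⟨j, h.2⟩ else 0) = f.1 i j
    rw [dif_pos ⟨i.2, j.2⟩]
  rw [← h2, h1]
  rfl

end Pool.PlanePD
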