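import Pool.Agent.Helper777.PP.Defs

set_option autoImplicit false

namespace Pool.PlanePD

open Complex Filter Topology

open PowerSeries in
theorem ld_coeff_th (f : PowerSeries ℚ) (m : ℕ) : coeff m (th f) = m * coeff m f := by
  unfold th
  cases m with
  | zero => simp
  | succ m =>
    rw [PowerSeries.coeff_succ_X_mul, PowerSeries.coeff_derivative]
    push_cast
    ring

theorem ld_th_mul (f g : PowerSeries ℚ) : th (f * g) = f * th g + th f * g := by
  unfold th
  rw [Derivation.leibniz]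
  simp only [smul_eq_mul]
  ring

theorem ld_th_prod {α : Type*} (s : Finset α) (f T : α → PowerSeries ℚ)
    (h : ∀ a ∈ s, th (f a) = - (f a * T a)) :
    th (∏ a ∈ s, f a) = - ((∏ a ∈ s, f a) * ∑ a ∈ s, T a) := by
  classical
  induction s using Finset.induction_on with
  | empty =>
    simp [th]
  | insert a s ha ih =>
    rw [Finset.prod_insert ha, Finset.sum_insert ha, ld_th_mul, h a (Finset.mem_insert_self _ _),
      ih (fun b hb => h b (Finset.mem_insert_of_mem hb))]
    ring

/-- `k g_k` -/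
noncomputable def ldT (k : ℕ) : PowerSeries ℚ :=
  PowerSeries.mk (fun m => if 1 ≤ m ∧ k ∣ m then (k : ℚ) else 0)

open PowerSeries in
theorem ld_T {k : ℕ} (hk : 1 ≤ k) : (1 - (X : PowerSeries ℚ) ^ k) * ldT k = C (k : ℚ) * X ^ k := by
  ext m
  rw [sub_mul, one_mul, map_sub, PowerSeries.coeff_X_pow_mul', PowerSeries.coeff_C_mul,
    PowerSeries.coeff_X_pow]
  unfold ldT
  rw [PowerSeries.coeff_mk, PowerSeries.coeff_mk]
  rcases lt_trichotomy m k with h | h | h
  · rw [if_neg (by omega : ¬ k ≤ m), if_neg (by omega : ¬ m = k)]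
    rw [if_neg]
    · simp
    · rintro ⟨h1, h2⟩
      have := Nat.le_of_dvd (by omega) h2
      omega
  · subst h
    simp [hk]
  · rw [if_pos h.le, if_neg (by omega : ¬ m = k)]
    have h1 : (1 ≤ m ∧ k ∣ m) ↔ (1 ≤ m - k ∧ k ∣ m - k) := by
      constructor
      · rintro ⟨h1, h2⟩
        exact ⟨by omega, Nat.dvd_sub h2 dvd_rfl⟩
      · rintro ⟨h1, h2⟩
        refine ⟨by omega, ?_⟩
        have := dvd_add h2 (dvd_refl k)
        rwa [Nat.sub_add_cancel h.le] at this
    by_cases h2 : 1 ≤ m ∧ k ∣ m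
    · rw [if_pos h2, if_pos (h1.1 h2)]
      simp
    · rw [if_neg h2, if_neg (fun h3 => h2 (h1.2 h3))]
      simp

open PowerSeries in
theorem ld_th_one_sub {k : ℕ} (hk : 1 ≤ k) :
    th (1 - (X : PowerSeries ℚ) ^ k) = - ((1 - X ^ k) * ldT k) := by
  rw [ld_T hk]
  ext m
  rw [ld_coeff_th, map_sub, map_neg, PowerSeries.coeff_C_mul, PowerSeries.coeff_X_pow,
    PowerSeries.coeff_one]
  by_cases h : m = k
  · subst h
    rw [if_neg (by omega)]
    simp
  · rw [if_neg h]
    by_cases h0 : m = 0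
    · subst h0; simp
    · rw [if_neg h0]; simp

theorem ld_sum (n m : ℕ) (hm : m ≤ n) :
    PowerSeries.coeff m (∑ p ∈ Finset.range n ×ˢ Finset.range n, ldT (p.1 + p.2 + 1)) =
      (sg2 m : ℚ) := by
  classical
  rw [map_sum]
  unfold ldT
  simp only [PowerSeries.coeff_mk]
  rcases Nat.eq_zero_or_pos m with h0 | h0
  · subst h0
    simp [sg2]
  have hmaps : ∀ p ∈ Finset.range n ×ˢ Finset.range n, p.1 + p.2 + 1 ∈ Finset.range (2 * n + 1) := by
    intro p hp
    rw [Finset.mem_product, Finset.mem_range, Finset.mem_range] at hp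
    rw [Finset.mem_range]
    omega
  rw [← Finset.sum_fiberwise_of_maps_to hmaps]
  have h1 : ∀ k ∈ Finset.range (2 * n + 1), ∑ p ∈ Finset.range n ×ˢ Finset.range n with
      p.1 + p.2 + 1 = k, (if 1 ≤ m ∧ p.1 + p.2 + 1 ∣ m then ((p.1 + p.2 + 1 : ℕ) : ℚ) else 0) =
      if k ∈ m.divisors then (k : ℚ) ^ 2 else 0 := by
    intro k _
    by_cases hk : k ∈ m.divisors
    · rw [if_pos hk]
      have hk1 := Nat.dvd_of_mem_divisors hk
      have hk2 := Nat.le_of_dvd h0 hk1
      have hk3 : 0 < k := Nat.pos_of_mem_divisors hk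
      have e1 : (Finset.range n ×ˢ Finset.range n).filter (fun p => p.1 + p.2 + 1 = k) =
          Finset.HasAntidiagonal.antidiagonal (k - 1) := by
        ext p
        rw [Finset.mem_filter, Finset.mem_product, Finset.mem_range, Finset.mem_range,
          Finset.HasAntidiagonal.mem_antidiagonal]
        omega
      rw [e1]
      have e2 : ∀ p ∈ Finset.HasAntidiagonal.antidiagonal (k - 1),
          (if 1 ≤ m ∧ p.1 + p.2 + 1 ∣ m then ((p.1 + p.2 + 1 : ℕ) : ℚ) else 0) = k := by
        intro p hp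
        rw [Finset.HasAntidiagonal.mem_antidiagonal] at hp
        have : p.1 + p.2 + 1 = k := by omega
        rw [this, if_pos ⟨h0, hk1⟩]
      rw [Finset.sum_congr rfl e2, Finset.sum_const, Finset.Nat.card_antidiagonal, nsmul_eq_mul]
      have : k - 1 + 1 = k := by omega
      rw [this]
      ring
    · rw [if_neg hk]
      apply Finset.sum_eq_zero
      intro p hp
      rw [Finset.mem_filter] at hp
      rw [if_neg]
      rintro ⟨-, h2⟩
      rw [hp.2] at h2
      exact hk (Nat.mem_divisors.2 ⟨h2, by omega⟩)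
  rw [Finset.sum_congr rfl h1, ← Finset.sum_filter]
  have e3 : (Finset.range (2 * n + 1)).filter (fun k => k ∈ m.divisors) = m.divisors := by
    ext k
    rw [Finset.mem_filter, Finset.mem_range]
    constructor
    · exact fun h => h.2
    · intro h
      have := Nat.divisor_le h
      exact ⟨by omega, h⟩
  rw [e3]
  unfold sg2
  push_cast
  rfl

theorem log_deriv (n : ℕ) (B : PowerSeries ℚ)
    (hB : B * ∏ i ∈ Finset.range n, ∏ j ∈ Finset.range n,
      (1 - (PowerSeries.X : PowerSeries ℚ) ^ (i + j + 1)) = 1) (m : ℕ) (hm : m ≤ n) :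
    PowerSeries.coeff m (th B) = PowerSeries.coeff m (B * F) := by
  rw [← Finset.prod_product'] at hB
  set A := ∏ p ∈ Finset.range n ×ˢ Finset.range n,
    (1 - (PowerSeries.X : PowerSeries ℚ) ^ (p.1 + p.2 + 1)) with hA
  set U := ∑ p ∈ Finset.range n ×ˢ Finset.range n, ldT (p.1 + p.2 + 1) with hU
  have h1 : th A = - (A * U) :=
    ld_th_prod _ _ _ (fun p _ => ld_th_one_sub (by omega))
  have h2 : th (B * A) = 0 := by
    rw [hB]; simp [th]
  rw [ld_th_mul, h1] at h2
  have h3 : th B = B * U := by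
    linear_combination B * h2 + (B * U - th B) * hB
  rw [h3, PowerSeries.coeff_mul, PowerSeries.coeff_mul]
  refine Finset.sum_congr rfl fun p hp => ?_
  have hp' := Finset.HasAntidiagonal.mem_antidiagonal.1 hp
  congr 1
  rw [hU, ld_sum n p.2 (by omega)]
  unfold F
  rw [PowerSeries.coeff_mk]

end Pool.PlanePD
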