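import Pool.Agent.Helper777.PP.Defs

set_option autoImplicit false

namespace Pool.PlanePD

open Complex Filter Topology

open Classical in
theorem sum_bb (n : ℕ) (t : ENNReal) :
    (∑' f : Fin n → Fin n → ℕ, if IsPP n f then t ^ (∑ i, ∑ j, f i j) else 0) =
      ∑' m : ℕ, (bb n m : ENNReal) * t ^ m := by
  have h1 : ∀ f : Fin n → Fin n → ℕ, (if IsPP n f then t ^ (∑ i, ∑ j, f i j) else 0) =
      ∑' m : ℕ, if (IsPP n f ∧ (∑ i, ∑ j, f i j) = m) then t ^ m else 0 := by
    intro f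
    by_cases hf : IsPP n f
    · rw [tsum_eq_single (∑ i, ∑ j, f i j)]
      · simp [hf]
      · intro m hm
        rw [if_neg]
        rintro ⟨_, h⟩
        exact hm h.symm
    · simp [hf]
  rw [tsum_congr h1, ENNReal.tsum_comm]
  refine tsum_congr fun m => ?_
  have hfin : {f : Fin n → Fin n → ℕ |
                  (∀ i j k : Fin n, i ≤ k → f k j ≤ f i j) ∧
                  (∀ i j k : Fin n, j ≤ k → f i k ≤ f i j) ∧
                  (∑ i, ∑ j, f i j) = m}.Finite := by
    refine (Set.finite_Icc (0 : Fin n → Fin n → ℕ) (fun _ _ => m)).subset ?_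
    rintro f ⟨_, _, h⟩
    refine ⟨fun i j => Nat.zero_le _, fun i j => ?_⟩
    have a1 : f i j ≤ ∑ j, f i j :=
      Finset.single_le_sum (f := fun j => f i j) (fun _ _ => Nat.zero_le _) (Finset.mem_univ j)
    have a2 : (∑ j, f i j) ≤ ∑ i, ∑ j, f i j :=
      Finset.single_le_sum (f := fun i => ∑ j, f i j) (fun _ _ => Nat.zero_le _) (Finset.mem_univ i)
    show f i j ≤ m
    omega
  rw [tsum_eq_sum (s := hfin.toFinset)]
  · rw [bb, Set.ncard_eq_toFinset_card _ hfin, ← nsmul_eq_mul, ← Finset.sum_const]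
    refine Finset.sum_congr rfl fun f hf => ?_
    have hf' := (Set.Finite.mem_toFinset hfin).mp hf
    rw [if_pos]
    exact ⟨⟨hf'.1, hf'.2.1⟩, hf'.2.2⟩
  · intro f hf
    rw [if_neg]
    rintro ⟨⟨a, b⟩, c⟩
    exact hf ((Set.Finite.mem_toFinset hfin).mpr ⟨a, b, c⟩)

end Pool.PlanePD
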