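import Pool.Agent.Helper777.PP.Defs
import Pool.Agent.Helper777.PP.P_cauchy2
import Pool.Agent.Helper777.PP.P_diag_bij
import Pool.Agent.Helper777.PP.P_sum_bb
import Pool.Agent.Helper777.PP.P_bb_stable
import Pool.Agent.Helper777.PP.P_coeff_extract
import Pool.Agent.Helper777.PP.P_log_deriv

set_option autoImplicit false

namespace Pool.PlanePD

open Complex Filter Topology

theorem coeff_th_mk (g : ℕ → ℚ) (n : ℕ) :
    PowerSeries.coeff n (th (PowerSeries.mk g)) = (n : ℚ) * g n := by
  unfold th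
  rcases n with _ | n
  · simp
  · rw [PowerSeries.coeff_succ_X_mul]
    have : PowerSeries.coeff n (PowerSeries.derivative ℚ (PowerSeries.mk g)) =
        PowerSeries.coeff (n + 1) (PowerSeries.mk g) * ((n : ℚ) + 1) :=
      PowerSeries.coeff_derivative _ _
    rw [this, PowerSeries.coeff_mk]
    push_cast
    ring

theorem macmahon : th (PowerSeries.mk (fun n : ℕ => ((bb n n : ℕ) : ℚ))) =
    PowerSeries.mk (fun n : ℕ => ((bb n n : ℕ) : ℚ)) * F := by
  classical
  ext n
  have hb : ∀ t : ENNReal, t < 1 → (∑' m : ℕ, (bb n m : ENNReal) * t ^ m) =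
      ∏ i ∈ Finset.range n, ∏ j ∈ Finset.range n, (1 - t ^ (i + j + 1))⁻¹ := by
    intro t _
    rw [← sum_bb, diag_bij, cauchy2]
    refine Finset.prod_congr rfl fun i _ => Finset.prod_congr rfl fun j _ => ?_
    rw [← pow_add, add_assoc]
  have hB := coeff_extract n (bb n) hb
  have hL := log_deriv n _ hB n le_rfl
  rw [coeff_th_mk] at hL ⊢
  rw [hL, PowerSeries.coeff_mul, PowerSeries.coeff_mul]
  refine Finset.sum_congr rfl fun p hp => ?_
  have hp' : p.1 ≤ n := by
    have := Finset.HasAntidiagonal.mem_antidiagonal.1 hp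
    omega
  rw [PowerSeries.coeff_mk, PowerSeries.coeff_mk, bb_stable n p.1 hp']

end Pool.PlanePD
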