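import Pool.Agent.Helper777.PP.P_elim
import Pool.Agent.Helper777.PP.P_F_hyper
import Pool.Agent.Helper777.PP.P_macmahon
set_option autoImplicit false

namespace Pool.PlanePD

open Complex Filter Topology

theorem bb_zero : bb 0 0 = 1 := by
  unfold bb
  have : {f : Fin 0 → Fin 0 → ℕ |
                  (∀ i j k : Fin 0, i ≤ k → f k j ≤ f i j) ∧
                  (∀ i j k : Fin 0, j ≤ k → f i k ≤ f i j) ∧
                  (∑ i, ∑ j, f i j) = 0} = {default} := by
    ext f
    simp only [Set.mem_setOf_eq, Set.mem_singleton_iff]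
    constructor
    · intro _; exact Subsingleton.elim _ _
    · rintro rfl
      exact ⟨fun i => i.elim0, fun i => i.elim0, rfl⟩
  rw [this, Set.ncard_singleton]

theorem final : ¬ (∃ Q : MvPolynomial ℕ ℚ, Q ≠ 0 ∧
      MvPolynomial.aeval
        (fun i : ℕ =>
          if i = 0 then (PowerSeries.X : PowerSeries ℚ)
          else (⇑(PowerSeries.derivative ℚ))^[i - 1]
            (PowerSeries.mk (fun n : ℕ =>
              ((Set.ncard {f : Fin n → Fin n → ℕ |
                  (∀ i j k : Fin n, i ≤ k → f k j ≤ f i j) ∧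
                  (∀ i j k : Fin n, j ≤ k → f i k ≤ f i j) ∧
                  (∑ i, ∑ j, f i j) = n} : ℕ) : ℚ))))
        Q = 0) := by
  rintro ⟨Q, hQ, hQ0⟩
  have hne : (PowerSeries.mk (fun n : ℕ => ((bb n n : ℕ) : ℚ))) ≠ 0 := by
    intro h
    have := congrArg (PowerSeries.coeff 0) h
    rw [PowerSeries.coeff_mk, bb_zero] at this
    simp at this
  obtain ⟨R, hR, hR0⟩ := elim (PowerSeries.mk (fun n : ℕ => ((bb n n : ℕ) : ℚ))) F hne macmahon
    Q hQ hQ0
  exact hR (F_hyper R hR0)

end Pool.PlanePD
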