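import Pool.Agent.Helper777.PP.Defs

set_option autoImplicit false

namespace Pool.PlanePD

open Complex Filter Topology

theorem bind_deg (f : ℕ → MvPolynomial ℕ ℂ) (hf : ∀ k, (f k).totalDegree ≤ 1)
    (P : MvPolynomial ℕ ℂ) : (MvPolynomial.bind₁ f P).totalDegree ≤ P.totalDegree := by
  have h1 : MvPolynomial.bind₁ f P = ∑ d ∈ P.support,
      (MvPolynomial.C (P.coeff d) : MvPolynomial ℕ ℂ) * ∏ i ∈ d.support, f i ^ d i := by
    rw [MvPolynomial.bind₁, MvPolynomial.aeval_def, MvPolynomial.eval₂_eq]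
    rfl
  rw [h1]
  apply (MvPolynomial.totalDegree_finsetSum _ _).trans
  apply Finset.sup_le
  intro d hd
  calc (MvPolynomial.C (P.coeff d) * ∏ i ∈ d.support, f i ^ d i).totalDegree
      ≤ (MvPolynomial.C (P.coeff d) : MvPolynomial ℕ ℂ).totalDegree +
        (∏ i ∈ d.support, f i ^ d i).totalDegree := MvPolynomial.totalDegree_mul _ _
    _ = (∏ i ∈ d.support, f i ^ d i).totalDegree := by
        rw [MvPolynomial.totalDegree_C, zero_add]
    _ ≤ ∑ i ∈ d.support, (f i ^ d i).totalDegree := MvPolynomial.totalDegree_finsetProd _ _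
    _ ≤ ∑ i ∈ d.support, d i := by
        apply Finset.sum_le_sum
        intro i _
        calc (f i ^ d i).totalDegree ≤ d i * (f i).totalDegree := MvPolynomial.totalDegree_pow _ _
          _ ≤ d i * 1 := Nat.mul_le_mul_left _ (hf i)
          _ = d i := mul_one _
    _ ≤ P.totalDegree := MvPolynomial.le_totalDegree hd

theorem Lw_deg (w : ℂ) (P : MvPolynomial ℕ ℂ) : (Lw w P).totalDegree ≤ P.totalDegree := by
  apply bind_deg
  intro k
  apply (MvPolynomial.totalDegree_finsetSum _ _).trans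
  apply Finset.sup_le
  intro i _
  calc (MvPolynomial.C ((ecoef k i).eval w) * (MvPolynomial.X i : MvPolynomial ℕ ℂ)).totalDegree
      ≤ (MvPolynomial.C ((ecoef k i).eval w) : MvPolynomial ℕ ℂ).totalDegree +
        (MvPolynomial.X i : MvPolynomial ℕ ℂ).totalDegree := MvPolynomial.totalDegree_mul _ _
    _ = 1 := by rw [MvPolynomial.totalDegree_C, MvPolynomial.totalDegree_X]

end Pool.PlanePD
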