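import Pool.Agent.Helper777.PP.Defs
import Pool.Agent.Helper777.PP.A0
import Pool.Agent.Helper777.PP.P_Lw_deg

set_option autoImplicit false

namespace Pool.PlanePD

open Complex Filter Topology

section LwTopAux
open MvPolynomial

theorem lwt_X (w : ℂ) (k : ℕ) : Lw w (X k) = ∑ i ∈ Finset.range (k + 1),
    C ((ecoef k i).eval w) * (X i : MvPolynomial ℕ ℂ) := by
  unfold Lw; rw [bind₁_X_right]

theorem lwt_gt (w : ℂ) (K k : ℕ) (hk : K < k) (Q : MvPolynomial ℕ ℂ)
    (hQ : Q ∈ supported ℂ (Set.Iic K)) : pderiv k (Lw w Q) = 0 := by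
  rw [supported_eq_adjoin_X] at hQ
  induction hQ using Algebra.adjoin_induction with
  | mem x hx =>
    obtain ⟨j, hj, rfl⟩ := hx
    rw [lwt_X, map_sum]
    apply Finset.sum_eq_zero
    intro i hi
    have h1 := Finset.mem_range.1 hi
    have h2 : j ≤ K := hj
    rw [pderiv_C_mul, pderiv_X_of_ne (by omega), mul_zero]
  | algebraMap r => rw [AlgHom.commutes, algebraMap_eq, pderiv_C]
  | add x y _ _ hx hy => rw [map_add, map_add, hx, hy, add_zero]
  | mul x y _ _ hx hy => rw [map_mul, pderiv_mul, hx, hy, zero_mul, mul_zero, add_zero]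

theorem lwt_eq (w : ℂ) (K : ℕ) (Q : MvPolynomial ℕ ℂ)
    (hQ : Q ∈ supported ℂ (Set.Iic K)) :
    pderiv K (Lw w Q) = C ((ecoef K K).eval w) * Lw w (pderiv K Q) := by
  rw [supported_eq_adjoin_X] at hQ
  induction hQ using Algebra.adjoin_induction with
  | mem x hx =>
    obtain ⟨j, hj, rfl⟩ := hx
    have h2 : j ≤ K := hj
    rcases h2.lt_or_eq with h3 | rfl
    · rw [pderiv_X_of_ne (by omega), map_zero, mul_zero, lwt_X, map_sum]
      apply Finset.sum_eq_zero
      intro i hi
      have h1 := Finset.mem_range.1 hi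
      rw [pderiv_C_mul, pderiv_X_of_ne (by omega), mul_zero]
    · rw [pderiv_X_self, map_one, mul_one, lwt_X, Finset.sum_range_succ, map_add, map_sum,
        pderiv_C_mul, pderiv_X_self, mul_one, Finset.sum_eq_zero, zero_add]
      intro i hi
      have h1 := Finset.mem_range.1 hi
      rw [pderiv_C_mul, pderiv_X_of_ne (by omega), mul_zero]
  | algebraMap r =>
    rw [AlgHom.commutes, algebraMap_eq, pderiv_C, map_zero, mul_zero]
  | add x y _ _ hx hy => rw [map_add, map_add, map_add, map_add, hx, hy, mul_add]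
  | mul x y _ _ hx hy =>
    rw [map_mul, pderiv_mul, hx, hy, pderiv_mul, map_add, map_mul, map_mul]
    ring

/-- recursive solution of a triangular system -/
noncomputable def lwtSol (E : ℕ → ℕ → ℂ) (y : ℕ → ℂ) : ℕ → ℂ
  | k => (y k - ∑ i : Fin k, E k i * lwtSol E y i) / E k k

theorem lwt_sol (E : ℕ → ℕ → ℂ) (y : ℕ → ℂ) (hE : ∀ k, E k k ≠ 0) (k : ℕ) :
    ∑ i ∈ Finset.range (k + 1), E k i * lwtSol E y i = y k := by
  rw [Finset.sum_range_succ]
  conv_lhs => arg 2; rw [lwtSol]
  rw [mul_div_cancel₀ _ (hE k), Finset.sum_range]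
  ring

theorem lwt_inj (w : ℂ) (hw : ∀ k, (ecoef k k).eval w ≠ 0) (Q : MvPolynomial ℕ ℂ) (hQ : Q ≠ 0) :
    Lw w Q ≠ 0 := by
  intro h0
  apply hQ
  apply MvPolynomial.funext
  intro y
  rw [map_zero]
  set E : ℕ → ℕ → ℂ := fun k i => (ecoef k i).eval w with hE
  have h1 : (aeval (lwtSol E y) : MvPolynomial ℕ ℂ →ₐ[ℂ] ℂ).comp (Lw w) = aeval y := by
    apply MvPolynomial.algHom_ext
    intro k
    rw [AlgHom.comp_apply, lwt_X, map_sum, aeval_X, ← lwt_sol E y hw k]
    apply Finset.sum_congr rfl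
    intro i _
    rw [map_mul, aeval_X, aeval_C]
    rfl
  have h2 := congrArg (fun φ : MvPolynomial ℕ ℂ →ₐ[ℂ] ℂ => φ Q) h1
  simp only [AlgHom.comp_apply, h0, map_zero] at h2
  rw [← coe_aeval_eq_eval]
  exact h2.symm

end LwTopAux

open MvPolynomial in
/-- the top degree part really depends on a highest variable, also after the substitution. -/
theorem Lw_top (P : MvPolynomial ℕ ℂ) (N : ℕ) (hP : P.totalDegree = N + 1) :
    ∃ (K : ℕ) (b : ℕ →₀ ℕ), (b.sum fun _ e => e) = N ∧
      MvPolynomial.coeff b (MvPolynomial.pderiv K (Lw (-1) P)) ≠ 0 ∧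
      ∀ (w : ℂ) (k : ℕ), K < k →
        MvPolynomial.coeff b (MvPolynomial.pderiv k (Lw w P)) = 0 := by
  set U := homogeneousComponent (N + 1) P with hU
  have hUh : U.IsHomogeneous (N + 1) := homogeneousComponent_isHomogeneous _ _
  -- the remainder has degree ≤ N
  have hR : (P - U).totalDegree ≤ N := by
    apply Finset.sup_le
    intro d hd
    rw [mem_support_iff, coeff_sub, hU, coeff_homogeneousComponent] at hd
    by_cases hdN : d.degree = N + 1
    · rw [if_pos hdN, sub_self] at hd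
      exact absurd rfl hd
    · rw [if_neg hdN, sub_zero] at hd
      have h1 := le_totalDegree (mem_support_iff.2 hd)
      rw [hP] at h1
      have h2 : (d.sum fun _ e => e) = d.degree := rfl
      omega
  have hUne : U ≠ 0 := by
    intro h0
    rw [h0, sub_zero, hP] at hR
    omega
  -- coefficients in degree N
  have hco : ∀ (w : ℂ) (k : ℕ) (b : ℕ →₀ ℕ), b.degree = N →
      coeff b (pderiv k (Lw w P)) = coeff b (pderiv k (Lw w U)) := by
    intro w k b hb
    have h1 : P = U + (P - U) := by ring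
    conv_lhs => rw [h1]
    rw [map_add, map_add, coeff_add, coeff_pderiv (Lw w (P - U))]
    have h2 : coeff (b + Finsupp.single k 1) (Lw w (P - U)) = 0 := by
      apply coeff_eq_zero_of_totalDegree_lt
      have h3 := (Lw_deg w (P - U)).trans hR
      have h4 : (b + Finsupp.single k 1 : ℕ →₀ ℕ).degree = N + 1 := by
        rw [map_add, hb, Finsupp.degree_single]
      have h5 : ∑ i ∈ (b + Finsupp.single k 1 : ℕ →₀ ℕ).support, (b + Finsupp.single k 1 : ℕ →₀ ℕ) i =
        (b + Finsupp.single k 1 : ℕ →₀ ℕ).degree := rfl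
      omega
    rw [h2, zero_mul, add_zero]
  -- highest variable
  have hvars : U.vars.Nonempty := by
    rw [Finset.nonempty_iff_ne_empty]
    intro h0
    obtain ⟨d, hd⟩ := exists_coeff_ne_zero hUne
    have h1 : d.degree = N + 1 := by
      by_contra h2
      exact hd (hUh.coeff_eq_zero h2)
    have h2 : d ≠ 0 := by
      rintro rfl
      simp at h1
    obtain ⟨i, hi⟩ := Finsupp.support_nonempty_iff.2 h2
    have h3 : i ∈ U.vars := (mem_vars_iff_mem_support i).2 ⟨d, mem_support_iff.2 hd, hi⟩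
    rw [h0] at h3
    simp at h3
  set K := U.vars.max' hvars with hK
  have hKm : K ∈ U.vars := Finset.max'_mem _ _
  have hsup : U ∈ supported ℂ (Set.Iic K) := by
    rw [mem_supported]
    intro i hi
    exact Finset.le_max' _ _ hi
  have hpd : pderiv K U ≠ 0 := by
    obtain ⟨d, hd, hdK⟩ := (mem_vars_iff_mem_support K).1 hKm
    have h1 : d K ≠ 0 := Finsupp.mem_support_iff.1 hdK
    intro h0
    have h2 := coeff_pderiv (i := K) U (d - Finsupp.single K 1)
    have h3 : d - Finsupp.single K 1 + Finsupp.single K 1 = d := by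
      apply tsub_add_cancel_of_le
      rw [Finsupp.single_le_iff]
      omega
    rw [h0, coeff_zero, h3] at h2
    have h4 : coeff d U ≠ 0 := mem_support_iff.1 hd
    have h5 : (((d - Finsupp.single K 1 : ℕ →₀ ℕ) K : ℕ) : ℂ) + 1 ≠ 0 := by
      exact Nat.cast_add_one_ne_zero _
    exact (mul_ne_zero h4 h5) h2.symm
  have hw : ∀ k, (ecoef k k).eval (-1 : ℂ) ≠ 0 := by
    intro k
    rw [ecoef_diag, Polynomial.eval_pow, Polynomial.eval_X]
    exact pow_ne_zero _ (by norm_num)
  have hne := lwt_inj (-1) hw _ hpd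
  have hhom : (Lw (-1) (pderiv K U)).IsHomogeneous N := by
    have h1 : (pderiv K U).IsHomogeneous N := by
      have := hUh.pderiv (i := K)
      simpa using this
    have h2 := h1.aeval (S := ℂ) (fun k : ℕ => ∑ i ∈ Finset.range (k + 1),
      C ((ecoef k i).eval (-1)) * (X i : MvPolynomial ℕ ℂ)) (n := 1) (fun k => by
        apply IsHomogeneous.sum
        intro i _
        exact isHomogeneous_C_mul_X _ _)
    rw [one_mul] at h2
    exact h2
  obtain ⟨b, hb⟩ := exists_coeff_ne_zero hne
  have hbN : b.degree = N := by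
    by_contra h2
    exact hb (hhom.coeff_eq_zero h2)
  refine ⟨K, b, hbN, ?_, ?_⟩
  · rw [hco _ _ _ hbN, lwt_eq _ _ _ hsup, coeff_C_mul]
    exact mul_ne_zero (hw K) hb
  · intro w k hk
    rw [hco _ _ _ hbN, lwt_gt w K k hk U hsup, coeff_zero]

end Pool.PlanePD
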