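import Pool.Agent.Helper777.PP.Defs

set_option autoImplicit false

namespace Pool.PlanePD

open Complex Filter Topology

/-- a linear functional vanishing on `W` and equal to a coefficient on low degree polynomials. -/
theorem exists_functional (W : Submodule ℂ (MvPolynomial ℕ ℂ)) (N : ℕ)
    (hW : ∀ P ∈ W, P.totalDegree ≤ N → P = 0) (b : ℕ →₀ ℕ) :
    ∃ L : MvPolynomial ℕ ℂ →ₗ[ℂ] ℂ, (∀ P ∈ W, L P = 0) ∧
      ∀ P : MvPolynomial ℕ ℂ, P.totalDegree ≤ N → L P = MvPolynomial.coeff b P := by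
  classical
  set M : Submodule ℂ (MvPolynomial ℕ ℂ) := MvPolynomial.restrictTotalDegree ℕ ℂ N with hM
  have hMm : ∀ P, P ∈ M ↔ P.totalDegree ≤ N := fun P => MvPolynomial.mem_restrictTotalDegree _ _ _
  set φ : M →ₗ[ℂ] (MvPolynomial ℕ ℂ ⧸ W) := W.mkQ ∘ₗ M.subtype with hφ
  have hinj : LinearMap.ker φ = ⊥ := by
    rw [LinearMap.ker_eq_bot']
    intro P hP
    have h1 : P.1 ∈ W := by
      have : W.mkQ P.1 = 0 := hP
      rwa [Submodule.mkQ_apply, Submodule.Quotient.mk_eq_zero] at this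
    exact Subtype.ext (hW P.1 h1 ((hMm _).1 P.2))
  obtain ⟨ρ, hρ⟩ := LinearMap.exists_leftInverse_of_injective φ hinj
  refine ⟨(MvPolynomial.lcoeff ℂ b) ∘ₗ M.subtype ∘ₗ ρ ∘ₗ W.mkQ, ?_, ?_⟩
  · intro P hP
    have h1 : W.mkQ P = 0 := by
      rw [Submodule.mkQ_apply, Submodule.Quotient.mk_eq_zero]
      exact hP
    simp only [LinearMap.comp_apply, h1, map_zero]
  · intro P hP
    have h1 : ρ (W.mkQ P) = (⟨P, (hMm P).2 hP⟩ : M) := by
      have := LinearMap.congr_fun hρ (⟨P, (hMm P).2 hP⟩ : M)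
      exact this
    simp only [LinearMap.comp_apply, h1]
    rfl

end Pool.PlanePD
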