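import Pool.Agent.Helper777.PP.Defs

set_option autoImplicit false

namespace Pool.PlanePD

open Complex Filter Topology

theorem tau_deg_X (c : ℕ → ℂ) (i : ℕ) :
    tau c (MvPolynomial.X i) = MvPolynomial.X i - MvPolynomial.C (c i) := by
  unfold tau
  rw [MvPolynomial.bind₁_X_right]

theorem tau_deg_C (c : ℕ → ℂ) (a : ℂ) : tau c (MvPolynomial.C a) = MvPolynomial.C a := by
  unfold tau
  rw [MvPolynomial.bind₁_C_right]

theorem tau_deg_lin (c : ℕ → ℂ) (i : ℕ) :
    (MvPolynomial.X i - MvPolynomial.C (c i) : MvPolynomial ℕ ℂ).totalDegree ≤ 1 := by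
  refine (MvPolynomial.totalDegree_sub _ _).trans ?_
  rw [MvPolynomial.totalDegree_X, MvPolynomial.totalDegree_C]
  simp

theorem tau_deg_mon (c : ℕ → ℂ) : ∀ (s : ℕ →₀ ℕ) (a : ℂ),
    (tau c (MvPolynomial.monomial s a)).totalDegree ≤ (MvPolynomial.monomial s a).totalDegree ∧
    (tau c (MvPolynomial.monomial s a) - MvPolynomial.monomial s a = 0 ∨
      (tau c (MvPolynomial.monomial s a) - MvPolynomial.monomial s a).totalDegree + 1 ≤
        (MvPolynomial.monomial s a).totalDegree) := by
  apply MvPolynomial.induction_on_monomial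
    (motive := fun p : MvPolynomial ℕ ℂ => (tau c p).totalDegree ≤ p.totalDegree ∧
      (tau c p - p = 0 ∨ (tau c p - p).totalDegree + 1 ≤ p.totalDegree))
  · intro a
    rw [tau_deg_C]
    exact ⟨le_rfl, Or.inl (sub_self _)⟩
  · intro p n ⟨h1, h2⟩
    by_cases hp : p = 0
    · subst hp
      simp
    · have hX : (MvPolynomial.X n : MvPolynomial ℕ ℂ) ≠ 0 := MvPolynomial.X_ne_zero n
      have hd : (p * MvPolynomial.X n).totalDegree = p.totalDegree + 1 := by
        rw [MvPolynomial.totalDegree_mul_of_isDomain hp hX, MvPolynomial.totalDegree_X]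
      rw [hd, map_mul, tau_deg_X]
      constructor
      · refine (MvPolynomial.totalDegree_mul _ _).trans ?_
        have := tau_deg_lin c n
        omega
      · right
        have e : tau c p * (MvPolynomial.X n - MvPolynomial.C (c n)) - p * MvPolynomial.X n =
            (tau c p - p) * MvPolynomial.X n - MvPolynomial.C (c n) * tau c p := by ring
        rw [e]
        have h3 : (MvPolynomial.C (c n) * tau c p).totalDegree ≤ p.totalDegree := by
          refine (MvPolynomial.totalDegree_mul _ _).trans ?_
          rw [MvPolynomial.totalDegree_C]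
          omega
        have h4 : ((tau c p - p) * MvPolynomial.X n).totalDegree ≤ p.totalDegree := by
          rcases h2 with h2 | h2
          · rw [h2]; simp
          · refine (MvPolynomial.totalDegree_mul _ _).trans ?_
            rw [MvPolynomial.totalDegree_X]
            exact h2
        have h5 := (MvPolynomial.totalDegree_sub ((tau c p - p) * MvPolynomial.X n)
          (MvPolynomial.C (c n) * tau c p)).trans (max_le h4 h3)
        omega

theorem tau_deg (c : ℕ → ℂ) (N : ℕ) (P : MvPolynomial ℕ ℂ) (hP : P.totalDegree ≤ N + 1) :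
    (tau c P - P).totalDegree ≤ N := by
  have h0 : tau c P - P = ∑ s ∈ P.support,
      (tau c (MvPolynomial.monomial s (P.coeff s)) - MvPolynomial.monomial s (P.coeff s)) := by
    rw [Finset.sum_sub_distrib, ← map_sum, MvPolynomial.support_sum_monomial_coeff]
  rw [h0]
  apply MvPolynomial.totalDegree_finsetSum_le
  intro s hs
  have h1 : (MvPolynomial.monomial s (P.coeff s)).totalDegree ≤ N + 1 := by
    rw [MvPolynomial.totalDegree_monomial s (MvPolynomial.mem_support_iff.1 hs)]
    exact (MvPolynomial.le_totalDegree hs).trans hP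
  rcases (tau_deg_mon c s (P.coeff s)).2 with h | h
  · rw [h]; simp
  · omega

end Pool.PlanePD
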