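import Pool.Agent.Helper777.PP.Defs
import Pool.Agent.Helper777.PP.P_tau_deg

set_option autoImplicit false

namespace Pool.PlanePD

open Complex Filter Topology

theorem tc_tau_mono (c : ℕ → ℂ) (m : ℕ →₀ ℕ) (a : ℂ) (b : ℕ →₀ ℕ) (h : m.degree ≤ b.degree) :
    MvPolynomial.coeff b (tau c (MvPolynomial.monomial m a) - MvPolynomial.monomial m a) = 0 := by
  rcases Nat.eq_zero_or_pos m.degree with h0 | h0
  · have hm : m = 0 := (Finsupp.degree_eq_zero_iff m).mp h0
    subst hm
    have : (MvPolynomial.monomial 0 a : MvPolynomial ℕ ℂ) = MvPolynomial.C a := rfl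
    rw [this]
    have h1 : tau c (MvPolynomial.C a) = MvPolynomial.C a := by
      rw [tau]
      simp
    rw [h1, sub_self, MvPolynomial.coeff_zero]
  · have h1 : (MvPolynomial.monomial m a : MvPolynomial ℕ ℂ).totalDegree ≤ (m.degree - 1) + 1 := by
      have h2 : (MvPolynomial.monomial m a : MvPolynomial ℕ ℂ).totalDegree ≤ m.degree :=
        MvPolynomial.totalDegree_monomial_le m a
      omega
    have h2 := tau_deg c (m.degree - 1) _ h1
    apply MvPolynomial.coeff_eq_zero_of_totalDegree_lt
    have h3 : ∑ i ∈ b.support, b i = b.degree := rfl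
    rw [h3]
    omega

/-- the remainder -/
noncomputable def tcD (c : ℕ → ℂ) (s : Finset ℕ) (P : MvPolynomial ℕ ℂ) : MvPolynomial ℕ ℂ :=
  tau c P - P + ∑ k ∈ s, MvPolynomial.C (c k) * MvPolynomial.pderiv k P

theorem tcD_add (c : ℕ → ℂ) (s : Finset ℕ) (P Q : MvPolynomial ℕ ℂ) :
    tcD c s (P + Q) = tcD c s P + tcD c s Q := by
  unfold tcD
  simp only [map_add, mul_add, Finset.sum_add_distrib]
  ring

theorem tcD_X (c : ℕ → ℂ) (s : Finset ℕ) (P : MvPolynomial ℕ ℂ) (j : ℕ) (hj : j ∈ s) :
    tcD c s (MvPolynomial.X j * P) =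
      MvPolynomial.X j * tcD c s P - MvPolynomial.C (c j) * (tau c P - P) := by
  unfold tcD
  have h1 : tau c (MvPolynomial.X j * P) =
      (MvPolynomial.X j - MvPolynomial.C (c j)) * tau c P := by
    rw [map_mul]
    congr 1
    rw [tau]
    simp
  have h2 : ∑ k ∈ s, MvPolynomial.C (c k) * MvPolynomial.pderiv k (MvPolynomial.X j * P) =
      MvPolynomial.C (c j) * P +
        MvPolynomial.X j * ∑ k ∈ s, MvPolynomial.C (c k) * MvPolynomial.pderiv k P := by
    have h3 : ∀ k, MvPolynomial.C (c k) * MvPolynomial.pderiv k (MvPolynomial.X j * P) =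
        MvPolynomial.C (c k) * (MvPolynomial.pderiv k (MvPolynomial.X j) * P) +
          MvPolynomial.X j * (MvPolynomial.C (c k) * MvPolynomial.pderiv k P) := by
      intro k
      rw [MvPolynomial.pderiv_mul]
      ring
    simp only [h3, Finset.sum_add_distrib, ← Finset.mul_sum]
    congr 1
    rw [Finset.sum_eq_single j]
    · rw [MvPolynomial.pderiv_X_self, one_mul]
    · intro k _ hk
      rw [MvPolynomial.pderiv_X_of_ne (Ne.symm hk), zero_mul, mul_zero]
    · intro h
      exact absurd hj h
  rw [h1, h2]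
  ring

theorem tcD_mono (c : ℕ → ℂ) (s : Finset ℕ) (n : ℕ) : ∀ (m : ℕ →₀ ℕ) (a : ℂ), m.degree = n →
    m.support ⊆ s → ∀ b : ℕ →₀ ℕ, n ≤ b.degree + 1 →
      MvPolynomial.coeff b (tcD c s (MvPolynomial.monomial m a)) = 0 := by
  classical
  induction n with
  | zero =>
    intro m a hm _ b _
    have hm0 : m = 0 := (Finsupp.degree_eq_zero_iff m).mp hm
    subst hm0
    have : (MvPolynomial.monomial 0 a : MvPolynomial ℕ ℂ) = MvPolynomial.C a := rfl
    rw [this]
    unfold tcD
    have h1 : tau c (MvPolynomial.C a) = MvPolynomial.C a := by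
      rw [tau]
      simp
    rw [h1]
    simp
  | succ n ih =>
    intro m a hm hs b hb
    have hne : m ≠ 0 := by
      intro h
      rw [h] at hm
      simp at hm
    obtain ⟨j, hj⟩ := Finsupp.support_nonempty_iff.mpr hne
    have hj1 : 1 ≤ m j := Nat.one_le_iff_ne_zero.mpr (Finsupp.mem_support_iff.mp hj)
    have hle : Finsupp.single j 1 ≤ m := by
      rw [Finsupp.single_le_iff]; exact hj1
    set m' : ℕ →₀ ℕ := m - Finsupp.single j 1 with hm'
    have hmm : m = Finsupp.single j 1 + m' := (add_tsub_cancel_of_le hle).symm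
    have hd' : m'.degree = n := by
      have h1 : m.degree = (Finsupp.single j 1).degree + m'.degree := by
        conv_lhs => rw [hmm]
        rw [map_add]
      rw [Finsupp.degree_single] at h1
      omega
    have hs' : m'.support ⊆ s := by
      refine Finset.Subset.trans ?_ hs
      intro x hx
      rw [Finsupp.mem_support_iff] at hx ⊢
      intro h
      apply hx
      rw [hm', Finsupp.tsub_apply, h, Nat.zero_sub]
    have hX : (MvPolynomial.monomial m a : MvPolynomial ℕ ℂ) =
        MvPolynomial.X j * MvPolynomial.monomial m' a := by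
      rw [hmm, MvPolynomial.X, MvPolynomial.monomial_mul, one_mul]
    rw [hX, tcD_X c s _ j (hs hj), MvPolynomial.coeff_sub, MvPolynomial.coeff_C_mul,
      tc_tau_mono c m' a b (by omega), mul_zero, sub_zero, MvPolynomial.coeff_X_mul']
    split_ifs with hjb
    · apply ih m' a hd' hs'
      have hj2 : 1 ≤ b j := Nat.one_le_iff_ne_zero.mpr (Finsupp.mem_support_iff.mp hjb)
      have hle2 : Finsupp.single j 1 ≤ b := by
        rw [Finsupp.single_le_iff]; exact hj2
      have h1 : b.degree = (Finsupp.single j 1).degree + (b - Finsupp.single j 1).degree := by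
        rw [← map_add, add_tsub_cancel_of_le hle2]
      rw [Finsupp.degree_single] at h1
      omega
    · rfl

/-- the coefficients just below the top degree after a translation. -/
theorem tau_coeff (c : ℕ → ℂ) (P : MvPolynomial ℕ ℂ) (b : ℕ →₀ ℕ)
    (hP : P.totalDegree ≤ (b.sum fun _ e => e) + 1) (s : Finset ℕ) (hs : P.vars ⊆ s) :
    MvPolynomial.coeff b (tau c P) = MvPolynomial.coeff b P -
      ∑ k ∈ s, c k * MvPolynomial.coeff b (MvPolynomial.pderiv k P) := by
  have key : MvPolynomial.coeff b (tcD c s P) = 0 := by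
    have hsum : tcD c s P = ∑ m ∈ P.support, tcD c s (MvPolynomial.monomial m (P.coeff m)) := by
      let D' : MvPolynomial ℕ ℂ →+ MvPolynomial ℕ ℂ :=
        { toFun := tcD c s
          map_zero' := by unfold tcD; simp
          map_add' := tcD_add c s }
      have h1 : D' P = ∑ m ∈ P.support, D' (MvPolynomial.monomial m (P.coeff m)) := by
        conv_lhs => rw [P.as_sum]
        rw [map_sum]
      exact h1
    rw [hsum, MvPolynomial.coeff_sum]
    refine Finset.sum_eq_zero fun m hm => ?_
    refine tcD_mono c s m.degree m _ rfl ?_ b ?_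
    · intro x hx
      exact hs (MvPolynomial.mem_vars x |>.mpr ⟨m, hm, hx⟩)
    · have h1 := MvPolynomial.le_totalDegree hm
      exact h1.trans hP
  unfold tcD at key
  rw [MvPolynomial.coeff_add, MvPolynomial.coeff_sub, MvPolynomial.coeff_sum] at key
  simp only [MvPolynomial.coeff_C_mul] at key
  linear_combination key

end Pool.PlanePD
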