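import Pool.Agent.Helper777.PP.Defs

set_option autoImplicit false

namespace Pool.PlanePD

open Complex Filter Topology

section elimaux
open Algebra Set

variable {B : Type*} [CommRing B] [IsDomain B] [Algebra ℚ B]

theorem elim_dadj (D : Derivation ℚ B B) (s : Set B)
    (hs : ∀ x ∈ s, IsAlgebraic (adjoin ℚ s) (D x)) {r : B} (hr : r ∈ adjoin ℚ s) :
    IsAlgebraic (adjoin ℚ s) (D r) := by
  induction hr using Algebra.adjoin_induction with
  | mem x hx => exact hs x hx
  | algebraMap q => rw [D.map_algebraMap]; exact isAlgebraic_zero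
  | add x y hx hy h1 h2 => rw [map_add]; exact h1.add h2
  | mul x y hx hy h1 h2 =>
    rw [D.leibniz, smul_eq_mul, smul_eq_mul]
    have hx' : IsAlgebraic (adjoin ℚ s) x := isAlgebraic_algebraMap (⟨x, hx⟩ : adjoin ℚ s)
    have hy' : IsAlgebraic (adjoin ℚ s) y := isAlgebraic_algebraMap (⟨y, hy⟩ : adjoin ℚ s)
    exact (hx'.mul h2).add (hy'.mul h1)

theorem elim_dpoly (D : Derivation ℚ B B) (s : Set B)
    (hs : ∀ x ∈ s, IsAlgebraic (adjoin ℚ s) (D x)) {a : B} (ha : IsAlgebraic (adjoin ℚ s) a)
    (f : Polynomial (adjoin ℚ s)) :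
    ∃ g, IsAlgebraic (adjoin ℚ s) g ∧
      D (Polynomial.aeval a f) = g + Polynomial.aeval a (Polynomial.derivative f) * D a := by
  induction f using Polynomial.induction_on' with
  | add p q hp hq =>
    obtain ⟨g1, h1, e1⟩ := hp
    obtain ⟨g2, h2, e2⟩ := hq
    refine ⟨g1 + g2, h1.add h2, ?_⟩
    rw [map_add, map_add, e1, e2, map_add, map_add]
    ring
  | monomial n r =>
    refine ⟨a ^ n * D r, (ha.pow n).mul (elim_dadj D s hs r.2), ?_⟩
    rw [Polynomial.aeval_monomial, Polynomial.derivative_monomial, Polynomial.aeval_monomial,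
      D.leibniz, D.leibniz_pow]
    have e1 : algebraMap (adjoin ℚ s) B r = (r : B) := rfl
    have e2 : algebraMap (adjoin ℚ s) B (r * (n : adjoin ℚ s)) = (r : B) * (n : B) := by
      rw [map_mul, map_natCast]; rfl
    rw [e1, e2]
    simp only [smul_eq_mul, nsmul_eq_mul]
    ring

theorem elim_dalg_aux (D : Derivation ℚ B B) (s : Set B)
    (hs : ∀ x ∈ s, IsAlgebraic (adjoin ℚ s) (D x)) {a : B} (ha : IsAlgebraic (adjoin ℚ s) a) :
    ∀ (n : ℕ) (f : Polynomial (adjoin ℚ s)), f.natDegree = n → f ≠ 0 → Polynomial.aeval a f = 0 →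
      IsAlgebraic (adjoin ℚ s) (D a) := by
  haveI : CharZero (adjoin ℚ s) := algebraRat.charZero _
  intro n
  induction n using Nat.strong_induction_on with
  | _ n ih =>
    intro f hfn hf0 hfa
    by_cases h : Polynomial.aeval a (Polynomial.derivative f) = 0
    · by_cases h0 : Polynomial.derivative f = 0
      · exfalso
        have h1 := Polynomial.natDegree_eq_zero_of_derivative_eq_zero h0
        obtain ⟨c, rfl⟩ := Polynomial.natDegree_eq_zero.1 h1
        rw [Polynomial.aeval_C] at hfa
        have h2 : c = 0 := by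
          have : ((c : adjoin ℚ s) : B) = 0 := hfa
          exact Subtype.ext this
        apply hf0
        rw [h2, Polynomial.C_0]
      · have h1 : (Polynomial.derivative f).natDegree < n := by
          rw [← hfn]
          apply Polynomial.natDegree_derivative_lt
          intro h2
          apply h0
          obtain ⟨c, rfl⟩ := Polynomial.natDegree_eq_zero.1 h2
          exact Polynomial.derivative_C
        exact ih _ h1 _ rfl h0 h
    · obtain ⟨g, hg, e⟩ := elim_dpoly D s hs ha f
      rw [hfa, map_zero] at e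
      have h1 : Polynomial.aeval a (Polynomial.derivative f) * D a = -g := by
        linear_combination -e
      have h2 : IsAlgebraic (adjoin ℚ s) (Polynomial.aeval a (Polynomial.derivative f)) := by
        have h3 : Polynomial.aeval a (Polynomial.derivative f) ∈
            Subalgebra.algebraicClosure (adjoin ℚ s) B := by
          apply Polynomial.aeval_mem_adjoin_singleton _ _ |> fun h =>
            (Algebra.adjoin_le (S := Subalgebra.algebraicClosure (adjoin ℚ s) B)
              (Set.singleton_subset_iff.2 ((Subalgebra.mem_algebraicClosure _ _).2 ha))) h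
        exact (Subalgebra.mem_algebraicClosure _ _).1 h3
      refine IsAlgebraic.of_mul (mem_nonZeroDivisors_of_ne_zero h) h2 ?_
      rw [h1]
      exact hg.neg

theorem elim_dalg (D : Derivation ℚ B B) (s : Set B)
    (hs : ∀ x ∈ s, IsAlgebraic (adjoin ℚ s) (D x)) {a : B} (ha : IsAlgebraic (adjoin ℚ s) a) :
    IsAlgebraic (adjoin ℚ s) (D a) := by
  obtain ⟨f, hf0, hfa⟩ := ha
  exact elim_dalg_aux D s hs ⟨f, hf0, hfa⟩ _ f rfl hf0 hfa

/-- a non algebraically independent sequence has a member algebraic over the previous ones -/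
theorem elim_exists (x : ℕ → B) (h0 : Transcendental ℚ (x 0))
    (h : ¬ AlgebraicIndependent ℚ x) :
    ∃ n, 1 ≤ n ∧ IsAlgebraic (adjoin ℚ (x '' Iio n)) (x n) := by
  by_contra hcon
  push Not at hcon
  apply h
  have key : ∀ n, AlgebraicIndepOn ℚ x (Iio (n + 1)) := by
    intro n
    induction n with
    | zero =>
      have e : Iio (0 + 1) = ({0} : Set ℕ) := by ext m; simp
      rw [e]
      exact (algebraicIndependent_singleton_iff (⟨0, rfl⟩ : ({0} : Set ℕ))).2 h0
    | succ n ih =>
      have e : Iio (n + 1 + 1) = insert (n + 1) (Iio (n + 1)) := by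
        ext m; simp only [mem_Iio, mem_insert_iff]; omega
      rw [e]
      exact ih.insert (hcon (n + 1) (by omega))
  refine algebraicIndependent_of_finite_type fun t ht => ?_
  obtain ⟨n, hn⟩ := ht.bddAbove
  exact (key n).mono (fun m hm => Nat.lt_succ_of_le (hn hm))

/-- an algebraically independent infinite family is not algebraic over finitely many elements -/
theorem elim_fin (y : ℕ → B) (s : Set B) (hs : s.Finite)
    (hy : ∀ k, IsAlgebraic (adjoin ℚ s) (y k)) : ¬ AlgebraicIndependent ℚ y := by
  intro h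
  have hI : (AlgebraicIndependent.matroid ℚ B).Indep (range y) :=
    AlgebraicIndependent.matroid_indep_iff.2 h.coe_range
  have hsub : range y ⊆ (AlgebraicIndependent.matroid ℚ B).closure s := by
    rintro _ ⟨k, rfl⟩
    rw [AlgebraicIndependent.matroid_closure_eq]
    exact (Subalgebra.mem_algebraicClosure _ _).2 (hy k)
  have h1 := hI.encard_le_eRk_of_subset hsub
  rw [Matroid.eRk_closure_eq] at h1
  have h2 := h1.trans (Matroid.eRk_le_encard _ _)
  have h3 : (range y).Infinite := infinite_range_of_injective h.injective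
  rw [h3.encard_eq, top_le_iff, encard_eq_top_iff] at h2
  exact h2 hs

end elimaux

theorem elim_transc : Transcendental ℚ (PowerSeries.X : PowerSeries ℚ) := by
  rw [transcendental_iff]
  intro p hp
  have h1 : Polynomial.aeval (PowerSeries.X : PowerSeries ℚ) p = (p : PowerSeries ℚ) := by
    rw [← Polynomial.eval₂_C_X_eq_coe]
    rfl
  rw [h1] at hp
  exact_mod_cast hp

/-- elimination: if `P` is D-algebraic and `θ P = P * F'`, then `F'` satisfies an autonomous
equation. -/
theorem elim (P F' : PowerSeries ℚ) (hP : P ≠ 0) (hPF : th P = P * F')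
    (Q : MvPolynomial ℕ ℚ) (hQ : Q ≠ 0)
    (hQ0 : MvPolynomial.aeval (fun i : ℕ => if i = 0 then (PowerSeries.X : PowerSeries ℚ)
        else (⇑(PowerSeries.derivative ℚ))^[i - 1] P) Q = 0) :
    ∃ R : MvPolynomial ℕ ℚ, R ≠ 0 ∧ MvPolynomial.aeval (fun k => th^[k] F') R = 0 := by
  set x : ℕ → PowerSeries ℚ := fun i : ℕ => if i = 0 then (PowerSeries.X : PowerSeries ℚ)
        else (⇑(PowerSeries.derivative ℚ))^[i - 1] P with hx
  have hx0 : x 0 = PowerSeries.X := by simp [hx]
  have hx1 : x 1 = P := by simp [hx]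
  have hxs : ∀ i, 1 ≤ i → PowerSeries.derivative ℚ (x i) = x (i + 1) := by
    intro i hi
    obtain ⟨j, rfl⟩ := Nat.exists_eq_add_of_le hi
    simp only [hx]
    rw [if_neg (by omega), if_neg (by omega)]
    have e1 : 1 + j - 1 = j := by omega
    have e2 : 1 + j + 1 - 1 = j + 1 := by omega
    rw [e1, e2, Function.iterate_succ_apply']
  have hnot : ¬ AlgebraicIndependent ℚ x := by
    intro h
    exact hQ (algebraicIndependent_iff.1 h Q hQ0)
  obtain ⟨n, hn1, hn⟩ := elim_exists x (by rw [hx0]; exact elim_transc) hnot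
  set s : Set (PowerSeries ℚ) := x '' Set.Iio n with hs
  have hmem : ∀ i, i < n → IsAlgebraic (Algebra.adjoin ℚ s) (x i) := fun i hi =>
    isAlgebraic_algebraMap (⟨x i, Algebra.subset_adjoin ⟨i, hi, rfl⟩⟩ : Algebra.adjoin ℚ s)
  have hDs : ∀ y ∈ s, IsAlgebraic (Algebra.adjoin ℚ s) (PowerSeries.derivative ℚ y) := by
    rintro _ ⟨i, hi, rfl⟩
    by_cases h0 : i = 0
    · rw [h0, hx0, PowerSeries.derivative_X]
      exact isAlgebraic_one
    · rw [hxs i (by omega)]
      have hi' : i < n := hi
      by_cases h2 : i + 1 = n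
      · rw [h2]; exact hn
      · exact hmem _ (by omega)
  have hD : ∀ {a}, IsAlgebraic (Algebra.adjoin ℚ s) a →
      IsAlgebraic (Algebra.adjoin ℚ s) (PowerSeries.derivative ℚ a) :=
    fun ha => elim_dalg (PowerSeries.derivative ℚ) s hDs ha
  have hX : IsAlgebraic (Algebra.adjoin ℚ s) (PowerSeries.X : PowerSeries ℚ) := by
    rw [← hx0]; exact hmem 0 (by omega)
  have hPa : IsAlgebraic (Algebra.adjoin ℚ s) P := by
    rw [← hx1]
    by_cases h2 : 1 = n
    · rw [h2]; exact hn
    · exact hmem _ (by omega)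
  have hth : ∀ {a}, IsAlgebraic (Algebra.adjoin ℚ s) a → IsAlgebraic (Algebra.adjoin ℚ s) (th a) :=
    fun ha => hX.mul (hD ha)
  have hF' : IsAlgebraic (Algebra.adjoin ℚ s) F' := by
    refine IsAlgebraic.of_mul (mem_nonZeroDivisors_of_ne_zero hP) hPa ?_
    rw [← hPF]
    exact hth hPa
  have hy : ∀ k, IsAlgebraic (Algebra.adjoin ℚ s) (th^[k] F') := by
    intro k
    induction k with
    | zero => exact hF'
    | succ k ih => rw [Function.iterate_succ_apply']; exact hth ih
  have hfin : s.Finite := (Set.finite_Iio n).image _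
  have hna := elim_fin (fun k => th^[k] F') s hfin hy
  rw [algebraicIndependent_iff] at hna
  push Not at hna
  obtain ⟨R, h1, h2⟩ := hna
  exact ⟨R, h2, h1⟩

end Pool.PlanePD
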